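import Pool.Agent.K6.H56.TL.Stm

/-!
Passage from lattices to forms: the good rotations of a lattice are `(x + y A τ) / m` (piece A1 of MP_047cd2_co).
-/

set_option autoImplicit false

open scoped BigOperators ComplexConjugate
open Finset

namespace Pool.Agent.K6.H56.TL

namespace A1aux

/-- The integer relations of a good rotation. -/
lemma rel (a b ρ : ℂ) : ∃ P Q R S : ℤ,
    ((M a b ρ).index : ℂ) * ρ * a = P * a + Q * b ∧
      ((M a b ρ).index : ℂ) * ρ * b = R * a + S * b := by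
  have h1 : ∀ v : V, (M a b ρ).index • v ∈ M a b ρ := fun v => AddSubgroup.nsmul_index_mem _ v
  obtain ⟨w, hw⟩ := h1 (1, 0)
  obtain ⟨w', hw'⟩ := h1 (0, 1)
  refine ⟨w.1, w.2, w'.1, w'.2, ?_, ?_⟩
  · simp [phi] at hw
    linear_combination hw
  · simp [phi] at hw'
    linear_combination hw'

/-- the relation of `τ = b / a` -/
lemma quad {a b ρ : ℂ} {m : ℂ} {P Q R S : ℤ} (h1 : m * ρ * a = P * a + Q * b)
    (h2 : m * ρ * b = R * a + S * b) :
    (Q : ℂ) * b ^ 2 + (P - S : ℤ) * a * b + (-R : ℤ) * a ^ 2 = 0 := by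
  push_cast
  linear_combination b * (-h1) + a * h2

lemma disc {A B C : ℤ} {τ : ℂ} (hA : 0 < A) (hτ : τ.im ≠ 0)
    (h : (A : ℂ) * τ ^ 2 + B * τ + C = 0) : 0 < 4 * A * C - B ^ 2 := by
  have hre := congrArg Complex.re h
  have him := congrArg Complex.im h
  simp [pow_two] at hre him
  have hB : (B : ℝ) = -2 * A * τ.re := by
    have : τ.im * (2 * A * τ.re + B) = 0 := by linear_combination him
    rcases mul_eq_zero.1 this with h0 | h0
    · exact absurd h0 hτ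
    · linarith
  have hC : (C : ℝ) = A * (τ.re ^ 2 + τ.im ^ 2) := by
    rw [hB] at hre
    linear_combination hre
  have h4 : (0 : ℝ) < 4 * A * C - B ^ 2 := by
    rw [hB, hC]
    have hA' : (0 : ℝ) < A := by exact_mod_cast hA
    have : 0 < 4 * (A : ℝ) ^ 2 * τ.im ^ 2 := by positivity
    linarith [this, (by ring : 4 * (A : ℝ) * (A * (τ.re ^ 2 + τ.im ^ 2)) - (-2 * A * τ.re) ^ 2 =
      4 * (A : ℝ) ^ 2 * τ.im ^ 2)]
  exact_mod_cast h4

lemma normSq_form {A B C : ℤ} {τ : ℂ} (hτ : τ.im ≠ 0)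
    (h : (A : ℂ) * τ ^ 2 + B * τ + C = 0) (x y : ℤ) :
    Complex.normSq ((x : ℂ) + y * (A * τ)) =
      ((x ^ 2 - B * x * y + A * C * y ^ 2 : ℤ) : ℝ) := by
  have hre := congrArg Complex.re h
  have him := congrArg Complex.im h
  simp [pow_two] at hre him
  have hB : (B : ℝ) = -2 * A * τ.re := by
    have : τ.im * (2 * A * τ.re + B) = 0 := by linear_combination him
    rcases mul_eq_zero.1 this with h0 | h0
    · exact absurd h0 hτ
    · linarith
  have hC : (C : ℝ) = A * (τ.re ^ 2 + τ.im ^ 2) := by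
    rw [hB] at hre
    linear_combination hre
  simp [Complex.normSq_apply]
  rw [hB, hC]
  ring

/-- The leading coefficients of the integer relations of `τ`. -/
def HS (τ : ℂ) : AddSubgroup ℤ where
  carrier := {Q | ∃ P R : ℤ, (Q : ℂ) * τ ^ 2 + P * τ + R = 0}
  add_mem' := by
    rintro x y ⟨P, R, h⟩ ⟨P', R', h'⟩
    refine ⟨P + P', R + R', ?_⟩
    push_cast
    linear_combination h + h'
  zero_mem' := ⟨0, 0, by simp⟩
  neg_mem' := by
    rintro x ⟨P, R, h⟩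
    refine ⟨-P, -R, ?_⟩
    push_cast
    linear_combination -h

lemma exists_min {τ : ℂ} {Q P R : ℤ} (hQ : Q ≠ 0) (h : (Q : ℂ) * τ ^ 2 + P * τ + R = 0) :
    ∃ A B C : ℤ, 0 < A ∧ (A : ℂ) * τ ^ 2 + B * τ + C = 0 ∧
      ∀ Q' P' R' : ℤ, (Q' : ℂ) * τ ^ 2 + P' * τ + R' = 0 → A ∣ Q' := by
  obtain ⟨g, hg⟩ := Int.subgroup_cyclic (HS τ)
  have hmem : ∀ {x : ℤ}, x ∈ HS τ ↔ g ∣ x := by
    intro x
    rw [hg, ← AddSubgroup.zmultiples_eq_closure, Int.mem_zmultiples_iff]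
  have hg0 : g ≠ 0 := by
    rintro rfl
    exact hQ (zero_dvd_iff.1 (hmem.1 ⟨P, R, h⟩))
  obtain ⟨B, C, hBC⟩ : |g| ∈ HS τ := hmem.2 ((dvd_abs g g).2 dvd_rfl)
  exact ⟨|g|, B, C, abs_pos.2 hg0, hBC, fun Q' P' R' h' => (abs_dvd g Q').2 (hmem.1 ⟨P', R', h'⟩)⟩

/-- The primitive vector of a good rotation. -/
lemma exists_vec {a b ρ : ℂ} {A B C : ℤ} (ha : a ≠ 0) (hτ : (b / a).im ≠ 0) (hA : 0 < A)
    (h : (A : ℂ) * (b / a) ^ 2 + B * (b / a) + C = 0)
    (hdiv : ∀ Q' P' R' : ℤ, (Q' : ℂ) * (b / a) ^ 2 + P' * (b / a) + R' = 0 → A ∣ Q')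
    (hn : ‖ρ‖ = 1) (hm : (M a b ρ).index ≠ 0) :
    ∃ (v : V) (z : ℕ), 0 < z ∧ z ≤ (M a b ρ).index ∧ IsCoprime v.1 v.2 ∧
      v.1 ^ 2 - B * v.1 * v.2 + A * C * v.2 ^ 2 = (z : ℤ) ^ 2 ∧
      (z : ℂ) * ρ = v.1 + v.2 * (A * (b / a)) := by
  obtain ⟨P, Q, R, S, h1, h2⟩ := rel a b ρ
  set m := (M a b ρ).index with hmdef
  set τ := b / a with hτdef
  have hb : b = a * τ := by rw [hτdef]; field_simp
  have hq := quad h1 h2
  have hq' : (Q : ℂ) * τ ^ 2 + ((P - S : ℤ) : ℂ) * τ + ((-R : ℤ) : ℂ) = 0 := by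
    rw [hb] at hq
    have : a ^ 2 * ((Q : ℂ) * τ ^ 2 + ((P - S : ℤ) : ℂ) * τ + ((-R : ℤ) : ℂ)) = 0 := by
      linear_combination hq
    rcases mul_eq_zero.1 this with h0 | h0
    · exact absurd h0 (pow_ne_zero 2 ha)
    · exact h0
  obtain ⟨y, hy⟩ := hdiv _ _ _ hq'
  have h3 : (m : ℂ) * ρ = P + y * (A * τ) := by
    have : a * ((m : ℂ) * ρ - (P + y * (A * τ))) = 0 := by
      have hyc : (Q : ℂ) = A * y := by rw [hy]; push_cast; ring
      rw [hb, hyc] at h1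
      linear_combination h1
    rcases mul_eq_zero.1 this with h0 | h0
    · exact absurd h0 ha
    · linear_combination h0
  have h4 : ((P ^ 2 - B * P * y + A * C * y ^ 2 : ℤ) : ℝ) = (m : ℝ) ^ 2 := by
    rw [← normSq_form hτ h P y, ← h3, Complex.normSq_mul, Complex.normSq_eq_norm_sq ρ, hn,
      Complex.normSq_natCast]
    ring
  have h5 : P ^ 2 - B * P * y + A * C * y ^ 2 = (m : ℤ) ^ 2 := by exact_mod_cast h4
  have hgpos : 0 < Int.gcd P y := by
    rcases Nat.eq_zero_or_pos (Int.gcd P y) with h0 | h0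
    · exfalso
      obtain ⟨hP, hy0⟩ := Int.gcd_eq_zero_iff.1 h0
      rw [hP, hy0] at h5
      have : (m : ℤ) ^ 2 = 0 := by rw [← h5]; ring
      exact hm (by exact_mod_cast pow_eq_zero_iff (two_ne_zero) |>.1 this)
    · exact h0
  obtain ⟨x', y', hco, hx', hy'⟩ := Int.exists_gcd_one hgpos
  set g := Int.gcd P y with hgdef
  have h6 : (g : ℤ) ^ 2 * (x' ^ 2 - B * x' * y' + A * C * y' ^ 2) = (m : ℤ) ^ 2 := by
    rw [← h5, hx', hy']
    ring
  have h7 : g ∣ m := by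
    have : (g : ℤ) ^ 2 ∣ (m : ℤ) ^ 2 := ⟨_, h6.symm⟩
    have h8 : g ^ 2 ∣ m ^ 2 := by exact_mod_cast this
    exact (Nat.pow_dvd_pow_iff two_ne_zero).1 h8
  obtain ⟨z, hz⟩ := h7
  have hz0 : 0 < z := Nat.pos_of_ne_zero (by rintro rfl; exact hm (by simpa using hz))
  refine ⟨(x', y'), z, hz0, ?_, Int.isCoprime_iff_gcd_eq_one.2 hco, ?_, ?_⟩
  · rw [hz]; exact Nat.le_mul_of_pos_left z hgpos
  · have : (g : ℤ) ^ 2 * (x' ^ 2 - B * x' * y' + A * C * y' ^ 2) = (g : ℤ) ^ 2 * (z : ℤ) ^ 2 := by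
      rw [h6, hz]; push_cast; ring
    have hg2 : (g : ℤ) ^ 2 ≠ 0 := pow_ne_zero 2 (by exact_mod_cast hgpos.ne')
    exact mul_left_cancel₀ hg2 this
  · have hgc : (g : ℂ) ≠ 0 := by exact_mod_cast hgpos.ne'
    apply mul_left_cancel₀ hgc
    have e1 : (P : ℂ) = x' * g := by
      have := congrArg (fun n : ℤ => (n : ℂ)) hx'
      simpa using this
    have e2 : (y : ℂ) = y' * g := by
      have := congrArg (fun n : ℤ => (n : ℂ)) hy'
      simpa using this
    rw [hz, e1, e2] at h3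
    push_cast at h3
    linear_combination h3

end A1aux

open A1aux in
theorem t_A1 (hC : S_COL) : S_A1 := by
  classical
  intro a b hab
  have him : (conj a * b).im ≠ 0 := (hC.2.1 a b).1 hab
  have ha : a ≠ 0 := by
    rintro rfl
    simp at him
  have hb : b = a * (b / a) := by field_simp
  have hτ : (b / a).im ≠ 0 := by
    intro h0
    apply him
    have : conj a * b = ((Complex.normSq a : ℝ) : ℂ) * (b / a) := by
      conv_lhs => rw [hb]
      rw [← mul_assoc, mul_comm (conj a) a, Complex.mul_conj]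
    rw [this, Complex.im_ofReal_mul, h0, mul_zero]
  by_cases hall : ∀ Φ : Finset ℂ, Good a b Φ → ∀ ρ ∈ Φ, ρ = 1 ∨ ρ = -1
  · exact Or.inl hall
  · right
    push Not at hall
    obtain ⟨Φ0, hΦ0, ρ0, hρ0, hne1, hne2⟩ := hall
    obtain ⟨hn0, hm0⟩ := hΦ0 ρ0 hρ0
    obtain ⟨P, Q, R, S, h1, h2⟩ := rel a b ρ0
    have hQ : Q ≠ 0 := by
      rintro rfl
      have h3 : ((M a b ρ0).index : ℂ) * ρ0 = P := by
        have : a * (((M a b ρ0).index : ℂ) * ρ0 - P) = 0 := by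
          push_cast at h1
          linear_combination h1
        rcases mul_eq_zero.1 this with h0 | h0
        · exact absurd h0 ha
        · linear_combination h0
      have h4 : ((M a b ρ0).index : ℝ) = |(P : ℝ)| := by
        have := congrArg (fun z : ℂ => ‖z‖) h3
        simp only [norm_mul, hn0, mul_one, Complex.norm_natCast] at this
        rw [this, Complex.norm_intCast]
      have hmc : ((M a b ρ0).index : ℂ) ≠ 0 := by exact_mod_cast hm0
      rcases abs_cases (P : ℝ) with ⟨h5, _⟩ | ⟨h5, _⟩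
      · rw [h5] at h4
        have h6 : ((M a b ρ0).index : ℂ) = P := by exact_mod_cast h4
        exact hne1 (mul_left_cancel₀ hmc (by rw [h3, h6, mul_one]))
      · rw [h5] at h4
        have h6 : ((M a b ρ0).index : ℂ) = -P := by exact_mod_cast h4
        exact hne2 (mul_left_cancel₀ hmc (by rw [h3, h6]; ring))
    have hq := quad h1 h2
    have hq' : (Q : ℂ) * (b / a) ^ 2 + ((P - S : ℤ) : ℂ) * (b / a) + ((-R : ℤ) : ℂ) = 0 := by
      have : a ^ 2 * ((Q : ℂ) * (b / a) ^ 2 + ((P - S : ℤ) : ℂ) * (b / a) + ((-R : ℤ) : ℂ)) = 0 := by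
        rw [hb] at hq
        linear_combination hq
      rcases mul_eq_zero.1 this with h0 | h0
      · exact absurd h0 (pow_ne_zero 2 ha)
      · exact h0
    obtain ⟨A, B, C, hA, hrel, hdiv⟩ := exists_min hQ hq'
    refine ⟨A, B, C, hA, disc hA hτ hrel, ?_, fun Φ hΦ => ?_⟩
    · have : a ^ 2 * ((A : ℂ) * (b / a) ^ 2 + B * (b / a) + C) = 0 := by rw [hrel, mul_zero]
      have e : (A : ℂ) * b ^ 2 + B * a * b + C * a ^ 2 =
          a ^ 2 * ((A : ℂ) * (b / a) ^ 2 + B * (b / a) + C) := by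
        field_simp
      rw [e, this]
    · have hex : ∀ ρ : ℂ, ∃ v : V, ρ ∈ Φ → ∃ z : ℕ, 0 < z ∧ z ≤ (M a b ρ).index ∧
          IsCoprime v.1 v.2 ∧ v.1 ^ 2 - B * v.1 * v.2 + A * C * v.2 ^ 2 = (z : ℤ) ^ 2 ∧
          (z : ℂ) * ρ = v.1 + v.2 * (A * (b / a)) := by
        intro ρ
        by_cases h : ρ ∈ Φ
        · obtain ⟨v, hv⟩ := exists_vec ha hτ hA hrel hdiv (hΦ ρ h).1 (hΦ ρ h).2
          exact ⟨v, fun _ => hv⟩
        · exact ⟨0, fun h' => absurd h' h⟩
      choose f hf using hex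
      have hinj : Set.InjOn f (Φ : Set ℂ) := by
        intro ρ hρ ρ' hρ' he
        obtain ⟨z, hz, -, -, hz2, hz3⟩ := hf ρ hρ
        obtain ⟨z', hz', -, -, hz2', hz3'⟩ := hf ρ' hρ'
        rw [he, hz2'] at hz2
        have hzz : z' = z := by
          have : z' ^ 2 = z ^ 2 := by exact_mod_cast hz2
          exact Nat.pow_left_injective two_ne_zero this
        subst hzz
        have hzc : ((z' : ℕ) : ℂ) ≠ 0 := by exact_mod_cast hz.ne'
        apply mul_left_cancel₀ hzc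
        rw [hz3, hz3', he]
      refine ⟨Φ.image f, ?_, ?_⟩
      · intro v hv
        obtain ⟨ρ, hρ, rfl⟩ := Finset.mem_image.1 hv
        obtain ⟨z, hz, -, h3, hz2, -⟩ := hf ρ hρ
        exact ⟨h3, z, hz, hz2⟩
      · rw [Finset.sum_image hinj]
        refine Finset.sum_le_sum fun ρ hρ => ?_
        obtain ⟨z, hz, hle, -, hz2, -⟩ := hf ρ hρ
        rw [hz2]
        push_cast
        have hz' : (0 : ℝ) < z := by exact_mod_cast hz
        have hle' : (z : ℝ) ≤ (M a b ρ).index := by exact_mod_cast hle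
        exact one_div_le_one_div_of_le (by positivity) (pow_le_pow_left₀ hz'.le hle' 2)

end Pool.Agent.K6.H56.TL
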