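import Pool.Agent.K6.H56.TL.Stm

/-!
MP_047cd2_co, piece ARI (helper5): from the classification of the coincidence rotations by a binary
quadratic form to the bounds of the rotation sums.
-/

set_option autoImplicit false

open scoped BigOperators ComplexConjugate
open Finset

namespace Pool.Agent.K6.H56.TL.ARI

open Pool.Agent.K6.H56.TL

theorem inv_sq_le_one {m : ℕ} (hm : m ≠ 0) : 1 / (m : ℝ) ^ 2 ≤ 1 := by
  have h1 : (1 : ℝ) ≤ m := by exact_mod_cast Nat.one_le_iff_ne_zero.2 hm
  rw [div_le_one (by positivity)]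
  nlinarith

/-- The change of variables. -/
def sh (s : ℤ) (v : V) : V := (v.1 - s * v.2, v.2)

theorem sh_inj (s : ℤ) : Function.Injective (sh s) := by
  rintro ⟨x, y⟩ ⟨x', y'⟩ h
  simp only [sh, Prod.mk.injEq] at h
  obtain ⟨h1, h2⟩ := h
  subst h2
  exact Prod.ext (by simpa using h1) rfl

theorem qf_sh {A B C e s k : ℤ} (_he : e ^ 2 = e) (hB : B = 2 * s - e)
    (hk : k = A * C - s ^ 2 + e * s) (v : V) :
    v.1 ^ 2 - B * v.1 * v.2 + A * C * v.2 ^ 2 = qf e k (sh s v) := by
  simp only [qf, sh]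
  rw [hB, hk]
  ring

theorem cop_sh {s : ℤ} {v : V} (h : IsCoprime v.1 v.2) : IsCoprime (sh s v).1 (sh s v).2 := by
  obtain ⟨x, y, h⟩ := h
  refine ⟨x, y + x * s, ?_⟩
  simp only [sh]
  linear_combination h

/-- The sum for the form. -/
theorem rotB_of {a b : ℂ} {A B C e s k : ℤ} (he : e ^ 2 = e) (hB : B = 2 * s - e)
    (hk : k = A * C - s ^ 2 + e * s) {M0 : ℝ}
    (h : ∀ Φ : Finset ℂ, Good a b Φ → ∃ Ψ : Finset V,
      (∀ v ∈ Ψ, IsCoprime v.1 v.2 ∧ ∃ z : ℕ, 0 < z ∧
        v.1 ^ 2 - B * v.1 * v.2 + A * C * v.2 ^ 2 = (z : ℤ) ^ 2) ∧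
      ∑ ρ ∈ Φ, 1 / ((M a b ρ).index : ℝ) ^ 2 ≤
        ∑ v ∈ Ψ, 1 / ((v.1 ^ 2 - B * v.1 * v.2 + A * C * v.2 ^ 2 : ℤ) : ℝ))
    (hM : ∀ Φ : Finset V, Adm e k Φ → ∑ v ∈ Φ, 1 / (qf e k v : ℝ) ≤ M0) : RotB a b M0 := by
  classical
  intro Φ hΦ
  obtain ⟨Ψ, h1, h2⟩ := h Φ hΦ
  refine h2.trans ?_
  have h3 : ∑ v ∈ Ψ, 1 / ((v.1 ^ 2 - B * v.1 * v.2 + A * C * v.2 ^ 2 : ℤ) : ℝ) =
      ∑ v ∈ Ψ.image (sh s), 1 / (qf e k v : ℝ) := by
    rw [Finset.sum_image fun x _ y _ hxy => sh_inj s hxy]
    refine Finset.sum_congr rfl fun v _ => ?_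
    rw [qf_sh he hB hk]
  rw [h3]
  refine hM _ ?_
  intro v hv
  obtain ⟨u, hu, rfl⟩ := Finset.mem_image.1 hv
  obtain ⟨h4, z, h5, h6⟩ := h1 u hu
  refine ⟨cop_sh h4, z, h5, ?_⟩
  rw [← qf_sh he hB hk, h6]

theorem t_ARI (h1 : S_A1) (h7 : S_NT7) (h4 : S_NT4) (h3 : S_NT3) : S_ARI := by
  classical
  intro a b hab
  have ha : a ≠ 0 := by
    have := hab.ne_zero 0
    simpa using this
  rcases h1 a b hab with h | ⟨A, B, C, hA, hD, hrel, h⟩
  · left
    intro Φ hΦ
    have h5 : ∑ ρ ∈ Φ, 1 / ((M a b ρ).index : ℝ) ^ 2 ≤ ∑ ρ ∈ Φ, (1 : ℝ) :=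
      Finset.sum_le_sum fun ρ hρ => inv_sq_le_one (hΦ ρ hρ).2
    refine h5.trans ?_
    rw [Finset.sum_const, nsmul_eq_mul, mul_one]
    have h6 : Φ ⊆ {1, -1} := by
      intro ρ hρ
      rw [Finset.mem_insert, Finset.mem_singleton]
      exact h Φ hΦ ρ hρ
    have h8 : Φ.card ≤ 2 := (Finset.card_le_card h6).trans Finset.card_le_two
    have h9 : (Φ.card : ℝ) ≤ 2 := by exact_mod_cast h8
    linarith
  · -- the parity of `B`
    obtain ⟨s, e, he, hB⟩ : ∃ s e : ℤ, (e = 0 ∨ e = 1) ∧ B = 2 * s - e := by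
      rcases Int.even_or_odd B with ⟨s, hs⟩ | ⟨s, hs⟩
      · exact ⟨s, 0, Or.inl rfl, by omega⟩
      · exact ⟨s + 1, 1, Or.inr rfl, by omega⟩
    have he2 : e ^ 2 = e := by rcases he with rfl | rfl <;> norm_num
    obtain ⟨k, hk⟩ : ∃ k : ℤ, k = A * C - s ^ 2 + e * s := ⟨_, rfl⟩
    have hDk : 4 * A * C - B ^ 2 = 4 * k - e := by
      rw [hk, hB]
      linear_combination -he2
    rw [hDk] at hD
    by_cases h5 : 7 ≤ 4 * k - e
    · left
      exact rotB_of he2 hB hk h (h7 e k he h5)
    · have hrel' : (A : ℂ) * b ^ 2 = -(B * a * b) - C * a ^ 2 := by linear_combination hrel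
      rcases he with rfl | rfl
      · -- `D = 4`
        right; left
        have hk1 : k = 1 := by omega
        subst hk1
        refine ⟨rotB_of he2 hB hk h h4, ?_⟩
        have hAC : s ^ 2 - A * C = -1 := by linear_combination hk
        have hACc : (s : ℂ) ^ 2 - A * C = -1 := by exact_mod_cast hAC
        have hBc : (B : ℂ) = 2 * s := by rw [hB]; push_cast; ring
        have hw : ((s * a + A * b) / a) ^ 2 = -1 := by
          rw [div_pow, div_eq_iff (pow_ne_zero 2 ha)]
          rw [hBc] at hrel'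
          linear_combination (A : ℂ) * hrel' + a ^ 2 * hACc
        have hw2 : ((s * a + A * b) / a - Complex.I) * ((s * a + A * b) / a + Complex.I) = 0 := by
          linear_combination hw - Complex.I_sq
        rcases mul_eq_zero.1 hw2 with h6 | h6
        · have e1 : Complex.I * a = s * a + A * b := by
            have : Complex.I = (s * a + A * b) / a := by linear_combination -h6
            rw [this, div_mul_cancel₀ _ ha]
          refine ⟨s, -C, A, by linear_combination hAC, e1, ?_⟩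
          have e2 : a * (Complex.I * b) = a * (((-C : ℤ) : ℂ) * a - s * b) := by
            rw [hBc] at hrel'
            push_cast
            linear_combination b * e1 + hrel'
          exact mul_left_cancel₀ ha e2
        · have e1 : Complex.I * a = -(s * a) - A * b := by
            have : Complex.I = -((s * a + A * b) / a) := by linear_combination h6
            rw [this, neg_mul, div_mul_cancel₀ _ ha]
            ring
          refine ⟨-s, C, -A, by linear_combination hAC, ?_, ?_⟩
          · push_cast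
            linear_combination e1
          · have e2 : a * (Complex.I * b) = a * (((C : ℤ) : ℂ) * a - ((-s : ℤ) : ℂ) * b) := by
              rw [hBc] at hrel'
              push_cast
              linear_combination b * e1 - hrel'
            exact mul_left_cancel₀ ha e2
      · -- `D = 3`
        right; right
        have hk1 : k = 1 := by omega
        subst hk1
        refine ⟨rotB_of he2 hB hk h h3, ?_⟩
        have hAC : s ^ 2 - s + 1 = A * C := by linear_combination hk
        have hACc : (s : ℂ) ^ 2 - s + 1 = A * C := by exact_mod_cast hAC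
        have hBc : (B : ℂ) = 2 * s - 1 := by rw [hB]; push_cast; ring
        rw [hBc] at hrel'
        refine ⟨((s - 1) * a + A * b) / a, s - 1, -C, A, ?_, ?_, ?_, ?_⟩
        · have e1 : ((s - 1) * a + A * b) / a * a = (s - 1) * a + A * b := div_mul_cancel₀ _ ha
          have e2 : (((((s : ℂ) - 1) * a + A * b) / a) ^ 2 + (((s : ℂ) - 1) * a + A * b) / a + 1) *
              a ^ 2 = 0 * a ^ 2 := by
            generalize (((s : ℂ) - 1) * a + A * b) / a = w at e1 ⊢
            have e3 : w ^ 2 * a ^ 2 = (((s : ℂ) - 1) * a + A * b) ^ 2 := by rw [← e1]; ring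
            have e4 : w * a ^ 2 = (((s : ℂ) - 1) * a + A * b) * a := by rw [← e1]; ring
            linear_combination e3 + e4 + (A : ℂ) * hrel' + a ^ 2 * hACc
          exact mul_right_cancel₀ (pow_ne_zero 2 ha) e2
        · linear_combination hAC
        · rw [div_mul_cancel₀ _ ha]
          push_cast
          ring
        · have e1 : ((s - 1) * a + A * b) / a * a = (s - 1) * a + A * b := div_mul_cancel₀ _ ha
          have e2 : a * (((s - 1) * a + A * b) / a * b) =
              a * (((-C : ℤ) : ℂ) * a - (1 + ((s - 1 : ℤ) : ℂ)) * b) := by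
            generalize (((s : ℂ) - 1) * a + A * b) / a = w at e1 ⊢
            push_cast
            linear_combination b * e1 + hrel'
          exact mul_left_cancel₀ ha e2

end Pool.Agent.K6.H56.TL.ARI
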