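import Pool.Agent.K6.H56.TL.Stm

/-!
MP_047cd2_co: piece BDD of `call56b` (the number of distinct triangles is at most the number of pairs of
vectors which fit).  Written by helper92.
-/

set_option autoImplicit false

open scoped BigOperators ComplexConjugate
open Finset Filter

namespace Pool.Agent.K6.H56.TL.BDD

open Pool.Agent.K6.H56.TL

theorem cong_translate (p q r : ℂ) (s : Set ℂ) :
    Cong ({p, q, r} : Set ℂ) s ↔ Cong ({0, q - p, r - p} : Set ℂ) s := by
  have h1 : (IsometryEquiv.addRight p) '' ({0, q - p, r - p} : Set ℂ) = {p, q, r} := by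
    simp [Set.image_insert_eq, Set.image_singleton]
  have h2 : (IsometryEquiv.addRight p).symm '' ({p, q, r} : Set ℂ) = {0, q - p, r - p} := by
    rw [← h1, ← Set.image_comp]
    simp
  constructor
  · rintro ⟨f, hf⟩
    refine ⟨(IsometryEquiv.addRight p).trans f, ?_⟩
    rw [← hf, ← h1, ← Set.image_comp]
    rfl
  · rintro ⟨f, hf⟩
    refine ⟨(IsometryEquiv.addRight p).symm.trans f, ?_⟩
    rw [← hf, ← h2, ← Set.image_comp]
    rfl

theorem mem_sec (a b : ℂ) (n : ℕ) (z : ℂ) (hz : z ∈ sec a b n) :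
    ∃ p : V, InB (sq n) p ∧ z = phi a b p := by
  obtain ⟨u, v, hu, hv, rfl⟩ := hz
  refine ⟨((u : ℤ), (v : ℤ)), ⟨by positivity, ?_, by positivity, ?_⟩, ?_⟩
  · have := Nat.lt_ceil.2 hu
    change (u : ℤ) < ((⌈Real.sqrt n⌉₊ : ℕ) : ℤ)
    exact_mod_cast this
  · have := Nat.lt_ceil.2 hv
    change (v : ℤ) < ((⌈Real.sqrt n⌉₊ : ℕ) : ℤ)
    exact_mod_cast this
  · simp [phi]

theorem mem_F (N : ℕ) (p q r : V) (hp : InB N p) (hq : InB N q) (hr : InB N r) :
    (q - p, r - p) ∈ F N := by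
  classical
  unfold F
  rw [Finset.mem_filter]
  obtain ⟨a1, a2, a3, a4⟩ := hp
  obtain ⟨b1, b2, b3, b4⟩ := hq
  obtain ⟨c1, c2, c3, c4⟩ := hr
  refine ⟨?_, p, ⟨a1, a2, a3, a4⟩, ?_, ?_⟩
  · unfold box
    rw [Finset.mem_product, Finset.mem_Icc, Finset.mem_Icc]
    simp only [Prod.le_def, Prod.fst_sub, Prod.snd_sub]
    refine ⟨⟨⟨?_, ?_⟩, ?_, ?_⟩, ⟨?_, ?_⟩, ?_, ?_⟩ <;> omega
  · have e : p + (q - p, r - p).1 = q := by simp
    rw [e]
    exact ⟨b1, b2, b3, b4⟩
  · have e : p + (q - p, r - p).2 = r := by simp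
    rw [e]
    exact ⟨c1, c2, c3, c4⟩

theorem t_BDD (_hI : S_ISO) (_hC : S_COL) : S_BDD := by
  classical
  intro a b _ n
  let G : V × V → Set (Set ℂ) := fun t =>
    {s | s ∈ tris (sec a b n) ∧ Cong ({0, phi a b t.1, phi a b t.2} : Set ℂ) s}
  have hsub : {c : Set (Set ℂ) | ∃ t ∈ tris (sec a b n), c = {s | s ∈ tris (sec a b n) ∧ Cong t s}}
      ⊆ (((F (sq n)).image G : Finset (Set (Set ℂ))) : Set (Set (Set ℂ))) := by
    rintro c ⟨t, ⟨htP, p, q, r, rfl, -⟩, rfl⟩
    obtain ⟨p', hp', rfl⟩ := mem_sec a b n p (htP (by simp))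
    obtain ⟨q', hq', rfl⟩ := mem_sec a b n q (htP (by simp))
    obtain ⟨r', hr', rfl⟩ := mem_sec a b n r (htP (by simp))
    rw [Finset.mem_coe, Finset.mem_image]
    refine ⟨(q' - p', r' - p'), mem_F _ p' q' r' hp' hq' hr', ?_⟩
    have e1 : phi a b (q' - p') = phi a b q' - phi a b p' := by
      simp [phi]
      ring
    have e2 : phi a b (r' - p') = phi a b r' - phi a b p' := by
      simp [phi]
      ring
    simp only [G, e1, e2]
    ext s
    change (s ∈ tris (sec a b n) ∧ Cong _ s) ↔ (s ∈ tris (sec a b n) ∧ Cong _ s)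
    rw [cong_translate (phi a b p') (phi a b q') (phi a b r')]
  calc T (sec a b n)
      ≤ ((((F (sq n)).image G : Finset (Set (Set ℂ))) : Set (Set (Set ℂ)))).ncard :=
        Set.ncard_le_ncard hsub (Finset.finite_toSet _)
    _ = ((F (sq n)).image G).card := Set.ncard_coe_finset _
    _ ≤ (F (sq n)).card := Finset.card_image_le

end Pool.Agent.K6.H56.TL.BDD
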