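import Pool.Agent.K6.H56.TL.Stm

/-!
# Piece C3 (helper84): pairs which fit in the box but whose coordinate sums do not fit
-/

set_option autoImplicit false

open Finset Filter

namespace Pool.Agent.K6.H56.TL.C3

theorem mul_card_le {α β : Type*} [DecidableEq β] (n : ℕ) (S : Finset α) (T : Finset β)
    (f : Fin n → α → β) (h1 : ∀ i, ∀ x ∈ S, f i x ∈ T)
    (h2 : ∀ i j, ∀ x ∈ S, ∀ y ∈ S, f i x = f j y → i = j ∧ x = y) :
    n * S.card ≤ T.card := by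
  have h3 : ((univ : Finset (Fin n)) ×ˢ S).card ≤ T.card := by
    refine Finset.card_le_card_of_injOn (fun p => f p.1 p.2) ?_ ?_
    · intro p hp
      rw [mem_coe, mem_product] at hp
      exact h1 _ _ hp.2
    · intro p hp q hq h
      rw [mem_coe, mem_product] at hp hq
      obtain ⟨e1, e2⟩ := h2 _ _ _ hp.2 _ hq.2 h
      exact Prod.ext e1 e2
  simpa [card_product] using h3

/-- the open interval -/
noncomputable def I (N : ℕ) : Finset ℤ := Finset.Ioo (0 : ℤ) N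

/-- increasing quadruples -/
noncomputable def Ch (N : ℕ) : Finset ((ℤ × ℤ) × (ℤ × ℤ)) :=
  ((I N ×ˢ I N) ×ˢ (I N ×ˢ I N)).filter
    (fun q => q.1.1 < q.1.2 ∧ q.1.2 < q.2.1 ∧ q.2.1 < q.2.2)

/-- interleaved pairs -/
noncomputable def Qd (N : ℕ) : Finset ((ℤ × ℤ) × (ℤ × ℤ)) :=
  ((I N ×ˢ I N) ×ˢ (I N ×ˢ I N)).filter
    (fun q => q.1.1 < q.1.2 ∧ q.2.1 < q.2.2 ∧ (q.2.1 < q.1.1 ∨ q.2.2 < q.1.2))

theorem card_Ch (N : ℕ) : (N - 1).choose 4 ≤ (Ch N).card := by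
  have h1 : (I N).card = N - 1 := by
    rw [I, Int.card_Ioo]
    omega
  rw [← h1, ← Finset.card_powersetCard]
  refine Finset.card_le_card_of_injOn (fun s => if h : s.card = 4 then
    ((s.orderEmbOfFin h 0, s.orderEmbOfFin h 1), (s.orderEmbOfFin h 2, s.orderEmbOfFin h 3))
    else ((0, 0), (0, 0))) ?_ ?_
  · intro s hs
    rw [mem_coe, mem_powersetCard] at hs
    obtain ⟨hs1, hs2⟩ := hs
    simp only [hs2, dif_pos]
    rw [mem_coe, Ch, mem_filter]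
    have hm : ∀ i, s.orderEmbOfFin hs2 i ∈ I N := fun i =>
      hs1 (Finset.orderEmbOfFin_mem s hs2 i)
    refine ⟨?_, ?_, ?_, ?_⟩
    · simp only [mem_product]
      exact ⟨⟨hm _, hm _⟩, ⟨hm _, hm _⟩⟩
    · exact (s.orderEmbOfFin hs2).strictMono (by decide)
    · exact (s.orderEmbOfFin hs2).strictMono (by decide)
    · exact (s.orderEmbOfFin hs2).strictMono (by decide)
  · intro s hs s' hs' h
    rw [mem_coe, mem_powersetCard] at hs hs'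
    obtain ⟨hs1, hs2⟩ := hs
    obtain ⟨hs1', hs2'⟩ := hs'
    simp only [hs2, hs2', dif_pos, Prod.mk.injEq] at h
    obtain ⟨⟨e0, e1⟩, e2, e3⟩ := h
    have h4 : Set.range (s.orderEmbOfFin hs2) = Set.range (s'.orderEmbOfFin hs2') := by
      congr 1
      funext i
      fin_cases i
      · exact e0
      · exact e1
      · exact e2
      · exact e3
    rw [Finset.range_orderEmbOfFin, Finset.range_orderEmbOfFin] at h4
    exact_mod_cast h4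

theorem mem_I {N : ℕ} {x : ℤ} : x ∈ I N ↔ 0 < x ∧ x < N := by
  rw [I, Finset.mem_Ioo]

theorem mem_Ch {N : ℕ} {a b c d : ℤ} : ((a, b), (c, d)) ∈ Ch N ↔
    0 < a ∧ a < b ∧ b < c ∧ c < d ∧ d < N := by
  rw [Ch, mem_filter]
  simp only [mem_product, mem_I]
  constructor
  · rintro ⟨h1, h2⟩
    omega
  · intro h
    refine ⟨?_, ?_⟩ <;> omega

theorem mem_Qd {N : ℕ} {a b c d : ℤ} : ((a, b), (c, d)) ∈ Qd N ↔
    (0 < a ∧ a < b ∧ b < N) ∧ (0 < c ∧ c < d ∧ d < N) ∧ (c < a ∨ d < b) := by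
  rw [Qd, mem_filter]
  simp only [mem_product, mem_I]
  constructor
  · rintro ⟨h1, h2⟩
    omega
  · intro h
    refine ⟨?_, ?_⟩ <;> omega

def f1 (i : Fin 4) (q : (ℤ × ℤ) × (ℤ × ℤ)) : (ℤ × ℤ) × (ℤ × ℤ) :=
  match i with
  | 0 => ((q.1.1, q.2.2), (q.1.2, q.2.1))
  | 1 => ((q.1.2, q.2.1), (q.1.1, q.2.2))
  | 2 => ((q.1.2, q.2.2), (q.1.1, q.2.1))
  | 3 => ((q.2.1, q.2.2), (q.1.1, q.1.2))

theorem card_Qd (N : ℕ) : 4 * (Ch N).card ≤ (Qd N).card := by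
  refine mul_card_le 4 _ _ f1 ?_ ?_
  · rintro i ⟨⟨a, b⟩, c, d⟩ hx
    rw [mem_Ch] at hx
    fin_cases i
    all_goals
      simp only [f1]
      refine mem_Qd.mpr ?_
      omega
  · rintro i j ⟨⟨a, b⟩, c, d⟩ hx ⟨⟨a', b'⟩, c', d'⟩ hy h
    rw [mem_Ch] at hx hy
    fin_cases i <;> fin_cases j <;> simp only [f1, Prod.mk.injEq] at h ⊢
    all_goals first
      | (exfalso; omega)
      | (refine ⟨trivial, ?_⟩; omega)

open Classical in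
noncomputable def Tg (N : ℕ) : Finset (V × V) :=
  (F N).filter (fun t => ¬ Rg N (t.1.1 + t.1.2) (t.2.1 + t.2.2))

theorem mem_Tg {N : ℕ} {x1 y1 x2 y2 : ℤ} : ((x1, y1), (x2, y2)) ∈ Tg N ↔
    (∃ p q : ℤ, (0 ≤ p ∧ p < N ∧ 0 ≤ q ∧ q < N) ∧
      (0 ≤ p + x1 ∧ p + x1 < N ∧ 0 ≤ q + y1 ∧ q + y1 < N) ∧
      (0 ≤ p + x2 ∧ p + x2 < N ∧ 0 ≤ q + y2 ∧ q + y2 < N)) ∧
    ¬ Rg N (x1 + y1) (x2 + y2) := by
  classical
  rw [Tg, mem_filter, F, mem_filter]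
  constructor
  · rintro ⟨⟨-, ⟨p, q⟩, h1, h2, h3⟩, h4⟩
    exact ⟨⟨p, q, h1, h2, h3⟩, h4⟩
  · rintro ⟨⟨p, q, h1, h2, h3⟩, h4⟩
    refine ⟨⟨?_, ⟨(p, q), h1, h2, h3⟩⟩, h4⟩
    rw [box, mem_product, mem_Icc, mem_Icc]
    simp only [Prod.mk_le_mk]
    omega

open Classical in
noncomputable def X0 (N : ℕ) : Finset (V × V) :=
  (Tg N).filter (fun t => 0 < t.1.1 ∧ t.1.1 < t.2.1)

theorem mem_X0 {N : ℕ} {x1 y1 x2 y2 : ℤ} : ((x1, y1), (x2, y2)) ∈ X0 N ↔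
    ((x1, y1), (x2, y2)) ∈ Tg N ∧ 0 < x1 ∧ x1 < x2 := by
  rw [X0, mem_filter]

def f2 (N : ℕ) (i : Fin 3) (q : (ℤ × ℤ) × (ℤ × ℤ)) : V × V :=
  match i with
  | 0 => ((q.1.1, N - q.2.2), (q.1.2, N - q.2.1))
  | 1 => ((q.1.1, N - q.2.1), (q.1.2, N - q.2.2))
  | 2 => ((q.1.2 - q.1.1, -(q.2.2 - q.2.1)), (q.1.2, N - q.2.2))

theorem card_X0 (N : ℕ) : 3 * (Qd N).card ≤ (X0 N).card := by
  refine mul_card_le 3 _ _ (f2 N) ?_ ?_
  · rintro i ⟨⟨a, b⟩, c, d⟩ hx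
    rw [mem_Qd] at hx
    fin_cases i
    · simp only [f2]
      refine mem_X0.mpr ⟨mem_Tg.mpr ⟨⟨0, 0, ?_, ?_, ?_⟩, ?_⟩, ?_⟩
      · omega
      · omega
      · omega
      · rintro ⟨p, h1, h2, h3⟩
        omega
      · omega
    · simp only [f2]
      refine mem_X0.mpr ⟨mem_Tg.mpr ⟨⟨0, 0, ?_, ?_, ?_⟩, ?_⟩, ?_⟩
      · omega
      · omega
      · omega
      · rintro ⟨p, h1, h2, h3⟩
        omega
      · omega
    · simp only [f2]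
      refine mem_X0.mpr ⟨mem_Tg.mpr ⟨⟨0, d - c, ?_, ?_, ?_⟩, ?_⟩, ?_⟩
      · omega
      · omega
      · omega
      · rintro ⟨p, h1, h2, h3⟩
        omega
      · omega
  · rintro i j ⟨⟨a, b⟩, c, d⟩ hx ⟨⟨a', b'⟩, c', d'⟩ hy h
    rw [mem_Qd] at hx hy
    fin_cases i <;> fin_cases j <;> simp only [f2, Prod.mk.injEq] at h ⊢
    all_goals first
      | (exfalso; omega)
      | (refine ⟨trivial, ?_⟩; omega)

def f3 (i : Fin 6) (t : V × V) : V × V :=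
  match i with
  | 0 => ((t.1.1, t.1.2), (t.2.1, t.2.2))
  | 1 => ((t.2.1, t.2.2), (t.1.1, t.1.2))
  | 2 => ((-t.1.1, -t.1.2), (t.2.1 - t.1.1, t.2.2 - t.1.2))
  | 3 => ((t.2.1 - t.1.1, t.2.2 - t.1.2), (-t.1.1, -t.1.2))
  | 4 => ((-t.2.1, -t.2.2), (t.1.1 - t.2.1, t.1.2 - t.2.2))
  | 5 => ((t.1.1 - t.2.1, t.1.2 - t.2.2), (-t.2.1, -t.2.2))

theorem card_Tg (N : ℕ) : 6 * (X0 N).card ≤ (Tg N).card := by
  refine mul_card_le 6 _ _ f3 ?_ ?_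
  · rintro i ⟨⟨x1, y1⟩, x2, y2⟩ hx
    rw [mem_X0, mem_Tg] at hx
    obtain ⟨⟨⟨p, q, h1, h2, h3⟩, h4⟩, h5⟩ := hx
    fin_cases i
    · simp only [f3]
      refine mem_Tg.mpr ⟨⟨p, q, h1, h2, h3⟩, h4⟩
    · simp only [f3]
      refine mem_Tg.mpr ⟨⟨p, q, h1, h3, h2⟩, ?_⟩
      rintro ⟨r, g1, g2, g3⟩
      exact h4 ⟨r, g1, g3, g2⟩
    · simp only [f3]
      refine mem_Tg.mpr ⟨⟨p + x1, q + y1, ?_, ?_, ?_⟩, ?_⟩
      · omega
      · omega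
      · omega
      · rintro ⟨r, g1, g2, g3⟩
        refine h4 ⟨r - x1 - y1, ?_, ?_, ?_⟩ <;> omega
    · simp only [f3]
      refine mem_Tg.mpr ⟨⟨p + x1, q + y1, ?_, ?_, ?_⟩, ?_⟩
      · omega
      · omega
      · omega
      · rintro ⟨r, g1, g2, g3⟩
        refine h4 ⟨r - x1 - y1, ?_, ?_, ?_⟩ <;> omega
    · simp only [f3]
      refine mem_Tg.mpr ⟨⟨p + x2, q + y2, ?_, ?_, ?_⟩, ?_⟩
      · omega
      · omega
      · omega
      · rintro ⟨r, g1, g2, g3⟩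
        refine h4 ⟨r - x2 - y2, ?_, ?_, ?_⟩ <;> omega
    · simp only [f3]
      refine mem_Tg.mpr ⟨⟨p + x2, q + y2, ?_, ?_, ?_⟩, ?_⟩
      · omega
      · omega
      · omega
      · rintro ⟨r, g1, g2, g3⟩
        refine h4 ⟨r - x2 - y2, ?_, ?_, ?_⟩ <;> omega
  · rintro i j ⟨⟨x1, y1⟩, x2, y2⟩ hx ⟨⟨x1', y1'⟩, x2', y2'⟩ hy h
    rw [mem_X0] at hx hy
    obtain ⟨-, hx⟩ := hx
    obtain ⟨-, hy⟩ := hy
    fin_cases i <;> fin_cases j <;> simp only [f3, Prod.mk.injEq] at h ⊢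
    all_goals first
      | (exfalso; omega)
      | (refine ⟨trivial, ?_⟩; omega)

theorem card_all (N : ℕ) : 72 * (N - 1).choose 4 ≤ (Tg N).card := by
  have h1 := card_Ch N
  have h2 := card_Qd N
  have h3 := card_X0 N
  have h4 := card_Tg N
  omega

theorem t_C3 : S_C3 := by
  refine ⟨30, fun N hN => ?_⟩
  have h1 : ((72 * (N - 1).choose 4 : ℕ) : ℝ) ≤ ((Tg N).card : ℝ) := by
    exact_mod_cast card_all N
  show 3 * (N : ℝ) ^ 4 - 30 * (N : ℝ) ^ 3 ≤ ((Tg N).card : ℝ)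
  rcases Nat.lt_or_ge N 5 with h5 | h5
  · have h2 : (0 : ℝ) ≤ ((Tg N).card : ℝ) := Nat.cast_nonneg _
    have h3 : (N : ℝ) < 5 := by exact_mod_cast h5
    have h4 : (0 : ℝ) ≤ (N : ℝ) ^ 3 := by positivity
    nlinarith
  · refine le_trans ?_ h1
    obtain ⟨m, rfl⟩ := Nat.exists_eq_add_of_le' h5
    have h2 : (m + 5 - 1) = m + 4 := by omega
    rw [h2]
    have h3 := Nat.descFactorial_eq_factorial_mul_choose (m + 4) 4
    have h4 : (m + 4).descFactorial 4 = (m + 1) * ((m + 2) * ((m + 3) * (m + 4))) := by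
      simp [Nat.descFactorial]
    rw [h4] at h3
    have h6 : (4 : ℕ).factorial = 24 := by decide
    rw [h6] at h3
    have h7 : 72 * (m + 4).choose 4 = 3 * ((m + 1) * ((m + 2) * ((m + 3) * (m + 4)))) := by
      omega
    rw [h7]
    push_cast
    have h8 : (0 : ℝ) ≤ m := Nat.cast_nonneg _
    nlinarith [sq_nonneg ((m : ℝ) + 5)]

end Pool.Agent.K6.H56.TL.C3
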