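import Pool.Agent.K6.H56.TL.Stm

/-! # The number of pairs of vectors which fit in a box -/

set_option autoImplicit false

open scoped BigOperators
open Finset

namespace Pool.Agent.K6.H56.TL.CF

theorem sum_abs (m : ℕ) : ∑ s ∈ Finset.Icc (-(m : ℤ)) m, |s| = (m : ℤ) * (m + 1) := by
  induction m with
  | zero => simp
  | succ m ih =>
    have h1 : Finset.Icc (-((m + 1 : ℕ) : ℤ)) ((m + 1 : ℕ) : ℤ) =
        insert ((m : ℤ) + 1) (insert (-((m : ℤ) + 1)) (Finset.Icc (-(m : ℤ)) m)) := by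
      ext x
      simp only [Finset.mem_Icc, Finset.mem_insert]
      push_cast
      omega
    rw [h1, Finset.sum_insert, Finset.sum_insert, ih, abs_neg,
      abs_of_nonneg (by positivity : (0 : ℤ) ≤ (m : ℤ) + 1)]
    · push_cast
      ring
    · simp only [Finset.mem_Icc]
      omega
    · simp only [Finset.mem_Icc, Finset.mem_insert]
      omega

/-- the pairs of coordinates -/
noncomputable def Hs (m : ℕ) : Finset (Σ _ : ℤ, ℤ) :=
  (Finset.Icc (-(m : ℤ)) m).sigma fun s => Finset.Icc (max 0 s - m) (min 0 s + m)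

theorem card_Hs (m : ℕ) : ((Hs m).card : ℤ) = 3 * (m : ℤ) ^ 2 + 3 * m + 1 := by
  unfold Hs
  rw [Finset.card_sigma]
  push_cast
  have h1 : ∀ s ∈ Finset.Icc (-(m : ℤ)) m,
      ((Finset.Icc (max 0 s - m) (min 0 s + m) : Finset ℤ).card : ℤ) = 2 * m + 1 - |s| := by
    intro s hs
    rw [Finset.mem_Icc] at hs
    rw [Int.card_Icc]
    rcases le_or_gt 0 s with h | h
    · rw [abs_of_nonneg h, max_eq_right h, min_eq_left h, Int.toNat_of_nonneg (by omega)]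
      ring
    · rw [abs_of_neg h, max_eq_left h.le, min_eq_right h.le, Int.toNat_of_nonneg (by omega)]
      ring
  rw [Finset.sum_congr rfl h1, Finset.sum_sub_distrib, sum_abs, Finset.sum_const, Int.card_Icc,
    nsmul_eq_mul]
  have h2 : ((((m : ℤ) + 1 - -(m : ℤ)).toNat : ℕ) : ℤ) = 2 * m + 1 := by
    rw [Int.toNat_of_nonneg (by omega)]
    ring
  rw [h2]
  ring

theorem mem_Hs (m : ℕ) (x : Σ _ : ℤ, ℤ) : x ∈ Hs m ↔
    (-(m : ℤ) ≤ x.1 ∧ x.1 ≤ m) ∧ max 0 x.1 - m ≤ x.2 ∧ x.2 ≤ min 0 x.1 + m := by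
  unfold Hs
  rw [Finset.mem_sigma, Finset.mem_Icc, Finset.mem_Icc]

theorem mem_F (m : ℕ) (t : V × V) : t ∈ F (m + 1) ↔
    ((-(m : ℤ) ≤ t.1.1 ∧ t.1.1 ≤ m) ∧ max 0 t.1.1 - m ≤ t.2.1 ∧ t.2.1 ≤ min 0 t.1.1 + m) ∧
    ((-(m : ℤ) ≤ t.1.2 ∧ t.1.2 ≤ m) ∧ max 0 t.1.2 - m ≤ t.2.2 ∧ t.2.2 ≤ min 0 t.1.2 + m) := by
  classical
  obtain ⟨⟨a, b⟩, c, d⟩ := t
  unfold F box
  rw [Finset.mem_filter, Finset.mem_product, Finset.mem_Icc, Finset.mem_Icc]
  simp only [Prod.mk_le_mk]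
  constructor
  · rintro ⟨-, ⟨p, q⟩, h1, h2, h3⟩
    simp only [InB, Prod.fst_add, Prod.snd_add] at h1 h2 h3
    push_cast at h1 h2 h3
    omega
  · rintro ⟨h1, h2⟩
    refine ⟨by push_cast; omega, ⟨(max 0 (max (-a) (-c)), max 0 (max (-b) (-d))), ?_⟩⟩
    simp only [InB, Prod.fst_add, Prod.snd_add]
    push_cast
    omega

theorem t_CF : S_CF := by
  intro N hN
  obtain ⟨m, rfl⟩ : ∃ m, N = m + 1 := ⟨N - 1, by omega⟩
  have h : (F (m + 1)).card = (Hs m ×ˢ Hs m).card := by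
    refine Finset.card_nbij' (fun t => (⟨t.1.1, t.2.1⟩, ⟨t.1.2, t.2.2⟩))
      (fun x => ((x.1.1, x.2.1), (x.1.2, x.2.2))) ?_ ?_ ?_ ?_
    · intro t ht
      rw [Finset.mem_coe, mem_F] at ht
      rw [Finset.mem_coe, Finset.mem_product, mem_Hs, mem_Hs]
      exact ht
    · intro x hx
      rw [Finset.mem_coe, Finset.mem_product, mem_Hs, mem_Hs] at hx
      rw [Finset.mem_coe, mem_F]
      exact hx
    · intro t _
      rfl
    · intro x _
      rfl
  rw [h, Finset.card_product]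
  push_cast
  rw [card_Hs]
  ring

end Pool.Agent.K6.H56.TL.CF
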