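import Pool.Agent.K6.H56.TL.CNTB

/-!
Piece CNT (helper87).
-/

set_option autoImplicit false

namespace Pool.Agent.K6.H56.TL.CNT

open Finset

theorem t_CNT (h : S_TYPE) : S_CNT := by
  intro e k he hk hF z hz Φ hΦ
  refine CNTB.fib h he (by linarith) hF hz 2 Φ hΦ (fun v => {v, -v}) (fun v => card_le_two)
    fun v hv v' hv' c hc => ?_
  have hZ : (0 : ℤ) < (z : ℤ) ^ 2 := by positivity
  have h1 := CNTB.comp (k := k) he v v'
  rw [(hΦ v hv).2, (hΦ v' hv').2, hc] at h1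
  have hc0 : c = 0 := by
    by_contra hne
    have h2 : 1 ≤ c ^ 2 := by
      have := sq_pos_of_ne_zero hne
      omega
    have h3 : (z : ℤ) ^ 2 * (z : ℤ) ^ 2 ≤ ((z : ℤ) ^ 2 * c) ^ 2 := by
      rw [mul_pow]
      nlinarith
    have h4 : 7 * ((z : ℤ) ^ 2 * c) ^ 2 ≤ (4 * k - e) * ((z : ℤ) ^ 2 * c) ^ 2 :=
      mul_le_mul_of_nonneg_right hk (sq_nonneg _)
    have h5 : 0 < (z : ℤ) ^ 2 * (z : ℤ) ^ 2 := mul_pos hZ hZ
    nlinarith [sq_nonneg (2 * v.1 * v'.1 + e * (v.1 * v'.2 + v'.1 * v.2) + 2 * k * v.2 * v'.2)]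
  rw [hc0, mul_zero] at hc
  rcases CNTB.eq_pm' (hΦ v hv).1 (hΦ v' hv').1 hc with h6 | h6
  · rw [h6]; simp
  · rw [h6]; simp

end Pool.Agent.K6.H56.TL.CNT
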