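import Pool.Agent.K6.H56.TL.CNT4

/-!
Piece CNT3 (helper87).
-/

set_option autoImplicit false

namespace Pool.Agent.K6.H56.TL.CNT3

open Finset

theorem t_CNT3 (h : S_TYPE) : S_CNT3 := by
  intro z hz Φ hΦ
  refine CNTB.fib h (Or.inr rfl) (by norm_num) (CNTB.fund_one (Or.inr rfl)) hz 6 Φ hΦ
    (fun v => {v, -v, (-v.2, v.1 + v.2), (v.2, -(v.1 + v.2)), (-(v.1 + v.2), v.1),
      (v.1 + v.2, -v.1)}) (fun v => card_le_six)
    fun v hv v' hv' c hc => ?_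
  have hZ : (0 : ℤ) < (z : ℤ) ^ 2 := by positivity
  have h1 := CNTB.comp (k := 1) (Or.inr rfl : (1 : ℤ) = 0 ∨ (1 : ℤ) = 1) v v'
  have hq := (hΦ v hv).2
  have hq' := (hΦ v' hv').2
  rw [hq, hq', hc] at h1
  have h7 : v.1 ^ 2 + v.1 * v.2 + v.2 ^ 2 = (z : ℤ) ^ 2 := by
    rw [← hq]
    simp only [qf]
    ring
  have hcc := CNT4.c_cases hZ (by norm_num) h1
  rcases hcc with h2 | h2 | h2
  · rw [h2, mul_zero] at hc
    rcases CNTB.eq_pm' (hΦ v hv).1 (hΦ v' hv').1 hc with h6 | h6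
    · rw [h6]; simp
    · rw [h6]; simp
  all_goals
    have hm : (2 * v.1 * v'.1 + (v.1 * v'.2 + v'.1 * v.2) + 2 * v.2 * v'.2 - (z : ℤ) ^ 2) *
        (2 * v.1 * v'.1 + (v.1 * v'.2 + v'.1 * v.2) + 2 * v.2 * v'.2 + (z : ℤ) ^ 2) = 0 := by
      subst h2
      linear_combination -h1
    have hne : (2 : ℤ) * (z : ℤ) ^ 2 ≠ 0 := mul_ne_zero two_ne_zero hZ.ne'
    subst h2
  · rcases mul_eq_zero.1 hm with h4 | h4
    · have e1 : 2 * (z : ℤ) ^ 2 * v'.1 = 2 * (z : ℤ) ^ 2 * (-v.2) := by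
        linear_combination (-2 * v'.1) * h7 + v.1 * h4 - (v.1 + 2 * v.2) * hc
      have e2 : 2 * (z : ℤ) ^ 2 * v'.2 = 2 * (z : ℤ) ^ 2 * (v.1 + v.2) := by
        linear_combination (-2 * v'.2) * h7 + v.2 * h4 + (2 * v.1 + v.2) * hc
      have e3 : v' = (-v.2, v.1 + v.2) :=
        Prod.ext (mul_left_cancel₀ hne e1) (mul_left_cancel₀ hne e2)
      rw [e3]
      simp
    · have e1 : 2 * (z : ℤ) ^ 2 * v'.1 = 2 * (z : ℤ) ^ 2 * (-(v.1 + v.2)) := by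
        linear_combination (-2 * v'.1) * h7 + v.1 * h4 - (v.1 + 2 * v.2) * hc
      have e2 : 2 * (z : ℤ) ^ 2 * v'.2 = 2 * (z : ℤ) ^ 2 * v.1 := by
        linear_combination (-2 * v'.2) * h7 + v.2 * h4 + (2 * v.1 + v.2) * hc
      have e3 : v' = (-(v.1 + v.2), v.1) :=
        Prod.ext (mul_left_cancel₀ hne e1) (mul_left_cancel₀ hne e2)
      rw [e3]
      simp
  · rcases mul_eq_zero.1 hm with h4 | h4
    · have e1 : 2 * (z : ℤ) ^ 2 * v'.1 = 2 * (z : ℤ) ^ 2 * (v.1 + v.2) := by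
        linear_combination (-2 * v'.1) * h7 + v.1 * h4 - (v.1 + 2 * v.2) * hc
      have e2 : 2 * (z : ℤ) ^ 2 * v'.2 = 2 * (z : ℤ) ^ 2 * (-v.1) := by
        linear_combination (-2 * v'.2) * h7 + v.2 * h4 + (2 * v.1 + v.2) * hc
      have e3 : v' = (v.1 + v.2, -v.1) :=
        Prod.ext (mul_left_cancel₀ hne e1) (mul_left_cancel₀ hne e2)
      rw [e3]
      simp
    · have e1 : 2 * (z : ℤ) ^ 2 * v'.1 = 2 * (z : ℤ) ^ 2 * v.2 := by
        linear_combination (-2 * v'.1) * h7 + v.1 * h4 - (v.1 + 2 * v.2) * hc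
      have e2 : 2 * (z : ℤ) ^ 2 * v'.2 = 2 * (z : ℤ) ^ 2 * (-(v.1 + v.2)) := by
        linear_combination (-2 * v'.2) * h7 + v.2 * h4 + (2 * v.1 + v.2) * hc
      have e3 : v' = (v.2, -(v.1 + v.2)) :=
        Prod.ext (mul_left_cancel₀ hne e1) (mul_left_cancel₀ hne e2)
      rw [e3]
      simp

end Pool.Agent.K6.H56.TL.CNT3
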