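import Pool.Agent.K6.H56.TL.CNTB

/-!
Piece CNT4 (helper87).
-/

set_option autoImplicit false

namespace Pool.Agent.K6.H56.TL.CNT4

open Finset

theorem c_cases {Z m c D : ℤ} (hZ : 0 < Z) (hD : 3 ≤ D) (h : 4 * (Z * Z) = m ^ 2 + D * (Z * c) ^ 2) :
    c = 0 ∨ c = 1 ∨ c = -1 := by
  by_contra hcon
  have h2 : 4 ≤ c ^ 2 := by
    rcases lt_trichotomy c 0 with h1 | h1 | h1
    · have : c ≤ -2 := by omega
      nlinarith
    · omega
    · have : 2 ≤ c := by omega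
      nlinarith
  have h5 : 0 < Z * Z := mul_pos hZ hZ
  have h3 : 4 * (Z * Z) ≤ (Z * c) ^ 2 := by
    have e1 : (Z * c) ^ 2 = c ^ 2 * (Z * Z) := by ring
    rw [e1]
    exact mul_le_mul_of_nonneg_right h2 h5.le
  nlinarith [sq_nonneg m, sq_nonneg (Z * c)]

theorem dot_zero {Z x y x' y' c : ℤ}
    (h : 4 * (Z * Z) = (2 * x * x' + 0 * (x * y' + x' * y) + 2 * 1 * y * y') ^ 2 +
      (4 * 1 - 0) * (Z * c) ^ 2) (hc : c ^ 2 = 1) : x * x' + y * y' = 0 := by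
  have h3 : 4 * (x * x' + y * y') ^ 2 = 0 := by
    linear_combination -h - 4 * Z ^ 2 * hc
  have h5 : (x * x' + y * y') ^ 2 = 0 := by linarith
  exact (pow_eq_zero_iff two_ne_zero).1 h5

theorem t_CNT4 (h : S_TYPE) : S_CNT4 := by
  intro z hz Φ hΦ
  refine CNTB.fib h (Or.inl rfl) (by norm_num) (CNTB.fund_one (Or.inl rfl)) hz 4 Φ hΦ
    (fun v => {v, -v, (-v.2, v.1), (v.2, -v.1)}) (fun v => card_le_four)
    fun v hv v' hv' c hc => ?_
  have hZ : (0 : ℤ) < (z : ℤ) ^ 2 := by positivity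
  have h1 := CNTB.comp (k := 1) (Or.inl rfl : (0 : ℤ) = 0 ∨ (0 : ℤ) = 1) v v'
  have hq := (hΦ v hv).2
  have hq' := (hΦ v' hv').2
  rw [hq, hq', hc] at h1
  have h7 : v.1 * v.1 + v.2 * v.2 = (z : ℤ) ^ 2 := by
    rw [← hq]
    simp only [qf]
    ring
  rcases c_cases hZ (by norm_num) h1 with h2 | h2 | h2
  · rw [h2, mul_zero] at hc
    rcases CNTB.eq_pm' (hΦ v hv).1 (hΦ v' hv').1 hc with h6 | h6
    · rw [h6]; simp
    · rw [h6]; simp
  · subst h2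
    have h4 := dot_zero h1 (by norm_num)
    have e1 : (z : ℤ) ^ 2 * v'.1 = (z : ℤ) ^ 2 * (-v.2) := by
      linear_combination (-v'.1) * h7 + v.1 * h4 - v.2 * hc
    have e2 : (z : ℤ) ^ 2 * v'.2 = (z : ℤ) ^ 2 * v.1 := by
      linear_combination (-v'.2) * h7 + v.2 * h4 + v.1 * hc
    have e3 : v' = (-v.2, v.1) :=
      Prod.ext (mul_left_cancel₀ hZ.ne' e1) (mul_left_cancel₀ hZ.ne' e2)
    rw [e3]
    simp
  · subst h2
    have h4 := dot_zero h1 (by norm_num)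
    have e1 : (z : ℤ) ^ 2 * v'.1 = (z : ℤ) ^ 2 * v.2 := by
      linear_combination (-v'.1) * h7 + v.1 * h4 - v.2 * hc
    have e2 : (z : ℤ) ^ 2 * v'.2 = (z : ℤ) ^ 2 * (-v.1) := by
      linear_combination (-v'.2) * h7 + v.2 * h4 + v.1 * hc
    have e3 : v' = (v.2, -v.1) :=
      Prod.ext (mul_left_cancel₀ hZ.ne' e1) (mul_left_cancel₀ hZ.ne' e2)
    rw [e3]
    simp

end Pool.Agent.K6.H56.TL.CNT4
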