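import Pool.Agent.K6.H56.TL.Stm

/-!
Common lemmas for the pieces CNT, CNTF, CNT4, CNT3 (helper87).
-/

set_option autoImplicit false

namespace Pool.Agent.K6.H56.TL.CNTB

open Finset

theorem assoc {a b : ℤ} (h : a ∣ b) (h' : b ∣ a) : b = a ∨ b = -a :=
  Int.natAbs_eq_natAbs_iff.1
    (Nat.dvd_antisymm (Int.natAbs_dvd_natAbs.2 h') (Int.natAbs_dvd_natAbs.2 h))

theorem eq_pm {x y x' y' : ℤ} (h : IsCoprime x y) (h' : IsCoprime x' y')
    (hd : x * y' - y * x' = 0) : (x' = x ∧ y' = y) ∨ (x' = -x ∧ y' = -y) := by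
  have hx : x ∣ x' := h.dvd_of_dvd_mul_right ⟨y', by linarith [mul_comm y x']⟩
  have hx' : x' ∣ x := h'.dvd_of_dvd_mul_right ⟨y, by linarith [mul_comm y x']⟩
  have hy : y ∣ y' := h.symm.dvd_of_dvd_mul_left ⟨x', by linarith⟩
  have hy' : y' ∣ y := h'.symm.dvd_of_dvd_mul_left ⟨x, by linarith [mul_comm y x', mul_comm x y']⟩
  rcases assoc hx hx' with h1 | h1 <;> rcases assoc hy hy' with h2 | h2
  · exact Or.inl ⟨h1, h2⟩
  · subst h1 h2
    have h3 : x' * y = 0 := by linarith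
    rcases mul_eq_zero.1 h3 with h4 | h4
    · right
      rw [h4]
      exact ⟨rfl, rfl⟩
    · left
      rw [h4]
      exact ⟨rfl, rfl⟩
  · subst h1 h2
    have h3 : x * y' = 0 := by linarith
    rcases mul_eq_zero.1 h3 with h4 | h4
    · left
      rw [h4]
      exact ⟨rfl, rfl⟩
    · right
      rw [h4]
      exact ⟨rfl, rfl⟩
  · exact Or.inr ⟨h1, h2⟩

theorem comp {e k : ℤ} (he : e = 0 ∨ e = 1) (v v' : V) :
    4 * (qf e k v * qf e k v') =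
      (2 * v.1 * v'.1 + e * (v.1 * v'.2 + v'.1 * v.2) + 2 * k * v.2 * v'.2) ^ 2 +
        (4 * k - e) * (v.1 * v'.2 - v.2 * v'.1) ^ 2 := by
  rcases he with rfl | rfl <;> simp only [qf] <;> ring

theorem fib (h : S_TYPE) {e k : ℤ} (he : e = 0 ∨ e = 1) (hk : 3 ≤ 4 * k - e) (hF : Fund e k)
    {z : ℕ} (hz : 0 < z) (n : ℕ) (Φ : Finset V)
    (hΦ : ∀ v ∈ Φ, IsCoprime v.1 v.2 ∧ qf e k v = (z : ℤ) ^ 2)
    (L : V → Finset V) (hL : ∀ v, (L v).card ≤ n)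
    (hm : ∀ v ∈ Φ, ∀ v' ∈ Φ, ∀ c : ℤ, v.1 * v'.2 - v.2 * v'.1 = (z : ℤ) ^ 2 * c → v' ∈ L v) :
    Φ.card ≤ n * 2 ^ z.primeFactors.card := by
  classical
  obtain ⟨ty, h1, h2⟩ := h e k he hk hF z hz
  rw [← Finset.card_powerset]
  refine Finset.card_le_mul_card_image_of_maps_to (f := ty)
    (fun v _ => Finset.mem_powerset.2 (h1 v)) n fun T _ => ?_
  rcases Finset.eq_empty_or_nonempty (Φ.filter fun v => ty v = T) with h3 | ⟨v, hv⟩
  · rw [h3]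
    simp
  · refine (Finset.card_le_card (t := L v) fun v' hv' => ?_).trans (hL v)
    rw [Finset.mem_filter] at hv hv'
    obtain ⟨c, hc⟩ := h2 v v' (hΦ v hv.1).1 (hΦ v' hv'.1).1 (hΦ v hv.1).2 (hΦ v' hv'.1).2
      (hv.2.trans hv'.2.symm)
    exact hm v hv.1 v' hv'.1 c hc

theorem eq_pm' {v v' : V} (h : IsCoprime v.1 v.2) (h' : IsCoprime v'.1 v'.2)
    (hd : v.1 * v'.2 - v.2 * v'.1 = 0) : v' = v ∨ v' = -v := by
  rcases eq_pm h h' hd with ⟨h1, h2⟩ | ⟨h1, h2⟩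
  · exact Or.inl (Prod.ext h1 h2)
  · exact Or.inr (Prod.ext h1 h2)

theorem fund_one {e : ℤ} (he : e = 0 ∨ e = 1) : Fund e 1 := by
  rintro ⟨f, e', k', hf, he', h⟩
  have h4 : 4 ≤ f ^ 2 := by nlinarith
  have hpos : 0 < 4 * k' - e' := by
    by_contra hcon
    have : f ^ 2 * (4 * k' - e') ≤ 0 := mul_nonpos_of_nonneg_of_nonpos (by positivity) (by omega)
    omega
  have h5 : 4 * (4 * k' - e') ≤ f ^ 2 * (4 * k' - e') := by nlinarith
  omega

theorem card_pair (v w : V) : ({v, w} : Finset V).card ≤ 2 := Finset.card_le_two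

end Pool.Agent.K6.H56.TL.CNTB
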