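import Pool.Agent.K6.H56.TL.CNTB

/-!
Piece CNTF (helper87).
-/

set_option autoImplicit false

namespace Pool.Agent.K6.H56.TL.CNTF

open Finset

theorem t_CNTF (h : S_TYPE) : S_CNTF := by
  intro e f he hf z hz Φ hΦ
  have hD : 3 ≤ 4 * (1 : ℤ) - e := by rcases he with rfl | rfl <;> norm_num
  refine CNTB.fib h he hD (CNTB.fund_one he) hz 2 Φ (fun v hv => ⟨(hΦ v hv).1, (hΦ v hv).2.1⟩)
    (fun v => {v, -v}) (fun v => card_le_two) fun v hv v' hv' c hc => ?_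
  have hZ : (0 : ℤ) < (z : ℤ) ^ 2 := by positivity
  obtain ⟨hcop, hq, hfv⟩ := hΦ v hv
  obtain ⟨hcop', hq', hfv'⟩ := hΦ v' hv'
  -- `f` is prime to `z`
  have hfz : IsCoprime f ((z : ℤ) ^ 2) := by
    have h1 : IsCoprime (v.1 ^ 2) v.2 := hcop.pow_left
    have h2 : IsCoprime (v.1 ^ 2 + v.2 * (e * v.1 + v.2)) v.2 := h1.add_mul_left_left _
    have h3 : v.1 ^ 2 + v.2 * (e * v.1 + v.2) = (z : ℤ) ^ 2 := by
      rw [← hq]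
      simp only [qf]
      ring
    rw [h3] at h2
    exact (h2.of_isCoprime_of_dvd_right hfv).symm
  have hfd : f ∣ v.1 * v'.2 - v.2 * v'.1 :=
    dvd_sub (Dvd.dvd.mul_left hfv' _) (Dvd.dvd.mul_right hfv _)
  obtain ⟨c', hc'⟩ : f * (z : ℤ) ^ 2 ∣ v.1 * v'.2 - v.2 * v'.1 := hfz.mul_dvd hfd ⟨c, hc⟩
  have h1 := CNTB.comp (k := 1) he v v'
  rw [hq, hq', hc'] at h1
  have hc0 : c' = 0 := by
    by_contra hne
    have h2 : 1 ≤ c' ^ 2 := by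
      have := sq_pos_of_ne_zero hne
      omega
    have h2' : 4 ≤ f ^ 2 := by nlinarith
    have h2'' : 4 ≤ f ^ 2 * c' ^ 2 := by nlinarith
    have h5 : 0 < (z : ℤ) ^ 2 * (z : ℤ) ^ 2 := mul_pos hZ hZ
    have h3 : 4 * ((z : ℤ) ^ 2 * (z : ℤ) ^ 2) ≤ (f * (z : ℤ) ^ 2 * c') ^ 2 := by
      have e1 : (f * (z : ℤ) ^ 2 * c') ^ 2 = (f ^ 2 * c' ^ 2) * ((z : ℤ) ^ 2 * (z : ℤ) ^ 2) := by ring
      rw [e1]
      exact mul_le_mul_of_nonneg_right h2'' h5.le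
    have h4 : 3 * (f * (z : ℤ) ^ 2 * c') ^ 2 ≤ (4 * 1 - e) * (f * (z : ℤ) ^ 2 * c') ^ 2 :=
      mul_le_mul_of_nonneg_right hD (sq_nonneg _)
    nlinarith [sq_nonneg (2 * v.1 * v'.1 + e * (v.1 * v'.2 + v'.1 * v.2) + 2 * 1 * v.2 * v'.2)]
  rw [hc0, mul_zero] at hc'
  rcases CNTB.eq_pm' hcop hcop' hc' with h6 | h6
  · rw [h6]; simp
  · rw [h6]; simp

end Pool.Agent.K6.H56.TL.CNTF
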