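import Pool.Agent.K6.H56.TL.Stm

/-! Collinearity and linear independence in the plane by the cross product. -/

set_option autoImplicit false

open scoped BigOperators ComplexConjugate

namespace Pool.Agent.K6.H56.TL.COL

open Pool.Agent.K6.H56.TL

theorem im_mul (z w : ℂ) : (conj z * w).im = z.re * w.im - z.im * w.re := by
  rw [Complex.mul_im, Complex.conj_re, Complex.conj_im]
  ring

theorem li_iff (a b : ℂ) : LinearIndependent ℝ ![a, b] ↔ (conj a * b).im ≠ 0 := by
  rw [LinearIndependent.pair_iff, im_mul]
  constructor
  · intro h h0
    have h1 := h b.im (-a.im) (by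
      apply Complex.ext
      · simp only [Complex.add_re, Complex.real_smul, Complex.mul_re, Complex.ofReal_re,
          Complex.ofReal_im, Complex.zero_re]
        linarith
      · simp only [Complex.add_im, Complex.real_smul, Complex.mul_im, Complex.ofReal_re,
          Complex.ofReal_im, Complex.zero_im]
        ring)
    have h2 := h b.re (-a.re) (by
      apply Complex.ext
      · simp only [Complex.add_re, Complex.real_smul, Complex.mul_re, Complex.ofReal_re,
          Complex.ofReal_im, Complex.zero_re]
        ring
      · simp only [Complex.add_im, Complex.real_smul, Complex.mul_im, Complex.ofReal_re,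
          Complex.ofReal_im, Complex.zero_im]
        linarith)
    have hb : b = 0 := Complex.ext h2.1 h1.1
    have := h 0 1 (by rw [hb]; simp)
    exact one_ne_zero this.2
  · intro h s t hst
    have hre := congrArg Complex.re hst
    have him := congrArg Complex.im hst
    simp only [Complex.add_re, Complex.add_im, Complex.real_smul, Complex.mul_re, Complex.mul_im,
      Complex.ofReal_re, Complex.ofReal_im, Complex.zero_re, Complex.zero_im] at hre him
    constructor
    · have : s * (a.re * b.im - a.im * b.re) = 0 := by linear_combination b.im * hre - b.re * him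
      exact (mul_eq_zero.1 this).resolve_right h
    · have : t * (a.re * b.im - a.im * b.re) = 0 := by linear_combination -a.im * hre + a.re * him
      exact (mul_eq_zero.1 this).resolve_right h

theorem col_iff (p q r : ℂ) : Collinear ℝ ({p, q, r} : Set ℂ) ↔ (conj (q - p) * (r - p)).im = 0 := by
  rw [im_mul]
  constructor
  · intro h
    rw [collinear_iff_of_mem (p₀ := p) (by simp)] at h
    obtain ⟨v, hv⟩ := h
    obtain ⟨s, hs⟩ := hv q (by simp)
    obtain ⟨t, ht⟩ := hv r (by simp)
    have e1 : q - p = (s : ℂ) * v := by
      rw [hs]
      simp only [Complex.real_smul, vadd_eq_add]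
      ring
    have e2 : r - p = (t : ℂ) * v := by
      rw [ht]
      simp only [Complex.real_smul, vadd_eq_add]
      ring
    rw [e1, e2]
    simp only [Complex.mul_re, Complex.mul_im, Complex.ofReal_re, Complex.ofReal_im]
    ring
  · intro h
    rw [collinear_iff_of_mem (p₀ := p) (by simp)]
    by_cases hq : q - p = 0
    · refine ⟨r - p, ?_⟩
      intro x hx
      simp only [Set.mem_insert_iff, Set.mem_singleton_iff] at hx
      rcases hx with rfl | rfl | rfl
      · exact ⟨0, by simp⟩
      · exact ⟨0, by simpa using (sub_eq_zero.1 hq)⟩
      · exact ⟨1, by simp⟩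
    · refine ⟨q - p, ?_⟩
      intro x hx
      simp only [Set.mem_insert_iff, Set.mem_singleton_iff] at hx
      rcases hx with rfl | rfl | rfl
      · exact ⟨0, by simp⟩
      · exact ⟨1, by simp⟩
      · -- x - p is a real multiple of q - p
        set z := q - p with hz
        set w := x - p with hw
        have hn : z.re ^ 2 + z.im ^ 2 ≠ 0 := by
          intro h0
          apply hq
          apply Complex.ext
          · simp only [Complex.zero_re]; nlinarith [sq_nonneg z.re, sq_nonneg z.im]
          · simp only [Complex.zero_im]; nlinarith [sq_nonneg z.re, sq_nonneg z.im]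
        refine ⟨(z.re * w.re + z.im * w.im) / (z.re ^ 2 + z.im ^ 2), ?_⟩
        have hx : x = w + p := by rw [hw]; ring
        rw [hx, vadd_eq_add]
        congr 1
        apply Complex.ext
        · simp only [Complex.real_smul, Complex.mul_re, Complex.ofReal_re, Complex.ofReal_im]
          field_simp
          linear_combination -z.im * h
        · simp only [Complex.real_smul, Complex.mul_im, Complex.ofReal_re, Complex.ofReal_im]
          field_simp
          linear_combination z.re * h

theorem det_formula (a b : ℂ) (t : V × V) :
    (conj (phi a b t.1) * phi a b t.2).im = (det t : ℝ) * (conj a * b).im := by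
  rw [im_mul, im_mul]
  unfold phi det
  simp only [Complex.add_re, Complex.add_im, Complex.mul_re, Complex.mul_im, Complex.intCast_re,
    Complex.intCast_im]
  push_cast
  ring

theorem t_COL : S_COL := ⟨col_iff, li_iff, det_formula⟩

end Pool.Agent.K6.H56.TL.COL
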