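import Pool.Agent.K6.H56.TL.Stm

/-!
`S_CS`: the Cauchy-Schwarz inequality for the fibres of a map.
-/

set_option autoImplicit false

open scoped BigOperators
open Finset

namespace Pool.Agent.K6.H56.TL.CS

open Pool.Agent.K6.H56.TL

theorem t_CS : S_CS := by
  classical
  intro S g
  have h1 : S.card = ∑ y ∈ S.image g, (S.filter (fun x => g x = y)).card :=
    Finset.card_eq_sum_card_image g S
  have h2 : ((S ×ˢ S).filter (fun x => g x.1 = g x.2)).card =
      ∑ y ∈ S.image g, (S.filter (fun x => g x = y)).card ^ 2 := by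
    have h3 : ∀ x ∈ (S ×ˢ S).filter (fun x => g x.1 = g x.2), g x.1 ∈ S.image g := by
      intro x hx
      rw [Finset.mem_filter, Finset.mem_product] at hx
      exact Finset.mem_image_of_mem g hx.1.1
    rw [Finset.card_eq_sum_card_fiberwise h3]
    refine Finset.sum_congr rfl fun y _ => ?_
    rw [pow_two, ← Finset.card_product]
    congr 1
    ext ⟨u, v⟩
    simp only [Finset.mem_filter, Finset.mem_product]
    constructor
    · rintro ⟨⟨⟨h4, h5⟩, h6⟩, h7⟩
      exact ⟨⟨h4, h7⟩, ⟨h5, h6 ▸ h7⟩⟩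
    · rintro ⟨⟨h4, h5⟩, ⟨h6, h7⟩⟩
      exact ⟨⟨⟨h4, h6⟩, h5.trans h7.symm⟩, h5⟩
  have h3 := sq_sum_le_card_mul_sum_sq (s := S.image g)
    (f := fun y => (S.filter (fun x => g x = y)).card)
  have h4 : S.card ^ 2 = (∑ y ∈ S.image g, (S.filter (fun x => g x = y)).card) ^ 2 := by
    rw [← h1]
  calc S.card ^ 2 = _ := h4
    _ ≤ (S.image g).card * ∑ y ∈ S.image g, (S.filter (fun x => g x = y)).card ^ 2 := h3
    _ = (S.image g).card * ((S ×ˢ S).filter (fun x => g x.1 = g x.2)).card := by rw [h2]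
    _ ≤ _ := by
      apply le_of_eq
      congr!

end Pool.Agent.K6.H56.TL.CS
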