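import Pool.Agent.K6.H56.TL.Stm

/-!
MP_047cd2_co, piece DG (helper75): the degenerate pairs of vectors in the box are `O(N³)` in number.
-/

set_option autoImplicit false

open Finset

namespace Pool.Agent.K6.H56.TL.DG

open Pool.Agent.K6.H56.TL

lemma card_I (N : ℕ) : (Finset.Icc (-(N : ℤ)) (N : ℤ)).card = 2 * N + 1 := by
  rw [Int.card_Icc]; omega

lemma mem_box {N : ℕ} {t : V × V} (h : t ∈ box N) :
    t.1.1 ∈ Finset.Icc (-(N : ℤ)) (N : ℤ) ∧ t.1.2 ∈ Finset.Icc (-(N : ℤ)) (N : ℤ) ∧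
      t.2.1 ∈ Finset.Icc (-(N : ℤ)) (N : ℤ) ∧ t.2.2 ∈ Finset.Icc (-(N : ℤ)) (N : ℤ) := by
  obtain ⟨⟨v1, v2⟩, ⟨w1, w2⟩⟩ := t
  simp only [box, Finset.mem_product, Finset.mem_Icc, Prod.mk_le_mk] at h
  simp only [Finset.mem_Icc]
  omega

theorem t_DG : S_DG := by
  classical
  intro N hN
  set I := Finset.Icc (-(N : ℤ)) (N : ℤ) with hI
  have hA : ((box N).filter (fun t => det t = 0 ∧ t.1.1 ≠ 0)).card ≤ (2 * N + 1) ^ 3 := by
    have h : ((box N).filter (fun t => det t = 0 ∧ t.1.1 ≠ 0)).card ≤ (I ×ˢ (I ×ˢ I)).card := by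
      apply Finset.card_le_card_of_injOn (fun t => (t.1.1, t.1.2, t.2.1))
      · intro t ht
        have ht' := mem_box (Finset.mem_filter.1 ht).1
        simp only [Finset.coe_product, Set.mem_prod, Finset.mem_coe]
        exact ⟨ht'.1, ht'.2.1, ht'.2.2.1⟩
      · rintro ⟨⟨v1, v2⟩, ⟨w1, w2⟩⟩ ht ⟨⟨v1', v2'⟩, ⟨w1', w2'⟩⟩ ht' heq
        have h1 := (Finset.mem_filter.1 ht).2
        have h2 := (Finset.mem_filter.1 ht').2
        simp only [det, Prod.mk.injEq] at h1 h2 heq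
        obtain ⟨rfl, rfl, rfl⟩ := heq
        have h3 : v1 * (w2 - w2') = 0 := by linear_combination h1.1 - h2.1
        have h4 : w2 = w2' := by
          rcases mul_eq_zero.1 h3 with h | h
          · exact absurd h h1.2
          · omega
        rw [h4]
    rw [Finset.card_product, Finset.card_product, card_I] at h
    calc _ ≤ _ := h
      _ = _ := by ring
  have hB : ((box N).filter (fun t => det t = 0 ∧ t.1.1 = 0 ∧ t.1.2 ≠ 0)).card
      ≤ (2 * N + 1) ^ 2 := by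
    have h : ((box N).filter (fun t => det t = 0 ∧ t.1.1 = 0 ∧ t.1.2 ≠ 0)).card
        ≤ (I ×ˢ I).card := by
      apply Finset.card_le_card_of_injOn (fun t => (t.1.2, t.2.2))
      · intro t ht
        have ht' := mem_box (Finset.mem_filter.1 ht).1
        simp only [Finset.coe_product, Set.mem_prod, Finset.mem_coe]
        exact ⟨ht'.2.1, ht'.2.2.2⟩
      · rintro ⟨⟨v1, v2⟩, ⟨w1, w2⟩⟩ ht ⟨⟨v1', v2'⟩, ⟨w1', w2'⟩⟩ ht' heq
        have h1 := (Finset.mem_filter.1 ht).2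
        have h2 := (Finset.mem_filter.1 ht').2
        simp only [det, Prod.mk.injEq] at h1 h2 heq
        obtain ⟨rfl, rfl⟩ := heq
        obtain ⟨h1, rfl, h1'⟩ := h1
        obtain ⟨h2, rfl, h2'⟩ := h2
        have h3 : w1 = 0 := by
          have : v2 * w1 = 0 := by linear_combination -h1
          exact (mul_eq_zero.1 this).resolve_left h1'
        have h4 : w1' = 0 := by
          have : v2 * w1' = 0 := by linear_combination -h2
          exact (mul_eq_zero.1 this).resolve_left h1'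
        rw [h3, h4]
    rw [Finset.card_product, card_I] at h
    calc _ ≤ _ := h
      _ = _ := by ring
  have hC : ((box N).filter (fun t => t.1.1 = 0 ∧ t.1.2 = 0)).card ≤ (2 * N + 1) ^ 2 := by
    have h : ((box N).filter (fun t => t.1.1 = 0 ∧ t.1.2 = 0)).card ≤ (I ×ˢ I).card := by
      apply Finset.card_le_card_of_injOn (fun t => (t.2.1, t.2.2))
      · intro t ht
        have ht' := mem_box (Finset.mem_filter.1 ht).1
        simp only [Finset.coe_product, Set.mem_prod, Finset.mem_coe]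
        exact ⟨ht'.2.2.1, ht'.2.2.2⟩
      · rintro ⟨⟨v1, v2⟩, ⟨w1, w2⟩⟩ ht ⟨⟨v1', v2'⟩, ⟨w1', w2'⟩⟩ ht' heq
        have h1 := (Finset.mem_filter.1 ht).2
        have h2 := (Finset.mem_filter.1 ht').2
        simp only [Prod.mk.injEq] at h1 h2 heq
        obtain ⟨rfl, rfl⟩ := heq
        obtain ⟨rfl, rfl⟩ := h1
        obtain ⟨rfl, rfl⟩ := h2
        rfl
    rw [Finset.card_product, card_I] at h
    calc _ ≤ _ := h
      _ = _ := by ring
  have hsub : (box N).filter (fun t => det t = 0) ⊆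
      (box N).filter (fun t => det t = 0 ∧ t.1.1 ≠ 0) ∪
      ((box N).filter (fun t => det t = 0 ∧ t.1.1 = 0 ∧ t.1.2 ≠ 0) ∪
        (box N).filter (fun t => t.1.1 = 0 ∧ t.1.2 = 0)) := by
    intro t ht
    obtain ⟨h1, h2⟩ := Finset.mem_filter.1 ht
    simp only [Finset.mem_union, Finset.mem_filter]
    by_cases h3 : t.1.1 = 0
    · by_cases h4 : t.1.2 = 0
      · exact Or.inr (Or.inr ⟨h1, h3, h4⟩)
      · exact Or.inr (Or.inl ⟨h1, h2, h3, h4⟩)
    · exact Or.inl ⟨h1, h2, h3⟩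
  have hcard := (Finset.card_le_card hsub).trans ((Finset.card_union_le _ _).trans
    (Nat.add_le_add hA ((Finset.card_union_le _ _).trans (Nat.add_le_add hB hC))))
  refine hcard.trans ?_
  have : 2 * (2 * N + 1) ^ 2 ≤ (2 * N + 1) * (2 * N + 1) ^ 2 :=
    Nat.mul_le_mul_right _ (by omega)
  calc (2 * N + 1) ^ 3 + ((2 * N + 1) ^ 2 + (2 * N + 1) ^ 2)
      = (2 * N + 1) ^ 3 + 2 * (2 * N + 1) ^ 2 := by ring
    _ ≤ (2 * N + 1) ^ 3 + (2 * N + 1) * (2 * N + 1) ^ 2 := by omega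
    _ = 2 * (2 * N + 1) ^ 3 := by ring

end Pool.Agent.K6.H56.TL.DG
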