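import Pool.Agent.K6.H56.TL.Stm

set_option autoImplicit false

/-!
# EXC (piece of helper37)
-/

namespace Pool.Agent.K6.H56.TL.EXC

open Finset Filter Topology

theorem fw_mul {p k n : ℕ} (hp : p.Prime) (hn : 0 < n) (h : ¬ p ∣ n) :
    fw (p ^ k * n) = (if k = 0 then 1 else 2 * ((1 : ℝ) / (p : ℝ) ^ 2) ^ k) * fw n := by
  have hp0 : (p : ℝ) ≠ 0 := by exact_mod_cast hp.ne_zero
  have hn0 : (n : ℝ) ≠ 0 := by exact_mod_cast hn.ne'
  split_ifs with hk
  · subst hk
    simp
  · have h1 : (p ^ k * n).primeFactors = insert p n.primeFactors := by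
      rw [Nat.primeFactors_mul (pow_ne_zero _ hp.ne_zero) hn.ne', Nat.primeFactors_prime_pow hk hp]
      rfl
    have h2 : p ∉ n.primeFactors := fun h' => h (Nat.dvd_of_mem_primeFactors h')
    unfold fw
    rw [h1, Finset.card_insert_of_notMem h2]
    push_cast
    rw [pow_succ, one_div, inv_pow, ← pow_mul]
    have h3 : (((p : ℝ) ^ k * n) ^ 2) = (p : ℝ) ^ (2 * k) * (n : ℝ) ^ 2 := by
      rw [mul_pow, ← pow_mul, mul_comm k 2]
    rw [h3]
    field_simp

theorem sum_g (q : ℝ) (hq : q ≠ 1) (K : ℕ) :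
    ∑ k ∈ range (K + 1), (if k = 0 then (1 : ℝ) else 2 * q ^ k) =
      (1 + q - 2 * q ^ (K + 1)) / (1 - q) := by
  have h1 : (1 - q) ≠ 0 := sub_ne_zero.mpr hq.symm
  induction K with
  | zero => 
    simp
    field_simp
    ring
  | succ K ih =>
    rw [Finset.sum_range_succ, ih, if_neg (Nat.succ_ne_zero K)]
    field_simp
    ring

theorem t_EXC : S_EXC := by
  intro P B p hp hP hB Φ hΦ
  have hp2 : (2 : ℝ) ≤ p := by exact_mod_cast hp.two_le
  set q : ℝ := 1 / (p : ℝ) ^ 2 with hq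
  have hp0 : (0 : ℝ) < (p : ℝ) ^ 2 := by positivity
  have hq0 : 0 < q := by positivity
  have hq1 : q < 1 := by
    rw [hq, div_lt_one hp0]
    nlinarith
  set S := ∑ n ∈ Φ, fw n with hS
  have key : ∀ K : ℕ, S * (1 + q - 2 * q ^ (K + 1)) ≤ B * (1 - q) := by
    intro K
    have hinj : Set.InjOn (fun x : ℕ × ℕ => p ^ x.1 * x.2)
        ((range (K + 1) ×ˢ Φ : Finset (ℕ × ℕ)) : Set (ℕ × ℕ)) := by
      rintro ⟨k, n⟩ h ⟨k', n'⟩ h' he
      simp only [Finset.coe_product, Set.mem_prod, Finset.mem_coe] at h h'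
      have a1 := hΦ n h.2
      have a2 := hΦ n' h'.2
      have he' : p ^ k * n = p ^ k' * n' := he
      have e1 : k = k' := by
        rcases lt_trichotomy k k' with hlt | heq | hgt
        · exfalso
          obtain ⟨d, rfl⟩ := Nat.exists_eq_add_of_lt hlt
          apply a1.2.2
          have : n = p * (p ^ d * n') := by
            have h3 : p ^ k * n = p ^ k * (p * (p ^ d * n')) := by
              rw [he']
              ring
            exact Nat.eq_of_mul_eq_mul_left (pow_pos hp.pos k) h3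
          exact ⟨_, this⟩
        · exact heq
        · exfalso
          obtain ⟨d, rfl⟩ := Nat.exists_eq_add_of_lt hgt
          apply a2.2.2
          have : n' = p * (p ^ d * n) := by
            have h3 : p ^ k' * n' = p ^ k' * (p * (p ^ d * n)) := by
              rw [← he']
              ring
            exact Nat.eq_of_mul_eq_mul_left (pow_pos hp.pos k') h3
          exact ⟨_, this⟩
      subst e1
      have e2 : n = n' := Nat.eq_of_mul_eq_mul_left (pow_pos hp.pos k) he'
      rw [e2]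
    have h1 := hB ((range (K + 1) ×ˢ Φ).image (fun x : ℕ × ℕ => p ^ x.1 * x.2)) (by
      intro m hm
      rw [Finset.mem_image] at hm
      obtain ⟨⟨k, n⟩, h, rfl⟩ := hm
      rw [Finset.mem_product] at h
      have a1 := hΦ n h.2
      exact ⟨Nat.mul_pos (pow_pos hp.pos k) a1.1, hP n k a1.2.1⟩)
    rw [Finset.sum_image hinj, Finset.sum_product] at h1
    have h2 : ∑ k ∈ range (K + 1), ∑ n ∈ Φ, fw (p ^ k * n) =
        (∑ k ∈ range (K + 1), (if k = 0 then (1 : ℝ) else 2 * q ^ k)) * S := by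
      rw [Finset.sum_mul]
      refine Finset.sum_congr rfl fun k _ => ?_
      rw [hS, Finset.mul_sum]
      refine Finset.sum_congr rfl fun n hn => ?_
      exact fw_mul hp (hΦ n hn).1 (hΦ n hn).2.2
    rw [h2, sum_g q hq1.ne K, div_mul_eq_mul_div, div_le_iff₀ (by linarith)] at h1
    linarith
  have hlim : Tendsto (fun K : ℕ => S * (1 + q - 2 * q ^ (K + 1))) atTop
      (𝓝 (S * (1 + q - 2 * 0))) := by
    refine Tendsto.const_mul _ (Tendsto.sub tendsto_const_nhds (Tendsto.const_mul _ ?_))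
    exact (tendsto_pow_atTop_nhds_zero_of_lt_one hq0.le hq1).comp (tendsto_add_atTop_nat 1)
  have hfin : S * (1 + q - 2 * 0) ≤ B * (1 - q) := le_of_tendsto' hlim key
  rw [le_div_iff₀ (by positivity)]
  have e1 : q * (p : ℝ) ^ 2 = 1 := by
    rw [hq]
    field_simp
  have h3 : S * (1 + q - 2 * 0) * (p : ℝ) ^ 2 ≤ B * (1 - q) * (p : ℝ) ^ 2 :=
    mul_le_mul_of_nonneg_right hfin hp0.le
  have h4 : S * (1 + q - 2 * 0) * (p : ℝ) ^ 2 = S * ((p : ℝ) ^ 2 + 1) := by
    linear_combination S * e1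
  have h5 : B * (1 - q) * (p : ℝ) ^ 2 = B * ((p : ℝ) ^ 2 - 1) := by
    linear_combination (-B) * e1
  linarith

end Pool.Agent.K6.H56.TL.EXC
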