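import Pool.Agent.K6.H56.TL.Stm

set_option autoImplicit false

open scoped BigOperators ComplexConjugate
open Finset Filter

namespace Pool.Agent.K6.H56.TL.FAM

lemma mem_box (N : ℕ) (t : V × V) : t ∈ box N ↔
    (-(N : ℤ) ≤ t.1.1 ∧ t.1.1 ≤ N) ∧ (-(N : ℤ) ≤ t.1.2 ∧ t.1.2 ≤ N) ∧
    (-(N : ℤ) ≤ t.2.1 ∧ t.2.1 ≤ N) ∧ (-(N : ℤ) ≤ t.2.2 ∧ t.2.2 ≤ N) := by
  simp only [box, Finset.mem_product, Finset.mem_Icc, Prod.le_def]
  tauto

lemma fit_box {N : ℕ} {t : V × V} (h : Fit N t) : t ∈ box N := by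
  obtain ⟨p, h1, h2, h3⟩ := h
  rw [mem_box]
  simp only [InB, Prod.fst_add, Prod.snd_add] at h1 h2 h3
  omega

lemma mem_F (N : ℕ) (t : V × V) : t ∈ F N ↔ Fit N t := by
  classical
  simp only [F, Finset.mem_filter]
  exact ⟨fun h => h.2, fun h => ⟨fit_box h, h⟩⟩

lemma F_mono : Monotone F := by
  intro N N' h t ht
  rw [mem_F] at ht ⊢
  obtain ⟨p, h1, h2, h3⟩ := ht
  refine ⟨p, ?_, ?_, ?_⟩ <;> simp only [InB, Prod.fst_add, Prod.snd_add] at h1 h2 h3 ⊢ <;> omega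

lemma F_shift (c : V × V) : ∃ K : ℕ, ∀ N : ℕ, ∀ t ∈ F N, t + c ∈ F (N + K) := by
  obtain ⟨⟨c1, c2⟩, ⟨c3, c4⟩⟩ := c
  set L : ℕ := c1.natAbs + c2.natAbs + c3.natAbs + c4.natAbs with hL
  refine ⟨2 * L, ?_⟩
  intro N t ht
  rw [mem_F] at ht ⊢
  obtain ⟨p, h1, h2, h3⟩ := ht
  refine ⟨p + ((L : ℤ), (L : ℤ)), ?_, ?_, ?_⟩ <;>
    simp only [InB, Prod.fst_add, Prod.snd_add] at h1 h2 h3 ⊢ <;> push_cast <;> omega

lemma card_real (h : S_CF) (N : ℕ) (hN : 1 ≤ N) :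
    ((F N).card : ℝ) = (3 * (N : ℝ) ^ 2 - 3 * N + 1) ^ 2 := by
  have := h N hN
  exact_mod_cast this

lemma F_grow (h : S_CF) (K : ℕ) : ∃ C : ℝ, ∀ N : ℕ, 1 ≤ N →
    ((F (N + K)).card : ℝ) ≤ (F N).card + C * (N : ℝ) ^ 3 := by
  refine ⟨(6 * K + 3 * (K : ℝ) ^ 2) * (2 * (3 * (1 + (K : ℝ)) ^ 2 + 1)), ?_⟩
  intro N hN
  rw [card_real h N hN, card_real h (N + K) (by omega)]
  push_cast
  have hx : (1 : ℝ) ≤ (N : ℝ) := by exact_mod_cast hN
  have hk : (0 : ℝ) ≤ (K : ℝ) := Nat.cast_nonneg K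
  generalize (N : ℝ) = x at hx ⊢
  generalize (K : ℝ) = k at hk ⊢
  have h1 : 0 ≤ 6 * x * k + 3 * k ^ 2 - 3 * k := by nlinarith
  have h2 : 6 * x * k + 3 * k ^ 2 - 3 * k ≤ (6 * k + 3 * k ^ 2) * x := by nlinarith [mul_nonneg (mul_nonneg hk hk) (sub_nonneg.2 hx)]
  have h3 : x + k ≤ (1 + k) * x := by nlinarith
  have h4 : (x + k) ^ 2 ≤ ((1 + k) * x) ^ 2 := by
    apply pow_le_pow_left₀ (by linarith) h3
  have h5 : 1 ≤ x ^ 2 := by nlinarith
  have h6 : (3 * (x + k) ^ 2 - 3 * (x + k) + 1) + (3 * x ^ 2 - 3 * x + 1) ≤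
      2 * (3 * (1 + k) ^ 2 + 1) * x ^ 2 := by
    have h7 : x ^ 2 ≤ (x + k) ^ 2 := by nlinarith
    nlinarith
  have h8 : 0 ≤ (3 * (x + k) ^ 2 - 3 * (x + k) + 1) + (3 * x ^ 2 - 3 * x + 1) := by nlinarith [sq_nonneg (x + k - 1), sq_nonneg (x - 1)]
  have h9 : (3 * (x + k) ^ 2 - 3 * (x + k) + 1) ^ 2 - (3 * x ^ 2 - 3 * x + 1) ^ 2 =
      (6 * x * k + 3 * k ^ 2 - 3 * k) *
        ((3 * (x + k) ^ 2 - 3 * (x + k) + 1) + (3 * x ^ 2 - 3 * x + 1)) := by ring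
  have h10 : (6 * x * k + 3 * k ^ 2 - 3 * k) *
        ((3 * (x + k) ^ 2 - 3 * (x + k) + 1) + (3 * x ^ 2 - 3 * x + 1)) ≤
      ((6 * k + 3 * k ^ 2) * x) * (2 * (3 * (1 + k) ^ 2 + 1) * x ^ 2) :=
    mul_le_mul h2 h6 h8 (by positivity)
  have h11 : ((6 * k + 3 * k ^ 2) * x) * (2 * (3 * (1 + k) ^ 2 + 1) * x ^ 2) =
      (6 * k + 3 * k ^ 2) * (2 * (3 * (1 + k) ^ 2 + 1)) * x ^ 3 := by ring
  linarith

lemma F_fam0 (h : S_CF) : Fam0 F 1 where
  mono := F_mono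
  shift := F_shift
  sub := by
    intro N _ t ht
    rw [one_mul]
    exact fit_box ((mem_F N t).1 ht)
  grow := F_grow h

lemma F_fam (h : S_CF) : Fam F 1 9 where
  toFam0 := F_fam0 h
  low := by
    refine ⟨18, ?_⟩
    intro N hN
    rw [card_real h N hN]
    have hx : (1 : ℝ) ≤ (N : ℝ) := by exact_mod_cast hN
    nlinarith

lemma act_add (p q r s : ℤ) (t u : V × V) : act p q r s (t + u) = act p q r s t + act p q r s u := by
  simp only [act, Prod.fst_add, Prod.snd_add, Prod.mk_add_mk, Prod.mk.injEq]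
  refine ⟨⟨?_, ?_⟩, ⟨?_, ?_⟩⟩ <;> ring

lemma act_inv (p q r s : ℤ) (h : p * s - q * r = 1) (t : V × V) :
    act p q r s (act s (-q) (-r) p t) = t := by
  obtain ⟨⟨a, b⟩, ⟨c, d⟩⟩ := t
  simp only [act, Prod.mk.injEq]
  refine ⟨⟨?_, ?_⟩, ⟨?_, ?_⟩⟩
  · linear_combination a * h
  · linear_combination b * h
  · linear_combination c * h
  · linear_combination d * h

lemma act_inv' (p q r s : ℤ) (h : p * s - q * r = 1) (t : V × V) :
    act s (-q) (-r) p (act p q r s t) = t := by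
  obtain ⟨⟨a, b⟩, ⟨c, d⟩⟩ := t
  simp only [act, Prod.mk.injEq]
  refine ⟨⟨?_, ?_⟩, ⟨?_, ?_⟩⟩
  · linear_combination a * h
  · linear_combination b * h
  · linear_combination c * h
  · linear_combination d * h

lemma act_inj (p q r s : ℤ) (h : p * s - q * r = 1) : Function.Injective (act p q r s) :=
  Function.LeftInverse.injective (act_inv' p q r s h)

lemma bd (a b x y : ℤ) (N κ : ℕ) (hx : |x| ≤ N) (hy : |y| ≤ N)
    (hκ : a.natAbs + b.natAbs ≤ κ) : |a * x + b * y| ≤ ((κ * N : ℕ) : ℤ) := by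
  have h1 : |a * x + b * y| ≤ |a| * |x| + |b| * |y| := by
    calc |a * x + b * y| ≤ |a * x| + |b * y| := abs_add_le _ _
      _ = |a| * |x| + |b| * |y| := by rw [abs_mul, abs_mul]
  have h2 : |a| * |x| ≤ |a| * N := mul_le_mul_of_nonneg_left hx (abs_nonneg _)
  have h3 : |b| * |y| ≤ |b| * N := mul_le_mul_of_nonneg_left hy (abs_nonneg _)
  have h4 : |a| + |b| ≤ (κ : ℤ) := by
    rw [Int.abs_eq_natAbs, Int.abs_eq_natAbs]
    exact_mod_cast hκ
  have h5 : (|a| + |b|) * (N : ℤ) ≤ κ * N := mul_le_mul_of_nonneg_right h4 (by positivity)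
  push_cast
  linarith

lemma image_fam0 (h : S_CF) (p q r s : ℤ) (hd : p * s - q * r = 1) :
    ∃ κ : ℕ, Fam0 (fun N => (F N).image (act p q r s)) κ := by
  refine ⟨p.natAbs + q.natAbs + (r.natAbs + s.natAbs), ?_, ?_, ?_, ?_⟩
  · intro N N' hN
    exact Finset.image_subset_image (F_mono hN)
  · intro c
    obtain ⟨K, hK⟩ := F_shift (act s (-q) (-r) p c)
    refine ⟨K, ?_⟩
    intro N t ht
    obtain ⟨u, hu, rfl⟩ := Finset.mem_image.1 ht
    refine Finset.mem_image.2 ⟨u + act s (-q) (-r) p c, hK N u hu, ?_⟩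
    rw [act_add, act_inv p q r s hd]
  · intro N _ t ht
    obtain ⟨u, hu, rfl⟩ := Finset.mem_image.1 ht
    have hb := (mem_box N u).1 (fit_box ((mem_F N u).1 hu))
    obtain ⟨⟨a1, a2⟩, ⟨b1, b2⟩, ⟨c1, c2⟩, ⟨d1, d2⟩⟩ := hb
    have e1 : |u.1.1| ≤ (N : ℤ) := abs_le.2 ⟨a1, a2⟩
    have e2 : |u.1.2| ≤ (N : ℤ) := abs_le.2 ⟨b1, b2⟩
    have e3 : |u.2.1| ≤ (N : ℤ) := abs_le.2 ⟨c1, c2⟩
    have e4 : |u.2.2| ≤ (N : ℤ) := abs_le.2 ⟨d1, d2⟩
    rw [mem_box]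
    have k1 : p.natAbs + q.natAbs ≤ p.natAbs + q.natAbs + (r.natAbs + s.natAbs) := by omega
    have k2 : r.natAbs + s.natAbs ≤ p.natAbs + q.natAbs + (r.natAbs + s.natAbs) := by omega
    exact ⟨abs_le.1 (bd p q _ _ N _ e1 e2 k1), abs_le.1 (bd r s _ _ N _ e1 e2 k2),
      abs_le.1 (bd p q _ _ N _ e3 e4 k1), abs_le.1 (bd r s _ _ N _ e3 e4 k2)⟩
  · intro K
    obtain ⟨C, hC⟩ := F_grow h K
    refine ⟨C, ?_⟩
    intro N hN
    rw [Finset.card_image_of_injective _ (act_inj p q r s hd),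
      Finset.card_image_of_injective _ (act_inj p q r s hd)]
    exact hC N hN

lemma union_fam0 (W W' : ℕ → Finset (V × V)) (κ κ' : ℕ) (hW : Fam0 W κ) (hW' : Fam0 W' κ') :
    Fam0 (fun N => W N ∪ W' N) (max κ κ') where
  mono := fun N N' h => Finset.union_subset_union (hW.mono h) (hW'.mono h)
  shift := by
    intro c
    obtain ⟨K, hK⟩ := hW.shift c
    obtain ⟨K', hK'⟩ := hW'.shift c
    refine ⟨K + K', ?_⟩
    intro N t ht
    rcases Finset.mem_union.1 ht with h | h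
    · exact Finset.mem_union_left _ (hW.mono (by omega) (hK N t h))
    · exact Finset.mem_union_right _ (hW'.mono (by omega) (hK' N t h))
  sub := by
    intro N hN t ht
    have key : ∀ k k' : ℕ, k ≤ k' → box (k * N) ⊆ box (k' * N) := by
      intro k k' hk u hu
      rw [mem_box] at hu ⊢
      have h1 : (((k * N : ℕ) : ℤ)) ≤ ((k' * N : ℕ) : ℤ) := by
        exact_mod_cast Nat.mul_le_mul_right N hk
      generalize ((k * N : ℕ) : ℤ) = A at hu h1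
      generalize ((k' * N : ℕ) : ℤ) = B at h1 ⊢
      omega
    rcases Finset.mem_union.1 ht with h | h
    · exact key _ _ (le_max_left _ _) (hW.sub N hN h)
    · exact key _ _ (le_max_right _ _) (hW'.sub N hN h)
  grow := by
    intro K
    obtain ⟨C, hC⟩ := hW.grow K
    obtain ⟨C', hC'⟩ := hW'.grow K
    refine ⟨C + C', ?_⟩
    intro N hN
    have h1 := hC N hN
    have h2 := hC' N hN
    have s1 : W N ⊆ W (N + K) := hW.mono (by omega)
    have s2 : W' N ⊆ W' (N + K) := hW'.mono (by omega)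
    have c1 := Finset.card_sdiff_add_card_eq_card s1
    have c2 := Finset.card_sdiff_add_card_eq_card s2
    have hsub : W (N + K) ∪ W' (N + K) ⊆
        (W N ∪ W' N) ∪ ((W (N + K) \ W N) ∪ (W' (N + K) \ W' N)) := by
      intro x hx
      simp only [Finset.mem_union, Finset.mem_sdiff] at hx ⊢
      tauto
    have c3 := Finset.card_le_card hsub
    have c4 := Finset.card_union_le (W N ∪ W' N) ((W (N + K) \ W N) ∪ (W' (N + K) \ W' N))
    have c5 := Finset.card_union_le (W (N + K) \ W N) (W' (N + K) \ W' N)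
    have c6 : (W (N + K) ∪ W' (N + K)).card ≤
        (W N ∪ W' N).card + ((W (N + K) \ W N).card + (W' (N + K) \ W' N).card) := by omega
    have c7 : (((W (N + K) ∪ W' (N + K)).card : ℕ) : ℝ) ≤
        (W N ∪ W' N).card + (((W (N + K) \ W N).card : ℝ) + ((W' (N + K) \ W' N).card : ℝ)) := by
      exact_mod_cast c6
    have c8 : (((W (N + K) \ W N).card : ℝ) + (W N).card) = (W (N + K)).card := by
      exact_mod_cast c1
    have c9 : (((W' (N + K) \ W' N).card : ℝ) + (W' N).card) = (W' (N + K)).card := by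
      exact_mod_cast c2
    linarith

theorem t_FAM (h : S_CF) : S_FAM :=
  ⟨F_fam h, fun p q r s hd => image_fam0 h p q r s hd, union_fam0⟩

end Pool.Agent.K6.H56.TL.FAM
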