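import Pool.Agent.K6.H56.TL.Stm

/-! Fundamental discriminants `≤ -7`. -/

set_option autoImplicit false

open scoped BigOperators
open Finset

namespace Pool.Agent.K6.H56.TL.FUND

open Pool.Agent.K6.H56.TL

theorem fw_two : fw 2 = 1 / 2 := by
  unfold fw
  rw [Nat.Prime.primeFactors Nat.prime_two]
  norm_num

theorem sum_ne_two (hS : S_SUM) (Ψ : Finset ℕ) (h : ∀ n ∈ Ψ, 0 < n ∧ n ≠ 2) :
    ∑ n ∈ Ψ, fw n ≤ 2 := by
  have h2 : (2 : ℕ) ∉ Ψ := fun hm => (h 2 hm).2 rfl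
  have := hS (insert 2 Ψ) (by
    intro n hn
    rcases Finset.mem_insert.1 hn with rfl | hn
    · norm_num
    · exact (h n hn).1)
  rw [Finset.sum_insert h2, fw_two] at this
  linarith

theorem sum_not_three (hS : S_SUM) (hE : S_EXC) (Ψ : Finset ℕ) (h : ∀ n ∈ Ψ, 0 < n ∧ ¬ 3 ∣ n) :
    ∑ n ∈ Ψ, fw n ≤ 2 := by
  have := hE (fun _ => True) (5 / 2) 3 Nat.prime_three (fun _ _ _ => trivial)
    (fun Φ hΦ => hS Φ fun n hn => (hΦ n hn).1) Ψ (fun n hn => ⟨(h n hn).1, trivial, (h n hn).2⟩)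
  refine this.trans ?_
  norm_num

theorem t_FUND (hC : S_CNT) (hL : S_LOC) (hS : S_SUM) (hE : S_EXC) (hG : S_GRP) : S_FUND := by
  classical
  intro e k he hD hF Φ hΦ
  have hcount : ∀ z : ℕ, 0 < z →
      (Φ.filter (fun v => qf e k v = (z : ℤ) ^ 2)).card ≤ 2 * 2 ^ z.primeFactors.card := by
    intro z hz
    apply hC e k he hD hF z hz
    intro v hv
    rw [Finset.mem_filter] at hv
    exact ⟨(hΦ v hv.1).1, hv.2⟩
  rcases hL.2.2 e k he hD hF with h2 | h3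
  · have := hG (qf e k) 2 (fun z => z ≠ 2) 2 Φ (fun v hv => by
      obtain ⟨hc, z, hz, hq⟩ := hΦ v hv
      exact ⟨z, hz, h2 v z hz hc hq, hq⟩) hcount (fun Ψ h => sum_ne_two hS Ψ h)
    refine this.trans (by norm_num)
  · have := hG (qf e k) 2 (fun z => ¬ 3 ∣ z) 2 Φ (fun v hv => by
      obtain ⟨hc, z, hz, hq⟩ := hΦ v hv
      exact ⟨z, hz, h3 v z hz hc hq, hq⟩) hcount (fun Ψ h => sum_not_three hS hE Ψ h)
    refine this.trans (by norm_num)

end Pool.Agent.K6.H56.TL.FUND
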