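import Pool.Agent.K6.H56.TL.Stm

/-! Piece IDX: pairs of independent vectors of a subgroup of finite index in a box. -/

set_option autoImplicit false

open Finset

namespace Pool.Agent.K6.H56.TL.IDX

/-- the box of vectors -/
noncomputable def Bx (N : ℕ) : Finset V := Finset.Icc ((-(N : ℤ), -(N : ℤ)) : V) ((N : ℤ), (N : ℤ))

theorem mem_Bx {N : ℕ} {x : V} : x ∈ Bx N ↔ |x.1| ≤ N ∧ |x.2| ≤ N := by
  unfold Bx
  rw [Finset.mem_Icc, Prod.le_def, Prod.le_def, abs_le, abs_le]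
  constructor
  · rintro ⟨⟨h1, h2⟩, h3, h4⟩
    exact ⟨⟨h1, h3⟩, h2, h4⟩
  · rintro ⟨⟨h1, h3⟩, h2, h4⟩
    exact ⟨⟨h1, h2⟩, h3, h4⟩

theorem card_Bx (N : ℕ) : (Bx N).card = (2 * N + 1) ^ 2 := by
  unfold Bx
  rw [← Finset.Icc_product_Icc, Finset.card_product, Int.card_Icc]
  have : ((N : ℤ) + 1 - -(N : ℤ)).toNat = 2 * N + 1 := by omega
  rw [this, pow_two]

/-- one coordinate of the remainder -/
theorem rem_bound (D P Q r v w : ℤ) (N : ℕ) (hD : D ≠ 0) (h : D * r = (P % D) * v + (Q % D) * w)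
    (hv : |v| ≤ N) (hw : |w| ≤ N) : |r| ≤ 2 * N := by
  have hD' : 0 < |D| := abs_pos.2 hD
  have h1 : 0 ≤ P % D := Int.emod_nonneg _ hD
  have h2 : P % D < |D| := Int.emod_lt_abs _ hD
  have h3 : 0 ≤ Q % D := Int.emod_nonneg _ hD
  have h4 : Q % D < |D| := Int.emod_lt_abs _ hD
  have h5 : |D| * |r| ≤ |D| * (2 * N) := by
    rw [← abs_mul, h]
    calc |(P % D) * v + (Q % D) * w| ≤ |(P % D) * v| + |(Q % D) * w| := abs_add_le _ _
      _ = (P % D) * |v| + (Q % D) * |w| := by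
        rw [abs_mul, abs_mul, abs_of_nonneg h1, abs_of_nonneg h3]
      _ ≤ |D| * N + |D| * N := by
        have hN : (0 : ℤ) ≤ N := Int.natCast_nonneg _
        have a1 : (P % D) * |v| ≤ |D| * N := mul_le_mul h2.le hv (abs_nonneg _) hD'.le
        have a2 : (Q % D) * |w| ≤ |D| * N := mul_le_mul h4.le hw (abs_nonneg _) hD'.le
        linarith
      _ = |D| * (2 * N) := by ring
  exact le_of_mul_le_mul_left h5 hD'

/-- representatives of the cosets -/
theorem rep (H : AddSubgroup V) (N : ℕ) (v w : V) (hv : v ∈ H) (hw : w ∈ H) (hvN : v ∈ Bx N)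
    (hwN : w ∈ Bx N) (hD : det (v, w) ≠ 0) (x : V) : ∃ r ∈ Bx (2 * N), x - r ∈ H := by
  rw [mem_Bx] at hvN hwN
  set D := det (v, w) with hDdef
  have hDe : D = v.1 * w.2 - v.2 * w.1 := rfl
  set P := x.1 * w.2 - x.2 * w.1 with hP
  set Q := v.1 * x.2 - v.2 * x.1 with hQ
  have hPd : D * (P / D) + P % D = P := Int.mul_ediv_add_emod P D
  have hQd : D * (Q / D) + Q % D = Q := Int.mul_ediv_add_emod Q D
  refine ⟨x - ((P / D) • v + (Q / D) • w), ?_, ?_⟩
  · rw [mem_Bx]
    push_cast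
    constructor
    · refine rem_bound D P Q _ v.1 w.1 N hD ?_ hvN.1 hwN.1
      simp only [Prod.fst_sub, Prod.fst_add, Prod.smul_fst, smul_eq_mul]
      have e : D * x.1 = P * v.1 + Q * w.1 := by rw [hDe, hP, hQ]; ring
      linear_combination e - v.1 * hPd - w.1 * hQd
    · refine rem_bound D P Q _ v.2 w.2 N hD ?_ hvN.2 hwN.2
      simp only [Prod.snd_sub, Prod.snd_add, Prod.smul_snd, smul_eq_mul]
      have e : D * x.2 = P * v.2 + Q * w.2 := by rw [hDe, hP, hQ]; ring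
      linear_combination e - v.2 * hPd - w.2 * hQd
  · rw [sub_sub_cancel]
    exact H.add_mem (H.zsmul_mem hv _) (H.zsmul_mem hw _)

open Classical in
theorem t_IDX : S_IDX := by
  intro H hH N
  set S := (box N).filter (fun t => t.1 ∈ H ∧ t.2 ∈ H ∧ det t ≠ 0) with hS
  rcases S.eq_empty_or_nonempty with h0 | ⟨⟨v, w⟩, hvw⟩
  · rw [h0, Finset.card_empty, zero_mul]
    exact Nat.zero_le _
  have hbox : box N = Bx N ×ˢ Bx N := rfl
  rw [hS, Finset.mem_filter, hbox, Finset.mem_product] at hvw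
  obtain ⟨⟨hvN, hwN⟩, hv, hw, hD⟩ := hvw
  have hrep := rep H N v w hv hw hvN hwN hD
  haveI : H.FiniteIndex := ⟨hH⟩
  haveI : Finite (V ⧸ H) := AddSubgroup.finite_quotient_of_finiteIndex
  haveI : Fintype (V ⧸ H) := Fintype.ofFinite _
  have hidx : H.index = Fintype.card (V ⧸ H) := by
    rw [AddSubgroup.index, Nat.card_eq_fintype_card]
  have hr : ∀ c : V ⧸ H, ∃ r ∈ Bx (2 * N), (QuotientAddGroup.mk r : V ⧸ H) = c := by
    intro c
    obtain ⟨x, rfl⟩ := QuotientAddGroup.mk_surjective c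
    obtain ⟨r, hr, hxr⟩ := hrep x
    refine ⟨r, hr, ?_⟩
    rw [QuotientAddGroup.eq]
    rwa [neg_add_eq_sub]
  choose r hr1 hr2 using hr
  set A := (Bx N).filter (fun x => x ∈ H) with hA
  have hcard : A.card * H.index ≤ (6 * N + 1) ^ 2 := by
    rw [hidx, ← Finset.card_univ, ← Finset.card_product]
    have e : (6 * N + 1) ^ 2 = (Bx (3 * N)).card := by rw [card_Bx]; ring
    rw [e]
    refine Finset.card_le_card_of_injOn (fun q : V × (V ⧸ H) => q.1 + r q.2) ?_ ?_
    · rintro ⟨x, c⟩ hq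
      rw [Finset.mem_coe, Finset.mem_product, hA, Finset.mem_filter] at hq
      have h1 := (mem_Bx.1 hq.1.1)
      have h2 := mem_Bx.1 (hr1 c)
      rw [Finset.mem_coe, mem_Bx]
      simp only [Prod.fst_add, Prod.snd_add]
      push_cast at h2 ⊢
      constructor
      · have := abs_add_le x.1 (r c).1
        linarith [h1.1, h2.1]
      · have := abs_add_le x.2 (r c).2
        linarith [h1.2, h2.2]
    · rintro ⟨x, c⟩ hq ⟨x', c'⟩ hq' hxx
      rw [Finset.mem_coe, Finset.mem_product, hA, Finset.mem_filter] at hq hq'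
      simp only at hxx hq hq'
      have hc : c = c' := by
        have h1 : (QuotientAddGroup.mk (x + r c) : V ⧸ H) = c := by
          rw [QuotientAddGroup.mk_add, hr2, (QuotientAddGroup.eq_zero_iff x).2 hq.1.2, zero_add]
        have h2 : (QuotientAddGroup.mk (x' + r c') : V ⧸ H) = c' := by
          rw [QuotientAddGroup.mk_add, hr2, (QuotientAddGroup.eq_zero_iff x').2 hq'.1.2, zero_add]
        rw [← h1, ← h2, hxx]
      subst hc
      rw [add_right_cancel hxx]
  have hSA : S.card ≤ A.card ^ 2 := by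
    rw [pow_two, ← Finset.card_product]
    refine Finset.card_le_card ?_
    intro t ht
    rw [hS, Finset.mem_filter, hbox, Finset.mem_product] at ht
    rw [Finset.mem_product, hA, Finset.mem_filter, Finset.mem_filter]
    exact ⟨⟨ht.1.1, ht.2.1⟩, ht.1.2, ht.2.2.1⟩
  calc S.card * H.index ^ 2 ≤ A.card ^ 2 * H.index ^ 2 := Nat.mul_le_mul_right _ hSA
    _ = (A.card * H.index) ^ 2 := by ring
    _ ≤ ((6 * N + 1) ^ 2) ^ 2 := Nat.pow_le_pow_left hcard 2
    _ = (6 * N + 1) ^ 4 := by ring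

end Pool.Agent.K6.H56.TL.IDX
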