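import Pool.Agent.K6.H56.TL.Stm

/-!
MP_047cd2_co, piece ISO (helper75): the isometries of the plane.
-/

set_option autoImplicit false

open Finset
open scoped ComplexConjugate

namespace Pool.Agent.K6.H56.TL.ISO

open Pool.Agent.K6.H56.TL

theorem t_ISO : S_ISO := by
  intro f
  obtain ⟨a, ha⟩ := linear_isometry_complex f.toRealLinearIsometryEquiv
  refine ⟨f 0, (a : ℂ), by simp, ?_⟩
  rcases ha with ha | ha
  · left
    intro z
    have h := f.toRealLinearIsometryEquiv_apply z
    rw [ha, rotation_apply] at h
    rw [h]; ring
  · right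
    intro z
    have h := f.toRealLinearIsometryEquiv_apply z
    rw [ha] at h
    simp only [LinearIsometryEquiv.trans_apply, rotation_apply, Complex.conjLIE_apply] at h
    rw [h]; ring

end Pool.Agent.K6.H56.TL.ISO
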