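import Pool.Agent.K6.H56.TL.Stm

/-! # Local conditions -/

set_option autoImplicit false

open scoped BigOperators
open Finset

namespace Pool.Agent.K6.H56.TL.LOC

theorem not_cop {x y p : ℤ} (h : IsCoprime x y) (hp : 2 ≤ p) (hx : p ∣ x) (hy : p ∣ y) :
    False := by
  have h1 := h.isUnit_of_dvd' hx hy
  rw [Int.isUnit_iff] at h1
  omega

theorem cast_zero {n : ℕ} {x : ℤ} : ((x : ℤ) : ZMod n) = 0 ↔ (n : ℤ) ∣ x :=
  ZMod.intCast_zmod_eq_zero_iff_dvd x n

theorem a2 {x y z : ℤ} (h : x ^ 2 + y ^ 2 = z ^ 2) (hz : (2 : ℤ) ∣ z) : 2 ∣ x ∧ 2 ∣ y := by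
  obtain ⟨w, rfl⟩ := hz
  obtain ⟨a, ha⟩ := Int.even_or_odd' x
  obtain ⟨b, hb⟩ := Int.even_or_odd' y
  rcases ha with rfl | rfl <;> rcases hb with rfl | rfl
  · exact ⟨⟨a, rfl⟩, ⟨b, rfl⟩⟩
  · exfalso
    ring_nf at h
    omega
  · exfalso
    ring_nf at h
    omega
  · exfalso
    ring_nf at h
    omega

theorem b2 {x y z : ℤ} (h : x ^ 2 + 2 * y ^ 2 = 4 * z) : 2 ∣ x ∧ 2 ∣ y := by
  obtain ⟨a, ha⟩ := Int.even_or_odd' x
  obtain ⟨b, hb⟩ := Int.even_or_odd' y
  rcases ha with rfl | rfl <;> rcases hb with rfl | rfl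
  · exact ⟨⟨a, rfl⟩, ⟨b, rfl⟩⟩
  · exfalso
    ring_nf at h
    omega
  · exfalso
    ring_nf at h
    omega
  · exfalso
    ring_nf at h
    omega

theorem z2a : ∀ x y : ZMod 2, x ^ 2 + x * y + y ^ 2 = 0 → x = 0 ∧ y = 0 := by decide
theorem z2b : ∀ x y : ZMod 2, x ^ 2 + x * y + 3 * y ^ 2 = 0 → x = 0 ∧ y = 0 := by decide
theorem z3a : ∀ x y : ZMod 3, x ^ 2 + y ^ 2 = 0 → x = 0 ∧ y = 0 := by decide
theorem z3b : ∀ x y : ZMod 3, x ^ 2 + x * y + y ^ 2 = 0 → x - y = 0 := by decide
theorem z3c : ∀ x y : ZMod 3, x ^ 2 + x * y + 2 * y ^ 2 = 0 → x = 0 ∧ y = 0 := by decide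
theorem z3d : ∀ x y : ZMod 3, x ^ 2 + x * y + 4 * y ^ 2 = 0 → x - y = 0 := by decide
theorem z5 : ∀ x y : ZMod 5, x ^ 2 + x * y + y ^ 2 = 0 → x = 0 ∧ y = 0 := by decide

theorem castn {n : ℕ} {x y e k z : ℤ} (h : x ^ 2 + e * x * y + k * y ^ 2 = z ^ 2)
    (hz : (n : ℤ) ∣ z) :
    (x : ZMod n) ^ 2 + (e : ZMod n) * x * y + (k : ZMod n) * (y : ZMod n) ^ 2 = 0 := by
  have h1 := congrArg (fun t : ℤ => (t : ZMod n)) h
  push_cast at h1
  rw [h1, cast_zero.2 hz]
  ring

theorem t_LOC : S_LOC := by
  refine ⟨?_, ?_, ?_⟩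
  · rintro ⟨x, y⟩ z hc h
    have h0 : x ^ 2 + y ^ 2 = z ^ 2 := by
      have : qf 0 1 (x, y) = x ^ 2 + y ^ 2 := by
        simp only [qf]
        ring
      rw [← this, h]
    refine ⟨fun hz => ?_, fun hz => ?_⟩
    · obtain ⟨h1, h2⟩ := a2 h0 hz
      exact not_cop hc le_rfl h1 h2
    · have h1 := castn (n := 3) (e := 0) (k := 1) (x := x) (y := y) (z := z)
        (by linear_combination h0) (by exact_mod_cast hz)
      obtain ⟨h2, h3⟩ := z3a (x : ZMod 3) (y : ZMod 3) (by
        push_cast at h1
        linear_combination h1)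
      exact not_cop hc (by norm_num : (2 : ℤ) ≤ 3) (by exact_mod_cast cast_zero.1 h2)
        (by exact_mod_cast cast_zero.1 h3)
  · rintro ⟨x, y⟩ z hc h
    have h0 : x ^ 2 + x * y + y ^ 2 = z ^ 2 := by
      have : qf 1 1 (x, y) = x ^ 2 + x * y + y ^ 2 := by
        simp only [qf]
        ring
      rw [← this, h]
    refine ⟨fun hz => ?_, fun hz => ?_, fun hz => ?_⟩
    · have h1 := castn (n := 2) (e := 1) (k := 1) (x := x) (y := y) (z := z)
        (by linear_combination h0) (by exact_mod_cast hz)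
      obtain ⟨h2, h3⟩ := z2a (x : ZMod 2) (y : ZMod 2) (by
        push_cast at h1
        linear_combination h1)
      exact not_cop hc le_rfl (by exact_mod_cast cast_zero.1 h2)
        (by exact_mod_cast cast_zero.1 h3)
    · have h1 := castn (n := 3) (e := 1) (k := 1) (x := x) (y := y) (z := z)
        (by linear_combination h0) (by exact_mod_cast hz)
      have h2 := z3b (x : ZMod 3) (y : ZMod 3) (by
        push_cast at h1
        linear_combination h1)
      have h3 : (3 : ℤ) ∣ x - y := by
        have h4 : (((x - y : ℤ)) : ZMod 3) = 0 := by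
          push_cast
          exact h2
        exact_mod_cast cast_zero.1 h4
      obtain ⟨c, hcc⟩ := h3
      obtain ⟨w, rfl⟩ := hz
      have h5 : x = y + 3 * c := by linarith
      subst h5
      have h6 : y ^ 2 = 3 * (w ^ 2 - c * y - c ^ 2) := by nlinarith
      have h7 : (3 : ℤ) ∣ y := Int.prime_three.dvd_of_dvd_pow ⟨_, h6⟩
      exact not_cop hc (by norm_num : (2 : ℤ) ≤ 3) (Dvd.dvd.add h7 ⟨c, rfl⟩) h7
    · have h1 := castn (n := 5) (e := 1) (k := 1) (x := x) (y := y) (z := z)
        (by linear_combination h0) (by exact_mod_cast hz)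
      obtain ⟨h2, h3⟩ := z5 (x : ZMod 5) (y : ZMod 5) (by
        push_cast at h1
        linear_combination h1)
      exact not_cop hc (by norm_num : (2 : ℤ) ≤ 5) (by exact_mod_cast cast_zero.1 h2)
        (by exact_mod_cast cast_zero.1 h3)
  · intro e k he hD hF
    rcases le_or_gt 17 (4 * k - e) with h17 | h17
    · left
      rintro ⟨x, y⟩ z hz hc h rfl
      have h0 : x ^ 2 + e * x * y + k * y ^ 2 = 4 := by
        have := h
        simp only [qf] at this
        push_cast at this
        linarith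
      have hee : e * e = e := by rcases he with rfl | rfl <;> norm_num
      have h1 : (2 * x + e * y) ^ 2 + (4 * k - e) * y ^ 2 = 16 := by
        have : (2 * x + e * y) ^ 2 + (4 * k - e) * y ^ 2 =
          4 * (x ^ 2 + e * x * y + k * y ^ 2) + (e * e - e) * y ^ 2 := by ring
        rw [this, h0, hee]
        ring
      have hy : y = 0 := by
        by_contra hy
        have h2 : 1 ≤ y ^ 2 := by
          have := sq_pos_of_ne_zero hy  
          omega
        nlinarith [sq_nonneg (2 * x + e * y)]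
      subst hy
      have h3 : x ^ 2 = 4 := by nlinarith
      have h4 : (2 : ℤ) ∣ x := Int.prime_two.dvd_of_dvd_pow (n := 2) ⟨2, by rw [h3]; norm_num⟩
      exact not_cop hc le_rfl h4 (dvd_zero _)
    · rcases he with rfl | rfl
      · have hk : k = 2 ∨ k = 3 ∨ k = 4 := by omega
        rcases hk with rfl | rfl | rfl
        · left
          rintro ⟨x, y⟩ z hz hc h rfl
          have h0 : x ^ 2 + 2 * y ^ 2 = 4 * 1 := by
            have := h
            simp only [qf] at this
            push_cast at this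
            linarith
          obtain ⟨h1, h2⟩ := b2 h0
          exact not_cop hc le_rfl h1 h2
        · exact absurd ⟨2, 1, 1, by norm_num, Or.inr rfl, by norm_num⟩ hF
        · exact absurd ⟨2, 0, 1, by norm_num, Or.inl rfl, by norm_num⟩ hF
      · have hk : k = 2 ∨ k = 3 ∨ k = 4 := by omega
        rcases hk with rfl | rfl | rfl
        · right
          rintro ⟨x, y⟩ z hz hc h h3z
          have h1 := castn (n := 3) (e := 1) (k := 2) (x := x) (y := y) (z := z)
            h (by exact_mod_cast h3z)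
          obtain ⟨h2, h3⟩ := z3c (x : ZMod 3) (y : ZMod 3) (by
            push_cast at h1
            linear_combination h1)
          exact not_cop hc (by norm_num : (2 : ℤ) ≤ 3) (by exact_mod_cast cast_zero.1 h2)
            (by exact_mod_cast cast_zero.1 h3)
        · left
          rintro ⟨x, y⟩ z hz hc h rfl
          have h1 := castn (n := 2) (e := 1) (k := 3) (x := x) (y := y) (z := 2)
            h (by norm_num)
          obtain ⟨h2, h3⟩ := z2b (x : ZMod 2) (y : ZMod 2) (by
            push_cast at h1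
            linear_combination h1)
          exact not_cop hc le_rfl (by exact_mod_cast cast_zero.1 h2)
            (by exact_mod_cast cast_zero.1 h3)
        · right
          rintro ⟨x, y⟩ z hz hc h h3z
          have h1 := castn (n := 3) (e := 1) (k := 4) (x := x) (y := y) (z := z)
            h (by exact_mod_cast h3z)
          have h2 := z3d (x : ZMod 3) (y : ZMod 3) (by
            push_cast at h1
            linear_combination h1)
          have h3 : (3 : ℤ) ∣ x - y := by
            have h4 : (((x - y : ℤ)) : ZMod 3) = 0 := by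
              push_cast
              exact h2
            exact_mod_cast cast_zero.1 h4
          obtain ⟨c, hcc⟩ := h3
          obtain ⟨w, rfl⟩ := h3z
          have h5 : x = y + 3 * c := by linarith
          subst h5
          have h0 : (y + 3 * c) ^ 2 + 1 * (y + 3 * c) * y + 4 * y ^ 2 = (3 * (w : ℤ)) ^ 2 := by
            have := h
            simp only [qf] at this
            push_cast at this
            exact this
          have h6 : y ^ 2 = 3 * (w ^ 2 - c * y - c ^ 2 - y ^ 2 + y ^ 2 - (y ^ 2 - y ^ 2) ) -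
              y ^ 2 := by nlinarith
          have h7 : (3 : ℤ) ∣ 2 * y ^ 2 := ⟨w ^ 2 - c * y - c ^ 2, by linarith⟩
          have h8 : (3 : ℤ) ∣ y ^ 2 := by
            rcases Int.prime_three.dvd_or_dvd h7 with h9 | h9
            · norm_num at h9
            · exact h9
          have h9 : (3 : ℤ) ∣ y := Int.prime_three.dvd_of_dvd_pow h8
          exact not_cop hc (by norm_num : (2 : ℤ) ≤ 3) (Dvd.dvd.add h9 ⟨c, rfl⟩) h9

end Pool.Agent.K6.H56.TL.LOC
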