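import Pool.Agent.K6.H56.TL.Stm

set_option autoImplicit false

open scoped BigOperators ComplexConjugate
open Finset Filter

namespace Pool.Agent.K6.H56.TL.LOW

noncomputable def G (x0 x1 x2 : ℂ) : ℝ × ℂ := (‖x1 - x0‖ ^ 2, (x1 - x0) * conj (x2 - x0))

open Classical in
noncomputable def E6 (p q r : ℂ) : Finset (ℝ × ℂ) :=
  {G p q r, G p r q, G q p r, G q r p, G r p q, G r q p}

open Classical in
noncomputable def D (p q r : ℂ) : Finset (ℝ × ℂ) :=
  E6 p q r ∪ (E6 p q r).image (fun x => (x.1, conj x.2))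

lemma card_D (p q r : ℂ) : (D p q r).card ≤ 12 := by
  classical
  unfold D
  refine (Finset.card_union_le _ _).trans ?_
  have h1 : (E6 p q r).card ≤ 6 := Finset.card_le_six
  have h2 : ((E6 p q r).image (fun x => (x.1, conj x.2))).card ≤ (E6 p q r).card :=
    Finset.card_image_le
  omega

lemma phi_add (a b : ℂ) (v w : V) : phi a b (v + w) = phi a b v + phi a b w := by
  simp only [phi, Prod.fst_add, Prod.snd_add, Int.cast_add]
  ring

lemma G_iso1 {f : ℂ → ℂ} {u c : ℂ} (hu : ‖u‖ = 1) (hf : ∀ z, f z = u * z + c) (x0 x1 x2 : ℂ) :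
    G (f x0) (f x1) (f x2) = G x0 x1 x2 := by
  have hu2 : u * conj u = 1 := by
    rw [Complex.mul_conj, Complex.normSq_eq_norm_sq, hu]
    simp
  unfold G
  have h1 : f x1 - f x0 = u * (x1 - x0) := by rw [hf, hf]; ring
  have h2 : f x2 - f x0 = u * (x2 - x0) := by rw [hf, hf]; ring
  rw [h1, h2, norm_mul, hu, one_mul, map_mul]
  congr 1
  linear_combination (x1 - x0) * conj (x2 - x0) * hu2

lemma G_iso2 {f : ℂ → ℂ} {u c : ℂ} (hu : ‖u‖ = 1) (hf : ∀ z, f z = u * conj z + c)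
    (x0 x1 x2 : ℂ) :
    G (f x0) (f x1) (f x2) = ((G x0 x1 x2).1, conj (G x0 x1 x2).2) := by
  have hu2 : u * conj u = 1 := by
    rw [Complex.mul_conj, Complex.normSq_eq_norm_sq, hu]
    simp
  unfold G
  have h1 : f x1 - f x0 = u * conj (x1 - x0) := by rw [hf, hf, map_sub]; ring
  have h2 : f x2 - f x0 = u * conj (x2 - x0) := by rw [hf, hf, map_sub]; ring
  rw [h1, h2, norm_mul, hu, one_mul, RCLike.norm_conj]
  simp only [map_mul, Complex.conj_conj]
  congr 1
  linear_combination conj (x1 - x0) * (x2 - x0) * hu2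

lemma perm_of_eq {a b c p q r : ℂ} (h : ({a, b, c} : Set ℂ) = {p, q, r}) (hpq : p ≠ q)
    (hpr : p ≠ r) (hqr : q ≠ r) :
    (p = a ∧ q = b ∧ r = c) ∨ (p = a ∧ q = c ∧ r = b) ∨ (p = b ∧ q = a ∧ r = c) ∨
    (p = b ∧ q = c ∧ r = a) ∨ (p = c ∧ q = a ∧ r = b) ∨ (p = c ∧ q = b ∧ r = a) := by
  have hp : p ∈ ({a, b, c} : Set ℂ) := by rw [h]; simp
  have hq : q ∈ ({a, b, c} : Set ℂ) := by rw [h]; simp
  have hr : r ∈ ({a, b, c} : Set ℂ) := by rw [h]; simp
  simp only [Set.mem_insert_iff, Set.mem_singleton_iff] at hp hq hr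
  rcases hp with hp | hp | hp <;> rcases hq with hq | hq | hq <;> rcases hr with hr | hr | hr <;>
    first
    | exact absurd (hp.trans hq.symm) hpq
    | exact absurd (hp.trans hr.symm) hpr
    | exact absurd (hq.trans hr.symm) hqr
    | tauto

lemma mem_sec {a b : ℂ} {n : ℕ} {p : V} (h : InB (sq n) p) : phi a b p ∈ sec a b n := by
  obtain ⟨h1, h2, h3, h4⟩ := h
  have e1 : ((p.1.toNat : ℕ) : ℤ) = p.1 := Int.toNat_of_nonneg h1
  have e2 : ((p.2.toNat : ℕ) : ℤ) = p.2 := Int.toNat_of_nonneg h3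
  refine ⟨p.1.toNat, p.2.toNat, ?_, ?_, ?_⟩
  · rw [← Nat.lt_ceil]
    have : ((p.1.toNat : ℕ) : ℤ) < (sq n : ℤ) := by rw [e1]; exact h2
    exact_mod_cast this
  · rw [← Nat.lt_ceil]
    have : ((p.2.toNat : ℕ) : ℤ) < (sq n : ℤ) := by rw [e2]; exact h4
    exact_mod_cast this
  · unfold phi
    have e1' : ((p.1.toNat : ℕ) : ℂ) = (p.1 : ℂ) := by exact_mod_cast congrArg (Int.cast : ℤ → ℂ) e1
    have e2' : ((p.2.toNat : ℕ) : ℂ) = (p.2 : ℂ) := by exact_mod_cast congrArg (Int.cast : ℤ → ℂ) e2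
    rw [e1', e2']

lemma sec_finite (a b : ℂ) (n : ℕ) : (sec a b n).Finite := by
  have : sec a b n ⊆ (fun x : ℕ × ℕ => (x.1 : ℂ) * a + x.2 * b) ''
      (((Finset.range (sq n)) ×ˢ (Finset.range (sq n)) : Finset (ℕ × ℕ)) : Set (ℕ × ℕ)) := by
    rintro z ⟨u, v, hu, hv, rfl⟩
    refine ⟨(u, v), ?_, rfl⟩
    simp only [Finset.coe_product, Set.mem_prod, Finset.coe_range, Set.mem_Iio]
    exact ⟨Nat.lt_ceil.2 hu, Nat.lt_ceil.2 hv⟩
  exact (Set.Finite.image _ (Finset.finite_toSet _)).subset this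

lemma tris_finite (a b : ℂ) (n : ℕ) : (tris (sec a b n)).Finite := by
  apply (sec_finite a b n).finite_subsets.subset
  intro t ht
  exact ht.1

lemma cong_refl (s : Set ℂ) : Cong s s := by
  refine ⟨IsometryEquiv.refl ℂ, ?_⟩
  ext z
  constructor
  · rintro ⟨x, hx, h⟩
    have h' : x = z := h
    rw [← h']
    exact hx
  · intro h
    exact ⟨z, h, rfl⟩

theorem t_LOW (hI : S_ISO) (hC : S_COL) : S_LOW := by
  classical
  intro a b hab n
  set P := sec a b n with hP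
  set cls : Set ℂ → Set (Set ℂ) := fun t => {s | s ∈ tris P ∧ Cong t s} with hcls
  set CC : Set (Set (Set ℂ)) := {c : Set (Set ℂ) | ∃ t ∈ tris P, c = {s | s ∈ tris P ∧ Cong t s}}
    with hCC
  have hCCf : CC.Finite := by
    have : CC ⊆ cls '' (tris P) := by
      rintro c ⟨t, ht, rfl⟩
      exact ⟨t, ht, rfl⟩
    exact ((tris_finite a b n).image cls).subset this
  have hrep : ∀ c ∈ CC, ∃ x : ℂ × ℂ × ℂ, ({x.1, x.2.1, x.2.2} : Set ℂ) ∈ tris P ∧
      c = cls {x.1, x.2.1, x.2.2} := by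
    rintro c ⟨t, ht, rfl⟩
    obtain ⟨p, q, r, rfl, hcol⟩ := ht.2
    exact ⟨(p, q, r), ht, rfl⟩
  choose! rep hrep1 hrep2 using hrep
  have hsub : (((F (sq n)).filter (fun t => det t ≠ 0)).image (gg a b)) ⊆
      hCCf.toFinset.biUnion fun c => D (rep c).1 (rep c).2.1 (rep c).2.2 := by
    intro g hg
    obtain ⟨t, ht, rfl⟩ := Finset.mem_image.1 hg
    obtain ⟨htF, hdet⟩ := Finset.mem_filter.1 ht
    have hfit : Fit (sq n) t := (Finset.mem_filter.1 htF).2
    obtain ⟨p, h0, h1, h2⟩ := hfit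
    have m0 := mem_sec (a := a) (b := b) h0
    have m1 := mem_sec (a := a) (b := b) h1
    have m2 := mem_sec (a := a) (b := b) h2
    set P0 := phi a b p with hP0
    set P1 := phi a b (p + t.1) with hP1
    set P2 := phi a b (p + t.2) with hP2
    have d1 : P1 - P0 = phi a b t.1 := by rw [hP1, hP0, phi_add]; ring
    have d2 : P2 - P0 = phi a b t.2 := by rw [hP2, hP0, phi_add]; ring
    have hncol : ¬ Collinear ℝ ({P0, P1, P2} : Set ℂ) := by
      rw [hC.1, d1, d2, hC.2.2]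
      apply mul_ne_zero
      · exact_mod_cast hdet
      · exact (hC.2.1 a b).1 hab
    have hst : ({P0, P1, P2} : Set ℂ) ∈ tris P := by
      refine ⟨?_, P0, P1, P2, rfl, hncol⟩
      intro z hz
      simp only [Set.mem_insert_iff, Set.mem_singleton_iff] at hz
      rcases hz with rfl | rfl | rfl
      · exact m0
      · exact m1
      · exact m2
    have n01 : P0 ≠ P1 := by
      intro h
      apply hncol
      rw [hC.1, h]
      simp
    have n02 : P0 ≠ P2 := by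
      intro h
      apply hncol
      rw [hC.1, h]
      simp
    have n12 : P1 ≠ P2 := by
      intro h
      apply hncol
      rw [hC.1, h]
      rw [mul_comm, Complex.mul_conj]
      simp
    have hc : cls {P0, P1, P2} ∈ CC := ⟨_, hst, rfl⟩
    refine Finset.mem_biUnion.2 ⟨cls {P0, P1, P2}, hCCf.mem_toFinset.2 hc, ?_⟩
    have k1 : ({P0, P1, P2} : Set ℂ) ∈ cls {P0, P1, P2} := ⟨hst, cong_refl _⟩
    have k2 := hrep2 _ hc
    rw [k2] at k1
    obtain ⟨_, f, hf⟩ := k1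
    set x := rep (cls {P0, P1, P2}) with hx
    rw [Set.image_insert_eq, Set.image_insert_eq, Set.image_singleton] at hf
    have hperm := perm_of_eq hf n01 n02 n12
    have hgg : gg a b t = G P0 P1 P2 := by
      unfold gg G
      rw [d1, d2]
    rw [hgg]
    unfold D
    obtain ⟨c, u, hu, hf1 | hf2⟩ := hI f
    · apply Finset.mem_union_left
      unfold E6
      simp only [Finset.mem_insert, Finset.mem_singleton]
      rcases hperm with ⟨e1, e2, e3⟩ | ⟨e1, e2, e3⟩ | ⟨e1, e2, e3⟩ | ⟨e1, e2, e3⟩ |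
        ⟨e1, e2, e3⟩ | ⟨e1, e2, e3⟩ <;> rw [e1, e2, e3, G_iso1 hu hf1] <;> simp
    · apply Finset.mem_union_right
      rw [Finset.mem_image]
      unfold E6
      rcases hperm with ⟨e1, e2, e3⟩ | ⟨e1, e2, e3⟩ | ⟨e1, e2, e3⟩ | ⟨e1, e2, e3⟩ |
        ⟨e1, e2, e3⟩ | ⟨e1, e2, e3⟩ <;> rw [e1, e2, e3, G_iso2 hu hf2] <;>
        exact ⟨_, by simp, rfl⟩
  have hT : T P = hCCf.toFinset.card := by
    unfold T
    exact Set.ncard_eq_toFinset_card _ hCCf
  rw [hT]
  calc _ ≤ _ := Finset.card_le_card hsub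
    _ ≤ ∑ c ∈ hCCf.toFinset, (D (rep c).1 (rep c).2.1 (rep c).2.2).card := Finset.card_biUnion_le
    _ ≤ ∑ c ∈ hCCf.toFinset, 12 := Finset.sum_le_sum fun c _ => card_D _ _ _
    _ = 12 * hCCf.toFinset.card := by rw [Finset.sum_const, smul_eq_mul, mul_comm]

end Pool.Agent.K6.H56.TL.LOW
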