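import Pool.Agent.K6.H56.TL.Stm

/-!
MP_047cd2_co: pieces NT4, NT3, 34 of `call56b` (sums of `1/z²` over primitive representations of squares
by the norm forms of `ℤ[i]` and `ℤ[ω]`).  Written by helper92.
-/

set_option autoImplicit false

open scoped BigOperators ComplexConjugate
open Finset Filter

namespace Pool.Agent.K6.H56.TL.NT43

open Pool.Agent.K6.H56.TL

theorem sum2 (hS : S_SUM) (hE : S_EXC) : ∀ Φ : Finset ℕ, (∀ n ∈ Φ, 0 < n ∧ ¬ 2 ∣ n) →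
    ∑ n ∈ Φ, fw n ≤ 3 / 2 := by
  intro Φ hΦ
  have := hE (fun _ => True) (5 / 2) 2 Nat.prime_two (fun _ _ _ => trivial)
    (fun Φ h => hS Φ (fun n hn => (h n hn).1)) Φ (fun n hn => ⟨(hΦ n hn).1, trivial, (hΦ n hn).2⟩)
  norm_num at this
  linarith

theorem sum23 (hS : S_SUM) (hE : S_EXC) : ∀ Φ : Finset ℕ,
    (∀ n ∈ Φ, 0 < n ∧ (¬ 2 ∣ n ∧ ¬ 3 ∣ n)) → ∑ n ∈ Φ, fw n ≤ 6 / 5 := by
  intro Φ hΦ
  have := hE (fun n => ¬ 2 ∣ n) (3 / 2) 3 Nat.prime_three (fun n k hn h => by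
      rcases Nat.prime_two.dvd_mul.1 h with h | h
      · have := Nat.prime_two.dvd_of_dvd_pow h
        omega
      · exact hn h)
    (sum2 hS hE) Φ (fun n hn => ⟨(hΦ n hn).1, (hΦ n hn).2.1, (hΦ n hn).2.2⟩)
  norm_num at this
  linarith

theorem sum235 (hS : S_SUM) (hE : S_EXC) : ∀ Φ : Finset ℕ,
    (∀ n ∈ Φ, 0 < n ∧ (¬ 2 ∣ n ∧ ¬ 3 ∣ n ∧ ¬ 5 ∣ n)) → ∑ n ∈ Φ, fw n ≤ 72 / 65 := by
  intro Φ hΦ
  have := hE (fun n => ¬ 2 ∣ n ∧ ¬ 3 ∣ n) (6 / 5) 5 Nat.prime_five (fun n k hn => by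
      refine ⟨fun h => ?_, fun h => ?_⟩
      · rcases Nat.prime_two.dvd_mul.1 h with h | h
        · have := Nat.prime_two.dvd_of_dvd_pow h
          omega
        · exact hn.1 h
      · rcases Nat.prime_three.dvd_mul.1 h with h | h
        · have := Nat.prime_three.dvd_of_dvd_pow h
          omega
        · exact hn.2 h)
    (sum23 hS hE) Φ (fun n hn => ⟨(hΦ n hn).1, ⟨(hΦ n hn).2.1, (hΦ n hn).2.2.1⟩, (hΦ n hn).2.2.2⟩)
  norm_num at this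
  linarith

theorem loc4 (hL : S_LOC) (v : V) (z : ℕ) (hv : IsCoprime v.1 v.2) (hz : qf 0 1 v = (z : ℤ) ^ 2) :
    ¬ 2 ∣ z ∧ ¬ 3 ∣ z := by
  obtain ⟨h1, h2⟩ := hL.1 v z hv hz
  exact ⟨fun h => h1 (by exact_mod_cast Int.natCast_dvd_natCast.2 h),
    fun h => h2 (by exact_mod_cast Int.natCast_dvd_natCast.2 h)⟩

theorem loc3 (hL : S_LOC) (v : V) (z : ℕ) (hv : IsCoprime v.1 v.2) (hz : qf 1 1 v = (z : ℤ) ^ 2) :
    ¬ 2 ∣ z ∧ ¬ 3 ∣ z ∧ ¬ 5 ∣ z := by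
  obtain ⟨h1, h2, h3⟩ := hL.2.1 v z hv hz
  exact ⟨fun h => h1 (by exact_mod_cast Int.natCast_dvd_natCast.2 h),
    fun h => h2 (by exact_mod_cast Int.natCast_dvd_natCast.2 h),
    fun h => h3 (by exact_mod_cast Int.natCast_dvd_natCast.2 h)⟩

theorem t_NT4 (h : S_CNT4) (hL : S_LOC) (hS : S_SUM) (hE : S_EXC) (hG : S_GRP) : S_NT4 := by
  intro Φ hΦ
  have := hG (qf 0 1) 4 (fun z => ¬ 2 ∣ z ∧ ¬ 3 ∣ z) (6 / 5) Φ
    (fun v hv => by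
      obtain ⟨hc, z, hz, hq⟩ := hΦ v hv
      exact ⟨z, hz, loc4 hL v z hc hq, hq⟩)
    (fun z hz => h z hz _ (fun v hv => by
      rw [Finset.mem_filter] at hv
      exact ⟨(hΦ v hv.1).1, hv.2⟩))
    (sum23 hS hE)
  norm_num at this ⊢
  linarith

theorem t_NT3 (h : S_CNT3) (hL : S_LOC) (hS : S_SUM) (hE : S_EXC) (hG : S_GRP) : S_NT3 := by
  intro Φ hΦ
  have := hG (qf 1 1) 6 (fun z => ¬ 2 ∣ z ∧ ¬ 3 ∣ z ∧ ¬ 5 ∣ z) (72 / 65) Φ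
    (fun v hv => by
      obtain ⟨hc, z, hz, hq⟩ := hΦ v hv
      exact ⟨z, hz, loc3 hL v z hc hq, hq⟩)
    (fun z hz => h z hz _ (fun v hv => by
      rw [Finset.mem_filter] at hv
      exact ⟨(hΦ v hv.1).1, hv.2⟩))
    (sum235 hS hE)
  norm_num at this ⊢
  linarith

theorem t_34 (h : S_CNTF) (hL : S_LOC) (hS : S_SUM) (hE : S_EXC) (hG : S_GRP) : S_34 := by
  intro f hf
  refine ⟨fun Φ hΦ hd => ?_, fun Φ hΦ hd => ?_⟩
  · have := hG (qf 0 1) 2 (fun z => ¬ 2 ∣ z ∧ ¬ 3 ∣ z) (6 / 5) Φ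
      (fun v hv => by
        obtain ⟨hc, z, hz, hq⟩ := hΦ v hv
        exact ⟨z, hz, loc4 hL v z hc hq, hq⟩)
      (fun z hz => h 0 f (Or.inl rfl) hf z hz _ (fun v hv => by
        rw [Finset.mem_filter] at hv
        exact ⟨(hΦ v hv.1).1, hv.2, hd v hv.1⟩))
      (sum23 hS hE)
    norm_num at this ⊢
    linarith
  · have := hG (qf 1 1) 2 (fun z => ¬ 2 ∣ z ∧ ¬ 3 ∣ z ∧ ¬ 5 ∣ z) (72 / 65) Φ
      (fun v hv => by
        obtain ⟨hc, z, hz, hq⟩ := hΦ v hv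
        exact ⟨z, hz, loc3 hL v z hc hq, hq⟩)
      (fun z hz => h 1 f (Or.inr rfl) hf z hz _ (fun v hv => by
        rw [Finset.mem_filter] at hv
        exact ⟨(hΦ v hv.1).1, hv.2, hd v hv.1⟩))
      (sum235 hS hE)
    norm_num at this ⊢
    linarith

end Pool.Agent.K6.H56.TL.NT43
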