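import Pool.Agent.K6.H56.TL.Stm

/-! # All discriminants at most `-7` -/

set_option autoImplicit false

open scoped BigOperators
open Finset

namespace Pool.Agent.K6.H56.TL.NT7

theorem exists_fund : ∀ (n : ℕ) (e k : ℤ), (e = 0 ∨ e = 1) → 0 < 4 * k - e →
    4 * k - e ≤ n → ∃ f e0 k0 : ℤ, 1 ≤ f ∧ (e0 = 0 ∨ e0 = 1) ∧ 0 < 4 * k0 - e0 ∧
      4 * k - e = f ^ 2 * (4 * k0 - e0) ∧ Fund e0 k0 := by
  intro n
  induction n with
  | zero =>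
    intro e k _ h1 h2
    push_cast at h2
    omega
  | succ n ih =>
    intro e k he h1 h2
    by_cases hF : Fund e k
    · exact ⟨1, e, k, le_rfl, he, h1, by ring, hF⟩
    · unfold Fund at hF
      push Not at hF
      obtain ⟨f, e', k', hf, he', hD⟩ := hF
      have hf2 : 4 ≤ f ^ 2 := by nlinarith
      have hpos : 0 < 4 * k' - e' := by
        by_contra h
        push Not at h
        nlinarith
      have hlt : 4 * k' - e' ≤ n := by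
        push_cast at h2
        nlinarith
      obtain ⟨f'', e0, k0, h3, h4, h5, h6, h7⟩ := ih e' k' he' hpos hlt
      refine ⟨f * f'', e0, k0, by nlinarith, h4, h5, ?_, h7⟩
      rw [hD, h6]
      ring

theorem part {e k e0 k0 : ℤ} {Φ : Finset V} {h : V → V} {g : V → ℕ}
    (hinj : Set.InjOn h (Φ : Set V))
    (hh : ∀ v ∈ Φ, 0 < g v ∧ IsCoprime (h v).1 (h v).2 ∧
      (∃ z : ℕ, 0 < z ∧ qf e0 k0 (h v) = (z : ℤ) ^ 2) ∧
      qf e k v = (g v : ℤ) ^ 2 * qf e0 k0 (h v))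
    (Ψ : Finset V) (hΨ : Ψ ⊆ Φ) (c : ℕ) (hc : 0 < c) (hcg : ∀ v ∈ Ψ, c ≤ g v) (B : ℝ)
    (hB : ∀ Ψ' : Finset V, Adm e0 k0 Ψ' → (∀ u ∈ Ψ', ∃ v ∈ Ψ, h v = u) →
      ∑ u ∈ Ψ', 1 / (qf e0 k0 u : ℝ) ≤ B) :
    ∑ v ∈ Ψ, 1 / (qf e k v : ℝ) ≤ 1 / (c : ℝ) ^ 2 * B := by
  classical
  have hA : Adm e0 k0 (Ψ.image h) := by
    intro u hu
    obtain ⟨v, hv, rfl⟩ := Finset.mem_image.1 hu
    exact ⟨(hh v (hΨ hv)).2.1, (hh v (hΨ hv)).2.2.1⟩
  have h1 := hB (Ψ.image h) hA (fun u hu => by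
    obtain ⟨v, hv, rfl⟩ := Finset.mem_image.1 hu
    exact ⟨v, hv, rfl⟩)
  rw [Finset.sum_image (fun x hx y hy hxy => hinj (hΨ hx) (hΨ hy) hxy)] at h1
  have hc' : (0 : ℝ) < c := by exact_mod_cast hc
  calc ∑ v ∈ Ψ, 1 / (qf e k v : ℝ) ≤ ∑ v ∈ Ψ, 1 / (c : ℝ) ^ 2 * (1 / (qf e0 k0 (h v) : ℝ)) := by
        refine Finset.sum_le_sum fun v hv => ?_
        obtain ⟨h2, -, ⟨z, hz, hqz⟩, h3⟩ := hh v (hΨ hv)
        have h4 : (qf e k v : ℝ) = (g v : ℝ) ^ 2 * (qf e0 k0 (h v) : ℝ) := by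
          rw [h3]
          push_cast
          ring
        have h5 : (0 : ℝ) < (qf e0 k0 (h v) : ℝ) := by
          rw [hqz]
          have : (0 : ℝ) < z := by exact_mod_cast hz
          push_cast
          positivity
        have h6 : (c : ℝ) ≤ g v := by exact_mod_cast hcg v hv
        rw [h4, one_div_mul_one_div]
        refine one_div_le_one_div_of_le (by positivity) ?_
        gcongr
    _ = 1 / (c : ℝ) ^ 2 * ∑ v ∈ Ψ, 1 / (qf e0 k0 (h v) : ℝ) := by rw [Finset.mul_sum]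
    _ ≤ 1 / (c : ℝ) ^ 2 * B := by gcongr

theorem split {e k e0 k0 f : ℤ} {Φ : Finset V} {h : V → V} {g : V → ℕ}
    (hinj : Set.InjOn h (Φ : Set V))
    (hh : ∀ v ∈ Φ, 0 < g v ∧ IsCoprime (h v).1 (h v).2 ∧
      (∃ z : ℕ, 0 < z ∧ qf e0 k0 (h v) = (z : ℤ) ^ 2) ∧
      qf e k v = (g v : ℤ) ^ 2 * qf e0 k0 (h v) ∧ (g v = 1 → f ∣ (h v).2))
    (B1 B2 : ℝ) (hB1 : ∀ Ψ' : Finset V, Adm e0 k0 Ψ' → (∀ u ∈ Ψ', f ∣ u.2) →
      ∑ u ∈ Ψ', 1 / (qf e0 k0 u : ℝ) ≤ B1)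
    (hB2 : ∀ Ψ' : Finset V, Adm e0 k0 Ψ' → ∑ u ∈ Ψ', 1 / (qf e0 k0 u : ℝ) ≤ B2) :
    ∑ v ∈ Φ, 1 / (qf e k v : ℝ) ≤ B1 + 1 / 4 * B2 := by
  classical
  have hh' : ∀ v ∈ Φ, 0 < g v ∧ IsCoprime (h v).1 (h v).2 ∧
      (∃ z : ℕ, 0 < z ∧ qf e0 k0 (h v) = (z : ℤ) ^ 2) ∧
      qf e k v = (g v : ℤ) ^ 2 * qf e0 k0 (h v) := fun v hv =>
    ⟨(hh v hv).1, (hh v hv).2.1, (hh v hv).2.2.1, (hh v hv).2.2.2.1⟩
  have h1 := part hinj hh' (Φ.filter (fun v => g v = 1)) (Finset.filter_subset _ _) 1 one_pos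
    (fun v hv => (Finset.mem_filter.1 hv).2.ge) B1 (fun Ψ' hA hu => hB1 Ψ' hA fun u hu' => by
      obtain ⟨v, hv, rfl⟩ := hu u hu'
      obtain ⟨hv1, hv2⟩ := Finset.mem_filter.1 hv
      exact (hh v hv1).2.2.2.2 hv2)
  have h2 := part hinj hh' (Φ.filter (fun v => ¬ g v = 1)) (Finset.filter_subset _ _) 2
    two_pos (fun v hv => by
      obtain ⟨hv1, hv2⟩ := Finset.mem_filter.1 hv
      have := (hh v hv1).1
      omega) B2 (fun Ψ' hA _ => hB2 Ψ' hA)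
  rw [← Finset.sum_filter_add_sum_filter_not Φ (fun v => g v = 1)]
  norm_num at h1 h2
  norm_num
  linarith

theorem t_NT7 (hF : S_FUND) (hR : S_RED) (h34 : S_34) (h4 : S_NT4) (h3 : S_NT3) : S_NT7 := by
  intro e k he hD Φ hΦ
  obtain ⟨f, e0, k0, hf, he0, hpos, hDf, hFu⟩ := exists_fund (4 * k - e).toNat e k he
    (by omega) (by omega)
  obtain ⟨h, g, hinj, hh⟩ := hR e k e0 k0 f he he0 hpos hf hDf Φ hΦ
  rcases le_or_gt 7 (4 * k0 - e0) with h7 | h7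
  · have h1 := part hinj (fun v hv =>
      ⟨(hh v hv).1, (hh v hv).2.1, (hh v hv).2.2.1, (hh v hv).2.2.2.1⟩) Φ (subset_refl _) 1
      one_pos (fun v hv => (hh v hv).1) 4 (fun Ψ' hA _ => hF e0 k0 he0 h7 hFu Ψ' hA)
    norm_num at h1
    norm_num
    exact h1
  · have hf2 : 2 ≤ f := by
      by_contra hcon
      have : f = 1 := by omega
      subst this
      omega
    have hk0 : k0 = 1 := by omega
    subst hk0
    obtain ⟨h34a, h34b⟩ := h34 f hf2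
    rcases he0 with rfl | rfl
    · have := split hinj hh (12 / 5) (24 / 5) h34a h4
      linarith
    · have := split hinj hh (144 / 65) (432 / 65) h34b h3
      linarith

end Pool.Agent.K6.H56.TL.NT7
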