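import Pool.Agent.K6.H56.TL.Stm

/-!
# Piece RED (helper84): reduction of the forms to a fundamental discriminant
-/

set_option autoImplicit false

open Finset Filter

namespace Pool.Agent.K6.H56.TL.RED

theorem t_RED : S_RED := by
  intro e k e0 k0 f he he0 hD hf hk Φ hΦ
  have he2 : e ^ 2 = e := by rcases he with rfl | rfl <;> norm_num
  have he02 : e0 ^ 2 = e0 := by rcases he0 with rfl | rfl <;> norm_num
  let x1 : V → ℤ := fun v => (2 * v.1 + e * v.2 - e0 * (f * v.2)) / 2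
  let Y : V → ℤ := fun v => f * v.2
  let g : V → ℕ := fun v => Int.gcd (x1 v) (Y v)
  let h : V → V := fun v => (x1 v / (g v : ℤ), Y v / (g v : ℤ))
  have hx1 : ∀ v ∈ Φ, 2 * x1 v = 2 * v.1 + e * v.2 - e0 * (f * v.2) := by
    intro v hv
    obtain ⟨-, z, -, hz⟩ := hΦ v hv
    simp only [qf] at hz
    have h2 : (2 : ℤ) ∣ (2 * v.1 + e * v.2 - e0 * (f * v.2)) ^ 2 := by
      refine ⟨2 * (z : ℤ) ^ 2 - 2 * k0 * (f * v.2) ^ 2 + e0 * (f * v.2) ^ 2
        - e0 * (2 * v.1 + e * v.2) * (f * v.2), ?_⟩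
      linear_combination 4 * hz + v.2 ^ 2 * he2 - v.2 ^ 2 * hk + (f * v.2) ^ 2 * he02
    have h3 := Int.prime_two.dvd_of_dvd_pow h2
    exact Int.mul_ediv_cancel' h3
  have hq : ∀ v ∈ Φ, qf e0 k0 (x1 v, Y v) = qf e k v := by
    intro v hv
    have h1 := hx1 v hv
    have h4 : 4 * qf e0 k0 (x1 v, Y v) = 4 * qf e k v := by
      show 4 * (x1 v ^ 2 + e0 * x1 v * (f * v.2) + k0 * (f * v.2) ^ 2)
        = 4 * (v.1 ^ 2 + e * v.1 * v.2 + k * v.2 ^ 2)
      linear_combination (2 * x1 v + (2 * v.1 + e * v.2) + e0 * (f * v.2)) * h1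
        - v.2 ^ 2 * hk - (f * v.2) ^ 2 * he02 + v.2 ^ 2 * he2
    linarith
  have hg : ∀ v ∈ Φ, 0 < g v := by
    intro v hv
    obtain ⟨-, z, hz0, hz⟩ := hΦ v hv
    rcases Nat.eq_zero_or_pos (g v) with h0 | h0
    · exfalso
      obtain ⟨h1, h2⟩ := Int.gcd_eq_zero_iff.mp h0
      have h3 := hq v hv
      rw [h1, h2, hz] at h3
      simp only [qf] at h3
      have : (0 : ℤ) < (z : ℤ) ^ 2 := by positivity
      nlinarith
    · exact h0
  have hh1 : ∀ v, x1 v = (g v : ℤ) * (h v).1 := fun v =>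
    (Int.mul_ediv_cancel' (Int.gcd_dvd_left _ _)).symm
  have hh2 : ∀ v, Y v = (g v : ℤ) * (h v).2 := fun v =>
    (Int.mul_ediv_cancel' (Int.gcd_dvd_right _ _)).symm
  have hq2 : ∀ v ∈ Φ, qf e k v = (g v : ℤ) ^ 2 * qf e0 k0 (h v) := by
    intro v hv
    rw [← hq v hv]
    show (x1 v) ^ 2 + e0 * (x1 v) * (Y v) + k0 * (Y v) ^ 2
      = (g v : ℤ) ^ 2 * ((h v).1 ^ 2 + e0 * (h v).1 * (h v).2 + k0 * (h v).2 ^ 2)
    rw [hh1 v, hh2 v]
    ring
  refine ⟨h, g, ?_, ?_⟩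
  · intro v hv v' hv' hvv
    have hG : 0 < (g v : ℤ) := by exact_mod_cast hg v hv
    have hG' : 0 < (g v' : ℤ) := by exact_mod_cast hg v' hv'
    have a1 := hh1 v
    have a2 := hh2 v
    have a1' := hh1 v'
    have a2' := hh2 v'
    rw [← hvv] at a1' a2'
    have b1 := hx1 v hv
    have b1' := hx1 v' hv'
    have c2 : (g v' : ℤ) * v.2 = (g v : ℤ) * v'.2 := by
      have h5 : f * ((g v' : ℤ) * v.2) = f * ((g v : ℤ) * v'.2) := by
        have e1 : f * v.2 = (g v : ℤ) * (h v).2 := a2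
        have e2 : f * v'.2 = (g v' : ℤ) * (h v).2 := a2'
        linear_combination (g v' : ℤ) * e1 - (g v : ℤ) * e2
      exact mul_left_cancel₀ (by omega) h5
    have c1 : (g v' : ℤ) * v.1 = (g v : ℤ) * v'.1 := by
      have h5 : 2 * ((g v' : ℤ) * v.1) = 2 * ((g v : ℤ) * v'.1) := by
        linear_combination (-(g v' : ℤ)) * b1 + (g v : ℤ) * b1' + 2 * (g v' : ℤ) * a1
          - 2 * (g v : ℤ) * a1' - (e - e0 * f) * c2
      linarith
    obtain ⟨p1, -⟩ := hΦ v hv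
    obtain ⟨p1', -⟩ := hΦ v' hv'
    have q1 : Int.gcd v.1 v.2 = 1 := Int.isCoprime_iff_gcd_eq_one.mp p1
    have q1' : Int.gcd v'.1 v'.2 = 1 := Int.isCoprime_iff_gcd_eq_one.mp p1'
    have hgg : g v' = g v := by
      have h6 : Int.gcd ((g v' : ℤ) * v.1) ((g v' : ℤ) * v.2)
          = Int.gcd ((g v : ℤ) * v'.1) ((g v : ℤ) * v'.2) := by rw [c1, c2]
      rw [Int.gcd_mul_left, Int.gcd_mul_left, q1, q1'] at h6
      simpa using h6
    rw [hgg] at c1 c2
    have d1 : v.1 = v'.1 := mul_left_cancel₀ hG.ne' c1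
    have d2 : v.2 = v'.2 := mul_left_cancel₀ hG.ne' c2
    exact Prod.ext d1 d2
  · intro v hv
    obtain ⟨-, z, hz0, hz⟩ := hΦ v hv
    have hG : 0 < (g v : ℤ) := by exact_mod_cast hg v hv
    refine ⟨hg v hv, ?_, ?_, hq2 v hv, ?_⟩
    · rw [Int.isCoprime_iff_gcd_eq_one]
      exact Int.gcd_ediv_gcd_ediv_gcd (hg v hv)
    · have h7 := hq2 v hv
      rw [hz] at h7
      have h8 : ((g v : ℤ)) ^ 2 ∣ (z : ℤ) ^ 2 := ⟨_, h7⟩
      have h9 : ((g v : ℤ)) ∣ (z : ℤ) := (Int.pow_dvd_pow_iff (by norm_num)).mp h8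
      have h10 : g v ∣ z := by exact_mod_cast h9
      obtain ⟨w, hw⟩ := h10
      refine ⟨w, ?_, ?_⟩
      · rcases Nat.eq_zero_or_pos w with h0 | h0
        · rw [h0, mul_zero] at hw
          omega
        · exact h0
      · rw [hw] at h7
        push_cast at h7
        have h11 : (g v : ℤ) ^ 2 * qf e0 k0 (h v) = (g v : ℤ) ^ 2 * (w : ℤ) ^ 2 := by
          rw [← h7]; ring
        exact mul_left_cancel₀ (by positivity) h11
    · intro h1
      have := hh2 v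
      rw [h1] at this
      simp only [Nat.cast_one, one_mul] at this
      exact ⟨v.2, this.symm⟩

end Pool.Agent.K6.H56.TL.RED
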