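import Pool.Agent.K6.H56.TL.Stm

/-!
Piece `ROT` of the call `call56b` (MP_047cd2_co, statement of helper56, proof of helper95): growing
families of pairs of lattice vectors have at least `(U / A - ε) N⁴` values of the oriented Gram data.
-/

set_option autoImplicit false

open scoped BigOperators ComplexConjugate
open Finset Filter

namespace Pool.Agent.K6.H56.TL.ROT

open Pool.Agent.K6.H56.TL

/-- The final inequality between real numbers. -/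
theorem final_ineq {U A ε η c C C1 C2 n w s I P : ℝ} (hU : 0 < U) (hA : 0 < A) (hε : 0 < ε)
    (hc : 0 < c) (hη : η = ε * A ^ 2 / (16 * c)) (hn : 0 < n)
    (h1 : C + 2 * C2 ≤ ε * A / 2 * n) (h2 : C ≤ U / 2 * n) (h3 : C1 ≤ ε * A ^ 2 / 16 * n)
    (h4 : C2 ≤ U / 2 * n) 
    (hw : U * n ^ 4 - C * n ^ 3 ≤ w) (hs : w - C2 * n ^ 3 ≤ s)
    (hP : P ≤ A * w + C1 * n ^ 3 + η * (c * n ^ 4)) (hI0 : 0 ≤ I) (hP0 : 0 ≤ P)
    (hCS : s ^ 2 ≤ I * P) : (U / A - ε) * n ^ 4 ≤ I := by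
  by_contra hcon
  push Not at hcon
  have hn4 : 0 < n ^ 4 := by positivity
  set d : ℝ := 1 / n with hd
  have hdn : d * n = 1 := by rw [hd]; field_simp
  have hd0 : 0 < d := by rw [hd]; positivity
  have hd3 : n ^ 3 = d * n ^ 4 := by rw [hd]; field_simp
  set x : ℝ := w / n ^ 4 with hx
  have hwx : w = x * n ^ 4 := by rw [hx]; field_simp
  have k1 : (C + 2 * C2) * d ≤ ε * A / 2 := by
    have := mul_le_mul_of_nonneg_right h1 hd0.le
    calc (C + 2 * C2) * d ≤ ε * A / 2 * n * d := this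
      _ = ε * A / 2 := by rw [mul_assoc, mul_comm n d, hdn, mul_one]
  have k2 : C * d ≤ U / 2 := by
    have := mul_le_mul_of_nonneg_right h2 hd0.le
    calc C * d ≤ U / 2 * n * d := this
      _ = U / 2 := by rw [mul_assoc, mul_comm n d, hdn, mul_one]
  have k3 : C1 * d ≤ ε * A ^ 2 / 16 := by
    have := mul_le_mul_of_nonneg_right h3 hd0.le
    calc C1 * d ≤ ε * A ^ 2 / 16 * n * d := this
      _ = ε * A ^ 2 / 16 := by rw [mul_assoc, mul_comm n d, hdn, mul_one]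
  have k4 : C2 * d ≤ U / 2 := by
    have := mul_le_mul_of_nonneg_right h4 hd0.le
    calc C2 * d ≤ U / 2 * n * d := this
      _ = U / 2 := by rw [mul_assoc, mul_comm n d, hdn, mul_one]
  have hηc : η * c = ε * A ^ 2 / 16 := by rw [hη]; field_simp
  have hx1 : U - C * d ≤ x := by
    rw [hd3, hwx] at hw
    have : (U - C * d) * n ^ 4 ≤ x * n ^ 4 := by linarith
    exact le_of_mul_le_mul_right this hn4
  have hx2 : U / 2 ≤ x := by linarith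
  have hs1 : (x - C2 * d) * n ^ 4 ≤ s := by
    rw [hd3, hwx] at hs
    linarith
  have hs0 : 0 ≤ (x - C2 * d) * n ^ 4 := by
    apply mul_nonneg _ hn4.le
    linarith
  have hs2 : ((x - C2 * d) * n ^ 4) ^ 2 ≤ s ^ 2 := by
    exact pow_le_pow_left₀ hs0 hs1 2
  set q : ℝ := A * x + C1 * d + η * c with hq
  have hPq : P ≤ q * n ^ 4 := by
    rw [hd3, hwx] at hP
    rw [hq]
    linarith
  have hUe : 0 < U / A - ε := by
    have : 0 < (U / A - ε) * n ^ 4 := lt_of_le_of_lt hI0 hcon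
    exact (pos_iff_pos_of_mul_pos this).mpr hn4
  have hIP : I * P ≤ ((U / A - ε) * n ^ 4) * (q * n ^ 4) := by
    exact mul_le_mul hcon.le hPq hP0 (by positivity)
  have hfin : (x - C2 * d) ^ 2 ≤ (U / A - ε) * q := by
    have : (x - C2 * d) ^ 2 * (n ^ 4 * n ^ 4) ≤ (U / A - ε) * q * (n ^ 4 * n ^ 4) := by
      calc (x - C2 * d) ^ 2 * (n ^ 4 * n ^ 4) = ((x - C2 * d) * n ^ 4) ^ 2 := by ring
        _ ≤ s ^ 2 := hs2
        _ ≤ I * P := hCS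
        _ ≤ ((U / A - ε) * n ^ 4) * (q * n ^ 4) := hIP
        _ = _ := by ring
    exact le_of_mul_le_mul_right this (by positivity)
  have e1 : (U / A - ε) * q = (U - ε * A) * x + (U / A - ε) * (C1 * d + ε * A ^ 2 / 16) := by
    rw [hq, hηc]
    have : U / A * A = U := by field_simp
    linear_combination x * this
  have e2 : (U / A - ε) * (C1 * d + ε * A ^ 2 / 16) ≤ (U / A) * (ε * A ^ 2 / 8) := by
    have : (U / A - ε) * (C1 * d + ε * A ^ 2 / 16) ≤ (U / A - ε) * (ε * A ^ 2 / 8) := by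
      apply mul_le_mul_of_nonneg_left _ hUe.le
      linarith
    have h8 : 0 ≤ ε * (ε * A ^ 2 / 8) := by positivity
    have e : (U / A - ε) * (ε * A ^ 2 / 8) = U / A * (ε * A ^ 2 / 8) - ε * (ε * A ^ 2 / 8) := by ring
    linarith
  have e3 : (U / A) * (ε * A ^ 2 / 8) = U * ε * A / 8 := by field_simp
  have e5 : x * (x - U + ε * A - 2 * (C2 * d)) ≤ U * ε * A / 8 := by
    have h5 : x * (x - U + ε * A - 2 * (C2 * d)) =
        (x - C2 * d) ^ 2 - (C2 * d) ^ 2 - (U - ε * A) * x := by ring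
    have h6 : 0 ≤ (C2 * d) ^ 2 := sq_nonneg _
    linarith
  have e6 : ε * A / 2 ≤ x - U + ε * A - 2 * (C2 * d) := by
    have : (C + 2 * C2) * d = C * d + 2 * (C2 * d) := by ring
    linarith
  have e7 : U / 2 * (ε * A / 2) ≤ x * (x - U + ε * A - 2 * (C2 * d)) :=
    mul_le_mul hx2 e6 (by positivity) (by linarith)
  have e8 : 0 < U * ε * A := by positivity
  have e9 : U / 2 * (ε * A / 2) = U * ε * A / 4 := by ring
  linarith

/-- Finitely many rotations carry all but `η` of the sum. -/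
theorem exists_phi0 (a b : ℂ) (A η : ℝ) (hη : 0 < η) (h : RotB a b A) :
    ∃ Φ0 : Finset ℂ, Good a b Φ0 ∧ ∀ Φ : Finset ℂ, Good a b Φ → Disjoint Φ0 Φ →
      ∑ ρ ∈ Φ, 1 / ((M a b ρ).index : ℝ) ^ 2 ≤ η := by
  classical
  set S : Set ℝ := {x | ∃ Φ : Finset ℂ, Good a b Φ ∧ x = ∑ ρ ∈ Φ, 1 / ((M a b ρ).index : ℝ) ^ 2}
    with hS
  have hne : S.Nonempty := ⟨_, ∅, by intro ρ hρ; simp at hρ, rfl⟩
  have hbd : BddAbove S := ⟨A, by rintro x ⟨Φ, hΦ, rfl⟩; exact h Φ hΦ⟩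
  obtain ⟨x, ⟨Φ0, hΦ0, rfl⟩, hx⟩ := exists_lt_of_lt_csSup hne (sub_lt_self (sSup S) hη)
  refine ⟨Φ0, hΦ0, fun Φ hΦ hdis => ?_⟩
  have hgood : Good a b (Φ0 ∪ Φ) := by
    intro ρ hρ
    rcases Finset.mem_union.mp hρ with h1 | h1
    · exact hΦ0 ρ h1
    · exact hΦ ρ h1
  have hle : ∑ ρ ∈ Φ0 ∪ Φ, 1 / ((M a b ρ).index : ℝ) ^ 2 ≤ sSup S :=
    le_csSup hbd ⟨_, hgood, rfl⟩
  rw [Finset.sum_union hdis] at hle
  linarith

theorem box_mono {N N' : ℕ} (h : N ≤ N') : box N ⊆ box N' := by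
  intro t ht
  unfold box at ht ⊢
  rw [Finset.mem_product] at ht ⊢
  have hh : ((N : ℤ)) ≤ N' := by exact_mod_cast h
  have hm : ∀ v : V, v ∈ Finset.Icc ((-(N : ℤ), -(N : ℤ)) : V) ((N : ℤ), (N : ℤ)) →
      v ∈ Finset.Icc ((-(N' : ℤ), -(N' : ℤ)) : V) ((N' : ℤ), (N' : ℤ)) := by
    intro v hv
    rw [Finset.mem_Icc] at hv ⊢
    obtain ⟨⟨h1, h2⟩, h3, h4⟩ := hv
    simp only at h1 h2 h3 h4
    refine ⟨⟨?_, ?_⟩, ?_, ?_⟩ <;> simp only <;> omega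
  exact ⟨hm _ ht.1, hm _ ht.2⟩

theorem t_ROT (hD : S_DG) (hI : S_IDX) (hS : S_SH) (hCS : S_CS) (hP : S_PAIR) : S_ROT := by
  classical
  intro a b hab W κ0 U A hF hU hA hR ε hε
  set κ : ℕ := κ0 + 1 with hκ
  have hsub : ∀ N : ℕ, 1 ≤ N → W N ⊆ box (κ * N) := fun N hN =>
    (hF.sub N hN).trans (box_mono (Nat.mul_le_mul_right _ (Nat.le_succ _)))
  have hκ1 : 1 ≤ κ := by omega
  set c : ℝ := (6 * (κ : ℝ) + 1) ^ 4 with hc
  have hc0 : 0 < c := by positivity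
  set η : ℝ := ε * A ^ 2 / (16 * c) with hη
  have hη0 : 0 < η := by positivity
  obtain ⟨Φ0, hΦ0, hΦ⟩ := exists_phi0 a b A η hη0 hR
  -- the constants for the rotations in `Φ0`
  have hrho : ∀ ρ ∈ Φ0, ∃ C : ℝ, 0 ≤ C ∧ ∀ N : ℕ, 1 ≤ N →
      (((W N).filter (fun t => t.1 ∈ M a b ρ ∧ t.2 ∈ M a b ρ)).card : ℝ) ≤
        (W N).card * (1 / ((M a b ρ).index : ℝ) ^ 2) + C * (N : ℝ) ^ 3 := by
    intro ρ hρ
    obtain ⟨K, hK⟩ := hS W hF.mono hF.shift (M a b ρ) (hΦ0 ρ hρ).2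
    obtain ⟨C, hC⟩ := hF.grow K
    refine ⟨|C|, abs_nonneg _, fun N hN => ?_⟩
    have h1 := hK N
    have h2 := hC N hN
    have hi : 1 ≤ (M a b ρ).index := Nat.one_le_iff_ne_zero.mpr (hΦ0 ρ hρ).2
    have hi' : (1 : ℝ) ≤ ((M a b ρ).index : ℝ) := by exact_mod_cast hi
    have hi2 : (1 : ℝ) ≤ ((M a b ρ).index : ℝ) ^ 2 := one_le_pow₀ hi'
    have hi0 : (0 : ℝ) < ((M a b ρ).index : ℝ) ^ 2 := by linarith
    have h3 : (((W N).filter (fun t => t.1 ∈ M a b ρ ∧ t.2 ∈ M a b ρ)).card : ℝ) *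
        ((M a b ρ).index : ℝ) ^ 2 ≤ (W (N + K)).card := by
      have := h1
      have h4 : ((W N).filter (fun t => t.1 ∈ M a b ρ ∧ t.2 ∈ M a b ρ)).card *
        (M a b ρ).index ^ 2 ≤ (W (N + K)).card := by
        convert this
      exact_mod_cast h4
    have h5 : (((W N).filter (fun t => t.1 ∈ M a b ρ ∧ t.2 ∈ M a b ρ)).card : ℝ) ≤
        ((W N).card + |C| * (N : ℝ) ^ 3) * (1 / ((M a b ρ).index : ℝ) ^ 2) := by
      rw [mul_one_div, le_div_iff₀ hi0]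
      have : C * (N : ℝ) ^ 3 ≤ |C| * (N : ℝ) ^ 3 :=
        mul_le_mul_of_nonneg_right (le_abs_self C) (by positivity)
      linarith
    have h6 : |C| * (N : ℝ) ^ 3 * (1 / ((M a b ρ).index : ℝ) ^ 2) ≤ |C| * (N : ℝ) ^ 3 * 1 := by
      apply mul_le_mul_of_nonneg_left _ (by positivity)
      rw [div_le_one hi0]
      exact hi2
    rw [add_mul] at h5
    linarith
  choose! Cr hCr0 hCr using hrho
  set C1 : ℝ := ∑ ρ ∈ Φ0, Cr ρ with hC1
  have hC10 : 0 ≤ C1 := Finset.sum_nonneg hCr0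
  set C2 : ℝ := 2 * (2 * (κ : ℝ) + 1) ^ 3 with hC2
  have hC20 : 0 ≤ C2 := by positivity
  obtain ⟨C, hlow⟩ := hF.low
  -- a threshold
  obtain ⟨n1, hn1⟩ := exists_nat_ge ((C + 2 * C2) / (ε * A / 2))
  obtain ⟨n2, hn2⟩ := exists_nat_ge (C / (U / 2))
  obtain ⟨n3, hn3⟩ := exists_nat_ge (C1 / (ε * A ^ 2 / 16))
  obtain ⟨n4, hn4⟩ := exists_nat_ge (C2 / (U / 2))
  filter_upwards [eventually_ge_atTop (n1 + n2 + n3 + n4 + 1)] with N hN
  have hN1 : 1 ≤ N := by omega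
  have hNr : (1 : ℝ) ≤ (N : ℝ) := by exact_mod_cast hN1
  have g1 : (n1 : ℝ) ≤ N := by exact_mod_cast (by omega : n1 ≤ N)
  have g2 : (n2 : ℝ) ≤ N := by exact_mod_cast (by omega : n2 ≤ N)
  have g3 : (n3 : ℝ) ≤ N := by exact_mod_cast (by omega : n3 ≤ N)
  have g4 : (n4 : ℝ) ≤ N := by exact_mod_cast (by omega : n4 ≤ N)
  have k1 : C + 2 * C2 ≤ ε * A / 2 * (N : ℝ) := by
    have := (div_le_iff₀ (by positivity : (0 : ℝ) < ε * A / 2)).mp (hn1.trans g1)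
    linarith
  have k2 : C ≤ U / 2 * (N : ℝ) := by
    have := (div_le_iff₀ (by positivity : (0 : ℝ) < U / 2)).mp (hn2.trans g2)
    linarith
  have k3 : C1 ≤ ε * A ^ 2 / 16 * (N : ℝ) := by
    have := (div_le_iff₀ (by positivity : (0 : ℝ) < ε * A ^ 2 / 16)).mp (hn3.trans g3)
    linarith
  have k4 : C2 ≤ U / 2 * (N : ℝ) := by
    have := (div_le_iff₀ (by positivity : (0 : ℝ) < U / 2)).mp (hn4.trans g4)
    linarith
  set S : Finset (V × V) := (W N).filter (fun t => det t ≠ 0) with hSdef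
  obtain ⟨Ψ, hΨ, hpairs⟩ := hP a b hab S (by
    intro t ht
    exact (Finset.mem_filter.mp ht).2)
  have hcs := hCS S (gg a b)
  set I : ℕ := (S.image (gg a b)).card with hIdef
  set P : ℕ := ((S ×ˢ S).filter (fun x => gg a b x.1 = gg a b x.2)).card with hPdef
  have hcs' : S.card ^ 2 ≤ I * P := by
    convert hcs
  have hpairs' : P ≤ ∑ ρ ∈ Ψ, (S.filter (fun t => t.1 ∈ M a b ρ ∧ t.2 ∈ M a b ρ)).card := by
    convert hpairs
  -- lower bound for `S`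
  have hScard : ((W N).card : ℝ) - C2 * (N : ℝ) ^ 3 ≤ (S.card : ℝ) := by
    have h1 : (W N).card = ((W N).filter (fun t => det t ≠ 0)).card +
        ((W N).filter (fun t => ¬ det t ≠ 0)).card :=
      (Finset.card_filter_add_card_filter_not _).symm
    have h2 : ((W N).filter (fun t => ¬ det t ≠ 0)).card ≤ 2 * (2 * (κ * N) + 1) ^ 3 := by
      refine le_trans (Finset.card_le_card ?_) (hD (κ * N) (Nat.mul_pos hκ1 hN1))
      intro t ht
      rw [Finset.mem_filter] at ht ⊢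
      exact ⟨hsub N hN1 ht.1, not_not.mp ht.2⟩
    have h3 : (((W N).filter (fun t => ¬ det t ≠ 0)).card : ℝ) ≤ C2 * (N : ℝ) ^ 3 := by
      calc (((W N).filter (fun t => ¬ det t ≠ 0)).card : ℝ)
          ≤ 2 * (2 * ((κ : ℝ) * N) + 1) ^ 3 := by exact_mod_cast h2
        _ ≤ 2 * (2 * ((κ : ℝ) * N) + N) ^ 3 := by gcongr
        _ = C2 * (N : ℝ) ^ 3 := by rw [hC2]; ring
    have h4 : ((W N).card : ℝ) = (S.card : ℝ) +
        (((W N).filter (fun t => ¬ det t ≠ 0)).card : ℝ) := by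
      exact_mod_cast h1
    linarith
  -- upper bound for the pairs
  have hterm : ∀ ρ ∈ Φ0, ((S.filter (fun t => t.1 ∈ M a b ρ ∧ t.2 ∈ M a b ρ)).card : ℝ) ≤
      (W N).card * (1 / ((M a b ρ).index : ℝ) ^ 2) + Cr ρ * (N : ℝ) ^ 3 := by
    intro ρ hρ
    refine le_trans ?_ (hCr ρ hρ N hN1)
    have : (S.filter (fun t => t.1 ∈ M a b ρ ∧ t.2 ∈ M a b ρ)).card ≤
        ((W N).filter (fun t => t.1 ∈ M a b ρ ∧ t.2 ∈ M a b ρ)).card :=
      Finset.card_le_card (Finset.filter_subset_filter _ (Finset.filter_subset _ _))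
    exact_mod_cast this
  have hterm2 : ∀ ρ ∈ Ψ, ((S.filter (fun t => t.1 ∈ M a b ρ ∧ t.2 ∈ M a b ρ)).card : ℝ) ≤
      (1 / ((M a b ρ).index : ℝ) ^ 2) * (c * (N : ℝ) ^ 4) := by
    intro ρ hρ
    have hi0 : (M a b ρ).index ≠ 0 := (hΨ ρ hρ).2
    have h1 := hI (M a b ρ) hi0 (κ * N)
    have h2 : (S.filter (fun t => t.1 ∈ M a b ρ ∧ t.2 ∈ M a b ρ)).card ≤
        ((box (κ * N)).filter
          (fun t => t.1 ∈ M a b ρ ∧ t.2 ∈ M a b ρ ∧ det t ≠ 0)).card := by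
      refine Finset.card_le_card ?_
      intro t ht
      rw [Finset.mem_filter] at ht
      obtain ⟨ht1, ht2, ht3⟩ := ht
      rw [hSdef, Finset.mem_filter] at ht1
      rw [Finset.mem_filter]
      exact ⟨hsub N hN1 ht1.1, ht2, ht3, ht1.2⟩
    have h3 : (S.filter (fun t => t.1 ∈ M a b ρ ∧ t.2 ∈ M a b ρ)).card * (M a b ρ).index ^ 2 ≤
        (6 * (κ * N) + 1) ^ 4 := by
      refine le_trans (Nat.mul_le_mul_right _ h2) ?_
      convert h1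
    have h4 : ((S.filter (fun t => t.1 ∈ M a b ρ ∧ t.2 ∈ M a b ρ)).card : ℝ) *
        ((M a b ρ).index : ℝ) ^ 2 ≤ (6 * ((κ : ℝ) * N) + 1) ^ 4 := by exact_mod_cast h3
    have h5 : (6 * ((κ : ℝ) * N) + 1) ^ 4 ≤ c * (N : ℝ) ^ 4 := by
      calc (6 * ((κ : ℝ) * N) + 1) ^ 4 ≤ (6 * ((κ : ℝ) * N) + N) ^ 4 := by gcongr
        _ = c * (N : ℝ) ^ 4 := by rw [hc]; ring
    have hpos : (0 : ℝ) < ((M a b ρ).index : ℝ) ^ 2 := by
      have : (0 : ℝ) < ((M a b ρ).index : ℝ) := by exact_mod_cast Nat.pos_of_ne_zero hi0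
      positivity
    rw [one_div, inv_mul_eq_div, le_div_iff₀ hpos]
    linarith
  have hPle : (P : ℝ) ≤ A * (W N).card + C1 * (N : ℝ) ^ 3 + η * (c * (N : ℝ) ^ 4) := by
    have h0 : (P : ℝ) ≤
        ∑ ρ ∈ Ψ, ((S.filter (fun t => t.1 ∈ M a b ρ ∧ t.2 ∈ M a b ρ)).card : ℝ) := by
      exact_mod_cast hpairs'
    have hsplit : ∑ ρ ∈ Ψ, ((S.filter (fun t => t.1 ∈ M a b ρ ∧ t.2 ∈ M a b ρ)).card : ℝ) ≤
        ∑ ρ ∈ Φ0, ((S.filter (fun t => t.1 ∈ M a b ρ ∧ t.2 ∈ M a b ρ)).card : ℝ) +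
        ∑ ρ ∈ Ψ \ Φ0, ((S.filter (fun t => t.1 ∈ M a b ρ ∧ t.2 ∈ M a b ρ)).card : ℝ) := by
      have hsu : Ψ ⊆ Φ0 ∪ (Ψ \ Φ0) := by
        intro ρ hρ
        by_cases h : ρ ∈ Φ0
        · exact Finset.mem_union_left _ h
        · exact Finset.mem_union_right _ (Finset.mem_sdiff.mpr ⟨hρ, h⟩)
      rw [← Finset.sum_union Finset.disjoint_sdiff]
      exact Finset.sum_le_sum_of_subset_of_nonneg hsu (fun _ _ _ => Nat.cast_nonneg _)
    have h1 : ∑ ρ ∈ Φ0, ((S.filter (fun t => t.1 ∈ M a b ρ ∧ t.2 ∈ M a b ρ)).card : ℝ) ≤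
        A * (W N).card + C1 * (N : ℝ) ^ 3 := by
      calc ∑ ρ ∈ Φ0, ((S.filter (fun t => t.1 ∈ M a b ρ ∧ t.2 ∈ M a b ρ)).card : ℝ)
          ≤ ∑ ρ ∈ Φ0, ((W N).card * (1 / ((M a b ρ).index : ℝ) ^ 2) + Cr ρ * (N : ℝ) ^ 3) :=
            Finset.sum_le_sum hterm
        _ = (W N).card * (∑ ρ ∈ Φ0, 1 / ((M a b ρ).index : ℝ) ^ 2) + C1 * (N : ℝ) ^ 3 := by
            rw [Finset.sum_add_distrib, ← Finset.mul_sum, ← Finset.sum_mul]
        _ ≤ (W N).card * A + C1 * (N : ℝ) ^ 3 := by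
            have := mul_le_mul_of_nonneg_left (hR Φ0 hΦ0) (Nat.cast_nonneg (α := ℝ) (W N).card)
            linarith
        _ = _ := by ring
    have h2 : ∑ ρ ∈ Ψ \ Φ0, ((S.filter (fun t => t.1 ∈ M a b ρ ∧ t.2 ∈ M a b ρ)).card : ℝ) ≤
        η * (c * (N : ℝ) ^ 4) := by
      calc ∑ ρ ∈ Ψ \ Φ0, ((S.filter (fun t => t.1 ∈ M a b ρ ∧ t.2 ∈ M a b ρ)).card : ℝ)
          ≤ ∑ ρ ∈ Ψ \ Φ0, (1 / ((M a b ρ).index : ℝ) ^ 2) * (c * (N : ℝ) ^ 4) :=
            Finset.sum_le_sum (fun ρ hρ => hterm2 ρ (Finset.mem_sdiff.mp hρ).1)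
        _ = (∑ ρ ∈ Ψ \ Φ0, (1 / ((M a b ρ).index : ℝ) ^ 2)) * (c * (N : ℝ) ^ 4) := by
            rw [← Finset.sum_mul]
        _ ≤ η * (c * (N : ℝ) ^ 4) := by
            apply mul_le_mul_of_nonneg_right _ (by positivity)
            exact hΦ _ (fun ρ hρ => hΨ ρ (Finset.mem_sdiff.mp hρ).1) Finset.disjoint_sdiff
    linarith
  have hcsr : (S.card : ℝ) ^ 2 ≤ (I : ℝ) * (P : ℝ) := by exact_mod_cast hcs'
  have := final_ineq (n := (N : ℝ)) hU hA hε hc0 hη (by linarith) k1 k2 k3 k4 (hlow N hN1) hScard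
    hPle (Nat.cast_nonneg I) (Nat.cast_nonneg P) hcsr
  convert this

end Pool.Agent.K6.H56.TL.ROT
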