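import Pool.Agent.K6.H56.TL.Stm

/-!
`S_SH`: pairs of vectors in a subgroup of finite index.
-/

set_option autoImplicit false

open scoped BigOperators
open Finset

namespace Pool.Agent.K6.H56.TL.SH

open Pool.Agent.K6.H56.TL

theorem t_SH : S_SH := by
  classical
  intro W hW hs H hH
  have : H.FiniteIndex := ⟨hH⟩
  have : Finite (V ⧸ H) := AddSubgroup.finite_quotient_of_finiteIndex
  let _ : Fintype (V ⧸ H) := Fintype.ofFinite _
  choose K hK using hs
  let rep : (V ⧸ H) × (V ⧸ H) → V × V := fun c => (c.1.out, c.2.out)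
  let K0 : ℕ := ∑ c : (V ⧸ H) × (V ⧸ H), K (rep c)
  have hK0 : ∀ c, K (rep c) ≤ K0 := fun c =>
    Finset.single_le_sum (f := fun c => K (rep c)) (fun _ _ => Nat.zero_le _) (Finset.mem_univ c)
  refine ⟨K0, fun N => ?_⟩
  have hcard : H.index ^ 2 = (Finset.univ : Finset ((V ⧸ H) × (V ⧸ H))).card := by
    rw [Finset.card_univ, Fintype.card_prod, AddSubgroup.index, Nat.card_eq_fintype_card, pow_two]
  rw [hcard, ← Finset.card_product]
  refine Finset.card_le_card_of_injOn (fun x => x.1 + rep x.2) ?_ ?_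
  · rintro ⟨t, c⟩ hx
    simp only [Finset.coe_product, Set.mem_prod, Finset.mem_coe, Finset.mem_filter,
      Finset.mem_univ, and_true] at hx
    exact hW (Nat.add_le_add_left (hK0 c) N) (hK (rep c) N t hx.1)
  · rintro ⟨⟨t1, t2⟩, ⟨c1, c2⟩⟩ hx ⟨⟨u1, u2⟩, ⟨d1, d2⟩⟩ hy h
    simp only [Finset.coe_product, Set.mem_prod, Finset.mem_coe, Finset.mem_filter,
      Finset.mem_univ, and_true] at hx hy
    simp only [rep, Prod.mk_add_mk, Prod.mk.injEq] at h
    obtain ⟨h1, h2⟩ := h
    have key : ∀ (s u : V) (c d : V ⧸ H), s ∈ H → u ∈ H → s + c.out = u + d.out →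
        s = u ∧ c = d := by
      intro s u c d hs hu h
      have h3 : c = d := by
        have h4 : ((s + c.out : V) : V ⧸ H) = ((u + d.out : V) : V ⧸ H) := by rw [h]
        rw [QuotientAddGroup.mk_add, QuotientAddGroup.mk_add,
          (QuotientAddGroup.eq_zero_iff s).2 hs, (QuotientAddGroup.eq_zero_iff u).2 hu,
          zero_add, zero_add] at h4
        simpa using h4
      subst h3
      exact ⟨add_right_cancel h, rfl⟩
    obtain ⟨e1, e2⟩ := key t1 u1 c1 d1 hx.2.1 hy.2.1 h1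
    obtain ⟨e3, e4⟩ := key t2 u2 c2 d2 hx.2.2 hy.2.2 h2
    subst e1 e2 e3 e4
    rfl

end Pool.Agent.K6.H56.TL.SH
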