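import Pool.Agent.K6.H56.TL.Stm

/-!
MP_047cd2_co: piece SIM of `call56b` (the number of distinct triangles is invariant under similarities).
Written by helper92.
-/

set_option autoImplicit false

open scoped BigOperators ComplexConjugate
open Finset Filter

namespace Pool.Agent.K6.H56.TL.SIM

open Pool.Agent.K6.H56.TL

/-- Conjugation of an isometry by a similarity. -/
noncomputable def cj (h : ℂ ≃ ℂ) (l : ℝ) (_hl : 0 < l) (hd : ∀ x y, dist (h x) (h y) = l * dist x y)
    (f : ℂ ≃ᵢ ℂ) : ℂ ≃ᵢ ℂ where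
  toEquiv := (h.symm.trans f.toEquiv).trans h
  isometry_toFun := by
    refine Isometry.of_dist_eq fun x y => ?_
    have h1 : dist (f (h.symm x)) (f (h.symm y)) = dist (h.symm x) (h.symm y) := f.isometry.dist_eq _ _
    have h2 := hd (h.symm x) (h.symm y)
    rw [Equiv.apply_symm_apply, Equiv.apply_symm_apply] at h2
    change dist (h (f (h.symm x))) (h (f (h.symm y))) = dist x y
    rw [hd, h1, h2]

theorem cong_of (h : ℂ ≃ ℂ) (l : ℝ) (hl : 0 < l) (hd : ∀ x y, dist (h x) (h y) = l * dist x y)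
    (s t : Set ℂ) (hst : Cong s t) : Cong (h '' s) (h '' t) := by
  obtain ⟨f, rfl⟩ := hst
  refine ⟨cj h l hl hd f, ?_⟩
  ext z
  constructor
  · rintro ⟨w, ⟨x, hx, rfl⟩, rfl⟩
    refine ⟨f x, ⟨x, hx, rfl⟩, ?_⟩
    change h (f x) = h (f (h.symm (h x)))
    rw [Equiv.symm_apply_apply]
  · rintro ⟨w, ⟨x, hx, rfl⟩, rfl⟩
    refine ⟨h x, ⟨x, hx, rfl⟩, ?_⟩
    change h (f (h.symm (h x))) = h (f x)
    rw [Equiv.symm_apply_apply]

theorem cong_iff (h : ℂ ≃ ℂ) (l : ℝ) (hl : 0 < l) (hd : ∀ x y, dist (h x) (h y) = l * dist x y)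
    (s t : Set ℂ) : Cong (h '' s) (h '' t) ↔ Cong s t := by
  constructor
  · intro H
    have := cong_of h.symm l⁻¹ (inv_pos.2 hl) (fun x y => by
      have h2 := hd (h.symm x) (h.symm y)
      rw [Equiv.apply_symm_apply, Equiv.apply_symm_apply] at h2
      rw [h2]
      field_simp) _ _ H
    simpa [← Set.image_comp] using this
  · exact cong_of h l hl hd s t

theorem tri_iff (h : ℂ ≃ ℂ)
    (hc : ∀ p q r : ℂ, Collinear ℝ ({h p, h q, h r} : Set ℂ) ↔ Collinear ℝ ({p, q, r} : Set ℂ))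
    (t : Set ℂ) : IsTri (h '' t) ↔ IsTri t := by
  constructor
  · rintro ⟨p, q, r, ht, hn⟩
    refine ⟨h.symm p, h.symm q, h.symm r, ?_, ?_⟩
    · have : t = h.symm '' (h '' t) := by
        rw [← Set.image_comp]
        simp
      rw [this, ht]
      simp [Set.image_insert_eq]
    · rw [← hc]
      simpa using hn
  · rintro ⟨p, q, r, rfl, hn⟩
    refine ⟨h p, h q, h r, ?_, ?_⟩
    · simp [Set.image_insert_eq]
    · rwa [hc]

theorem T_image (h : ℂ ≃ ℂ) (l : ℝ) (hl : 0 < l) (hd : ∀ x y, dist (h x) (h y) = l * dist x y)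
    (hc : ∀ p q r : ℂ, Collinear ℝ ({h p, h q, h r} : Set ℂ) ↔ Collinear ℝ ({p, q, r} : Set ℂ))
    (P : Set ℂ) : T (h '' P) = T P := by
  have hinj : Function.Injective (fun s : Set ℂ => h '' s) := Set.image_injective.2 h.injective
  have hinj2 : Function.Injective (fun c : Set (Set ℂ) => (fun s : Set ℂ => h '' s) '' c) :=
    Set.image_injective.2 hinj
  have htris : ∀ t : Set ℂ, h '' t ∈ tris (h '' P) ↔ t ∈ tris P := by
    intro t
    unfold tris
    change (h '' t ⊆ h '' P ∧ IsTri (h '' t)) ↔ (t ⊆ P ∧ IsTri t)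
    rw [tri_iff h hc, Set.image_subset_image_iff h.injective]
  have hall : ∀ s : Set ℂ, ∃ t : Set ℂ, s = h '' t := fun s => ⟨h.symm '' s, by
    rw [← Set.image_comp]
    simp⟩
  have hclass : ∀ t : Set ℂ, {s | s ∈ tris (h '' P) ∧ Cong (h '' t) s} =
      (fun s : Set ℂ => h '' s) '' {s | s ∈ tris P ∧ Cong t s} := by
    intro t
    ext s
    constructor
    · rintro ⟨h1, h2⟩
      obtain ⟨s, rfl⟩ := hall s
      exact ⟨s, ⟨(htris s).1 h1, (cong_iff h l hl hd _ _).1 h2⟩, rfl⟩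
    · rintro ⟨s, ⟨h1, h2⟩, rfl⟩
      exact ⟨(htris s).2 h1, (cong_iff h l hl hd _ _).2 h2⟩
  have key : {c : Set (Set ℂ) | ∃ t ∈ tris (h '' P), c = {s | s ∈ tris (h '' P) ∧ Cong t s}} =
      (fun c : Set (Set ℂ) => (fun s : Set ℂ => h '' s) '' c) ''
        {c : Set (Set ℂ) | ∃ t ∈ tris P, c = {s | s ∈ tris P ∧ Cong t s}} := by
    ext c
    constructor
    · rintro ⟨t, ht, rfl⟩
      obtain ⟨t, rfl⟩ := hall t
      exact ⟨_, ⟨t, (htris t).1 ht, rfl⟩, (hclass t).symm⟩
    · rintro ⟨c, ⟨t, ht, rfl⟩, rfl⟩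
      exact ⟨h '' t, (htris t).2 ht, (hclass t).symm⟩
  unfold T
  rw [key, Set.ncard_image_of_injective _ hinj2]

theorem t_SIM (hC : S_COL) : S_SIM := by
  refine ⟨fun c a b hc n => ?_, fun a b n => ?_⟩
  · have hs : sec (c * a) (c * b) n = (Equiv.mulLeft₀ c hc) '' sec a b n := by
      ext z
      constructor
      · rintro ⟨u, v, hu, hv, rfl⟩
        refine ⟨_, ⟨u, v, hu, hv, rfl⟩, ?_⟩
        simp only [Equiv.mulLeft₀_apply]
        ring
      · rintro ⟨_, ⟨u, v, hu, hv, rfl⟩, rfl⟩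
        refine ⟨u, v, hu, hv, ?_⟩
        simp only [Equiv.mulLeft₀_apply]
        ring
    rw [hs]
    refine T_image _ ‖c‖ (norm_pos_iff.2 hc) (fun x y => ?_) (fun p q r => ?_) _
    · simp only [Equiv.mulLeft₀_apply, dist_eq_norm]
      rw [← mul_sub, norm_mul]
    · rw [hC.1, hC.1]
      simp only [Equiv.mulLeft₀_apply]
      have e : conj (c * q - c * p) * (c * r - c * p) =
          ((Complex.normSq c : ℝ) : ℂ) * (conj (q - p) * (r - p)) := by
        rw [Complex.normSq_eq_conj_mul_self]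
        simp only [map_sub, map_mul]
        ring
      have hn : Complex.normSq c ≠ 0 := fun h0 => hc (Complex.normSq_eq_zero.1 h0)
      rw [e, Complex.im_ofReal_mul, mul_eq_zero]
      exact ⟨fun h1 => h1.resolve_left hn, Or.inr⟩
  · have hs : sec (conj a) (conj b) n = (Complex.conjLIE.toEquiv) '' sec a b n := by
      ext z
      constructor
      · rintro ⟨u, v, hu, hv, rfl⟩
        refine ⟨_, ⟨u, v, hu, hv, rfl⟩, ?_⟩
        simp
      · rintro ⟨_, ⟨u, v, hu, hv, rfl⟩, rfl⟩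
        refine ⟨u, v, hu, hv, ?_⟩
        simp
    rw [hs]
    refine T_image _ 1 one_pos (fun x y => ?_) (fun p q r => ?_) _
    · rw [one_mul]
      exact Complex.conjLIE.dist_map x y
    · rw [hC.1, hC.1]
      have e : conj (conj q - conj p) * (conj r - conj p) = conj (conj (q - p) * (r - p)) := by
        simp
      change (conj (conj q - conj p) * (conj r - conj p)).im = 0 ↔ _
      rw [e, Complex.conj_im, neg_eq_zero]

end Pool.Agent.K6.H56.TL.SIM
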