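import Pool.Agent.K6.H56.TL.Stm

/-!
# Piece SUM (helper84): the sum of `2 ^ ω(n) / n ^ 2` is at most `ζ(2) ^ 2 / ζ(4) = 5 / 2`
-/

set_option autoImplicit false

open Finset Filter

namespace Pool.Agent.K6.H56.TL.SUM

/-- the squarefree divisors -/
def D (n : ℕ) : Finset ℕ := n.divisors.filter Squarefree

theorem card_D {n : ℕ} (hn : 0 < n) : 2 ^ n.primeFactors.card ≤ (D n).card := by
  rw [← Finset.card_powerset]
  refine Finset.card_le_card_of_injOn (fun S => ∏ p ∈ S, p) ?_ ?_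
  · intro S hS
    rw [mem_coe, mem_powerset] at hS
    have hp : ∀ p ∈ S, p.Prime := fun p hp => Nat.prime_of_mem_primeFactors (hS hp)
    rw [mem_coe, D, mem_filter, Nat.mem_divisors]
    refine ⟨⟨?_, hn.ne'⟩, ?_⟩
    · exact (Finset.prod_dvd_prod_of_subset _ _ _ hS).trans (Nat.prod_primeFactors_dvd n)
    · refine Finset.squarefree_prod_of_pairwise_isCoprime ?_ ?_
      · intro p hp' q hq hpq
        have h1 : Nat.Coprime p q := (Nat.coprime_primes (hp p hp') (hp q hq)).mpr hpq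
        exact Nat.coprime_iff_isRelPrime.mp h1
      · intro p hp'
        exact (hp p hp').squarefree
  · intro S hS S' hS' h
    rw [mem_coe, mem_powerset] at hS hS'
    have hp : ∀ p ∈ S, p.Prime := fun p hp => Nat.prime_of_mem_primeFactors (hS hp)
    have hp' : ∀ p ∈ S', p.Prime := fun p hp => Nat.prime_of_mem_primeFactors (hS' hp)
    rw [← Nat.primeFactors_prod hp, ← Nat.primeFactors_prod hp']
    exact congrArg Nat.primeFactors h

theorem sq_unique {d d' g g' : ℕ} (hd : Squarefree d) (hd' : Squarefree d') (hg : 0 < g)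
    (hg' : 0 < g') (h : d * g ^ 2 = d' * g' ^ 2) : d = d' ∧ g = g' := by
  have hd0 : d ≠ 0 := hd.ne_zero
  have hd0' : d' ≠ 0 := hd'.ne_zero
  have h1 : d = d' := by
    apply Nat.eq_of_factorization_eq hd0 hd0'
    intro p
    have h2 : (d * g ^ 2).factorization p = (d' * g' ^ 2).factorization p := by rw [h]
    rw [Nat.factorization_mul hd0 (pow_ne_zero 2 hg.ne'),
      Nat.factorization_mul hd0' (pow_ne_zero 2 hg'.ne'), Nat.factorization_pow,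
      Nat.factorization_pow] at h2
    simp only [Finsupp.coe_add, Finsupp.coe_smul, Pi.add_apply, Pi.smul_apply, smul_eq_mul] at h2
    have h3 := hd.natFactorization_le_one p
    have h4 := hd'.natFactorization_le_one p
    omega
  subst h1
  refine ⟨rfl, ?_⟩
  have h2 := Nat.eq_of_mul_eq_mul_left (Nat.pos_of_ne_zero hd0) h
  exact Nat.pow_left_injective (by norm_num : (2 : ℕ) ≠ 0) h2

theorem key (Φ : Finset ℕ) (hΦ : ∀ n ∈ Φ, 0 < n) (G : ℕ) :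
    (∑ n ∈ Φ, fw n) * ∑ g ∈ range G, 1 / (g : ℝ) ^ 4 ≤ (Real.pi ^ 2 / 6) ^ 2 := by
  classical
  -- the index set
  let Tt : Finset ((Σ _ : ℕ, ℕ) × ℕ) := (Φ.sigma fun n => D n) ×ˢ (range G).filter (0 < ·)
  let j : (Σ _ : ℕ, ℕ) × ℕ → ℕ × ℕ := fun x => (x.1.1 / x.1.2, x.1.2 * x.2 ^ 2)
  have hmem : ∀ x ∈ Tt, x.1.1 ∈ Φ ∧ x.1.2 ∣ x.1.1 ∧ Squarefree x.1.2 ∧ 0 < x.2 := by
    intro x hx
    rw [mem_product, mem_sigma, D, mem_filter, Nat.mem_divisors, mem_filter] at hx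
    exact ⟨hx.1.1, hx.1.2.1.1, hx.1.2.2, hx.2.2⟩
  have hinj : Set.InjOn j Tt := by
    rintro ⟨⟨n, d⟩, g⟩ hx ⟨⟨n', d'⟩, g'⟩ hx' h
    obtain ⟨h1, h2, h3, h4⟩ := hmem _ hx
    obtain ⟨h1', h2', h3', h4'⟩ := hmem _ hx'
    simp only at h1 h2 h3 h4 h1' h2' h3' h4'
    simp only [j, Prod.mk.injEq] at h
    obtain ⟨rfl, rfl⟩ := sq_unique h3 h3' h4 h4' h.2
    have h5 : n = n' := by
      rw [← Nat.div_mul_cancel h2, ← Nat.div_mul_cancel h2', h.1]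
    rw [h5]
  -- the bound of the image
  obtain ⟨M, hM⟩ : ∃ M : ℕ, Tt.image j ⊆ range M ×ˢ range M := by
    refine ⟨(Tt.image j).sup (fun x => x.1 + x.2) + 1, fun x hx => ?_⟩
    have h1 : x.1 + x.2 ≤ (Tt.image j).sup (fun x => x.1 + x.2) :=
      Finset.le_sup (f := fun x : ℕ × ℕ => x.1 + x.2) hx
    rw [mem_product, mem_range, mem_range]
    omega
  have hZ2 : ∑ m ∈ range M, 1 / (m : ℝ) ^ 2 ≤ Real.pi ^ 2 / 6 :=
    sum_le_hasSum _ (fun i _ => by positivity) hasSum_zeta_two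
  have hZ0 : 0 ≤ ∑ m ∈ range M, 1 / (m : ℝ) ^ 2 := Finset.sum_nonneg fun i _ => by positivity
  have h1 : ∑ x ∈ Tt, 1 / ((j x).1 : ℝ) ^ 2 * (1 / ((j x).2 : ℝ) ^ 2) ≤
      (∑ m ∈ range M, 1 / (m : ℝ) ^ 2) ^ 2 := by
    rw [← Finset.sum_image (f := fun y : ℕ × ℕ => 1 / (y.1 : ℝ) ^ 2 * (1 / (y.2 : ℝ) ^ 2)) hinj]
    refine (Finset.sum_le_sum_of_subset_of_nonneg hM fun i _ _ => by positivity).trans
      (le_of_eq ?_)
    rw [pow_two, Finset.sum_mul_sum, Finset.sum_product]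
  have h2 : (∑ n ∈ Φ, fw n) * ∑ g ∈ range G, 1 / (g : ℝ) ^ 4 ≤
      ∑ x ∈ Tt, 1 / ((j x).1 : ℝ) ^ 2 * (1 / ((j x).2 : ℝ) ^ 2) := by
    have e1 : ∑ x ∈ Tt, 1 / ((j x).1 : ℝ) ^ 2 * (1 / ((j x).2 : ℝ) ^ 2) =
        ∑ x ∈ Tt, 1 / (x.1.1 : ℝ) ^ 2 * (1 / (x.2 : ℝ) ^ 4) := by
      refine Finset.sum_congr rfl fun x hx => ?_
      obtain ⟨g1, g2, g3, g4⟩ := hmem x hx
      have hn : (0 : ℝ) < x.1.1 := by exact_mod_cast hΦ _ g1
      have hd : (0 : ℝ) < x.1.2 := by exact_mod_cast Nat.pos_of_ne_zero g3.ne_zero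
      have hg : (0 : ℝ) < x.2 := by exact_mod_cast g4
      have h3 : ((x.1.1 / x.1.2 : ℕ) : ℝ) = (x.1.1 : ℝ) / x.1.2 := Nat.cast_div g2 hd.ne'
      simp only [j]
      rw [h3]
      push_cast
      field_simp
    rw [e1, Finset.sum_product, Finset.sum_sigma]
    rw [Finset.sum_mul]
    refine Finset.sum_le_sum fun n hn => ?_
    have hn0 : (0 : ℝ) < n := by exact_mod_cast hΦ n hn
    have e2 : ∑ g ∈ range G, 1 / (g : ℝ) ^ 4 = ∑ g ∈ (range G).filter (0 < ·), 1 / (g : ℝ) ^ 4 := by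
      symm
      refine Finset.sum_subset (Finset.filter_subset _ _) fun g hg hg' => ?_
      have : g = 0 := by
        by_contra h0
        exact hg' (mem_filter.mpr ⟨hg, Nat.pos_of_ne_zero h0⟩)
      subst this
      simp
    have e3 : ∑ d ∈ D n, ∑ g ∈ (range G).filter (0 < ·), 1 / (n : ℝ) ^ 2 * (1 / (g : ℝ) ^ 4) =
        ((D n).card : ℝ) * (1 / (n : ℝ) ^ 2 * ∑ g ∈ range G, 1 / (g : ℝ) ^ 4) := by
      rw [Finset.sum_const, nsmul_eq_mul, ← Finset.mul_sum, e2]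
    show fw n * _ ≤ ∑ d ∈ D n, ∑ g ∈ (range G).filter (0 < ·), 1 / (n : ℝ) ^ 2 * (1 / (g : ℝ) ^ 4)
    rw [e3]
    have h4 : ((2 : ℝ) ^ n.primeFactors.card) ≤ ((D n).card : ℝ) := by
      exact_mod_cast card_D (hΦ n hn)
    have h5 : 0 ≤ 1 / (n : ℝ) ^ 2 * ∑ g ∈ range G, 1 / (g : ℝ) ^ 4 :=
      mul_nonneg (by positivity) (Finset.sum_nonneg fun i _ => by positivity)
    calc fw n * ∑ g ∈ range G, 1 / (g : ℝ) ^ 4
        = (2 : ℝ) ^ n.primeFactors.card * (1 / (n : ℝ) ^ 2 * ∑ g ∈ range G, 1 / (g : ℝ) ^ 4) := by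
          unfold fw; ring
      _ ≤ _ := mul_le_mul_of_nonneg_right h4 h5
  refine (h2.trans h1).trans ?_
  exact pow_le_pow_left₀ hZ0 hZ2 2

theorem t_SUM : S_SUM := by
  intro Φ hΦ
  have h1 : Tendsto (fun G : ℕ => (∑ n ∈ Φ, fw n) * ∑ g ∈ range G, 1 / (g : ℝ) ^ 4) atTop
      (nhds ((∑ n ∈ Φ, fw n) * (Real.pi ^ 4 / 90))) :=
    hasSum_zeta_four.tendsto_sum_nat.const_mul _
  have h2 := le_of_tendsto' h1 (fun G => key Φ hΦ G)
  have hpi : 0 < Real.pi ^ 4 := by positivity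
  have h3 : (Real.pi ^ 2 / 6) ^ 2 = 5 / 2 * (Real.pi ^ 4 / 90) := by ring
  rw [h3] at h2
  exact le_of_mul_le_mul_right h2 (by positivity)

end Pool.Agent.K6.H56.TL.SUM
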