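import Pool.Agent.K6.H56.TL.Stm

/-!
MP_047cd2_co, piece TYPE (statement and proof idea by helper56; written by helper78).
-/

set_option autoImplicit false

open scoped BigOperators
open Finset

namespace Pool.Agent.K6.H56.TL.TYPE

open Pool.Agent.K6.H56.TL

/-- A prime which divides `z` does not divide `y`. -/
theorem not_dvd_y {e k x y z p : ℤ} (hp : Prime p) (hz : p ∣ z) (hc : IsCoprime x y)
    (h : x ^ 2 + e * x * y + k * y ^ 2 = z ^ 2) : ¬ p ∣ y := by
  intro hy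
  have hx2 : p ∣ x ^ 2 := by
    have : x ^ 2 = z ^ 2 - y * (e * x + k * y) := by linear_combination h
    rw [this]
    exact dvd_sub (dvd_pow hz two_ne_zero) (dvd_mul_of_dvd_left hy _)
  have hx : p ∣ x := hp.dvd_of_dvd_pow hx2
  exact hp.not_isUnit (hc.isUnit_of_dvd' hx hy)

theorem odd_sq_mod {p : ℤ} (hp : ¬ (2 : ℤ) ∣ p) : ∃ m : ℤ, p ^ 2 = 4 * m + 1 := by
  have : p % 2 = 1 := by omega
  obtain ⟨c, hc⟩ : ∃ c, p = 2 * c + 1 := ⟨p / 2, by omega⟩
  exact ⟨c ^ 2 + c, by rw [hc]; ring⟩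

/-- A prime which divides `z` does not divide both factors. -/
theorem not_both {e k x y x' y' z : ℤ} {p : ℕ} (hp : p.Prime) (he : e = 0 ∨ e = 1)
    (hF : Fund e k) (hz : (p : ℤ) ∣ z) (hc : IsCoprime x y) (hc' : IsCoprime x' y')
    (h : x ^ 2 + e * x * y + k * y ^ 2 = z ^ 2)
    (h' : x' ^ 2 + e * x' * y' + k * y' ^ 2 = z ^ 2)
    (hA : (p : ℤ) ∣ x * y' - x' * y) (hB : (p : ℤ) ∣ x * y' + x' * y + e * y * y') : False := by
  have hpZ : Prime (p : ℤ) := Nat.prime_iff_prime_int.mp hp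
  have hy : ¬ (p : ℤ) ∣ y := not_dvd_y hpZ hz hc h
  have hy' : ¬ (p : ℤ) ∣ y' := not_dvd_y hpZ hz hc' h'
  have hee : e ^ 2 = e := by rcases he with rfl | rfl <;> norm_num
  have hS : (p : ℤ) ∣ y' * (2 * x + e * y) := by
    have := dvd_add hA hB
    have h2 : x * y' - x' * y + (x * y' + x' * y + e * y * y') = y' * (2 * x + e * y) := by ring
    rwa [h2] at this
  have hX : (p : ℤ) ∣ 2 * x + e * y := (hpZ.dvd_or_dvd hS).resolve_left hy'
  have hD : (4 * k - e) * y ^ 2 = 4 * z ^ 2 - (2 * x + e * y) ^ 2 := by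
    linear_combination (4 : ℤ) * h + (- y ^ 2 : ℤ) * (hee) * (-1 : ℤ) * (1 : ℤ) * (-1 : ℤ) * (-1 : ℤ)
  have hp2 : (p : ℤ) ^ 2 ∣ (4 * k - e) * y ^ 2 := by
    rw [hD]
    exact dvd_sub (dvd_mul_of_dvd_right (pow_dvd_pow_of_dvd hz 2) _) (pow_dvd_pow_of_dvd hX 2)
  have hcop : IsCoprime ((p : ℤ) ^ 2) (y ^ 2) :=
    IsCoprime.pow ((hpZ.irreducible.coprime_iff_not_dvd).mpr hy)
  have hp2D : (p : ℤ) ^ 2 ∣ 4 * k - e := hcop.dvd_of_dvd_mul_right hp2
  by_cases h2 : (2 : ℤ) ∣ (p : ℤ)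
  · have hp2' : p = 2 := ((Nat.prime_dvd_prime_iff_eq Nat.prime_two hp).mp (by exact_mod_cast h2)).symm
    subst hp2'
    push_cast at *
    have hyo : ¬ (2 : ℤ) ∣ y := hy
    have he0 : e = 0 := by
      rcases he with rfl | rfl
      · rfl
      · exfalso; omega
    subst he0
    obtain ⟨m, hm⟩ := odd_sq_mod hyo
    obtain ⟨c, hc2⟩ := hz
    have h1 : x ^ 2 + k * (4 * m + 1) = 4 * c ^ 2 := by rw [← hm]; rw [hc2] at h; linarith
    by_cases hxe : (2 : ℤ) ∣ x
    · obtain ⟨d, hd⟩ := hxe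
      rw [hd] at h1
      refine hF ⟨2, 0, c ^ 2 - d ^ 2 - k * m, le_refl _, Or.inl rfl, ?_⟩
      linarith
    · obtain ⟨d, hd⟩ := odd_sq_mod hxe
      rw [hd] at h1
      refine hF ⟨2, 1, c ^ 2 - d - k * m, le_refl _, Or.inr rfl, ?_⟩
      linarith
  · obtain ⟨m, hm⟩ := odd_sq_mod h2
    obtain ⟨D', hD'⟩ := hp2D
    refine hF ⟨p, e, k - m * D', ?_, he, ?_⟩
    · exact_mod_cast hp.two_le
    · have : 4 * (k - m * D') - e = D' := by
        rw [hm] at hD'
        linarith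
      rw [this, hD']

theorem dvd_AB {e k x y x' y' z : ℤ}
    (h : x ^ 2 + e * x * y + k * y ^ 2 = z ^ 2)
    (h' : x' ^ 2 + e * x' * y' + k * y' ^ 2 = z ^ 2) :
    z ^ 2 ∣ (x * y' - x' * y) * (x * y' + x' * y + e * y * y') :=
  ⟨y' ^ 2 - y ^ 2, by linear_combination y' ^ 2 * h - y ^ 2 * h'⟩

theorem t_TYPE : S_TYPE := by
  classical
  intro e k he _ hF z hz
  by_cases hex : ∃ v0 : V, IsCoprime v0.1 v0.2 ∧ qf e k v0 = (z : ℤ) ^ 2
  swap
  · refine ⟨fun _ => ∅, fun _ => Finset.empty_subset _, ?_⟩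
    intro v v' hc _ hq _ _
    exact absurd ⟨v, hc, hq⟩ hex
  obtain ⟨⟨x0, y0⟩, hc0, hq0⟩ := hex
  simp only [qf] at hc0 hq0
  refine ⟨fun v => z.primeFactors.filter
    (fun p => (p : ℤ) ^ (2 * z.factorization p) ∣ x0 * v.2 - v.1 * y0),
    fun v => Finset.filter_subset _ _, ?_⟩
  rintro ⟨x, y⟩ ⟨x', y'⟩ hc hc' hq hq' hty
  simp only [qf] at hc hc' hq hq' hty ⊢
  -- reduce to prime powers
  have key : ∀ p : ℕ, p.Prime → p ∣ z →
      (p : ℤ) ^ (2 * z.factorization p) ∣ x * y' - y * x' := by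
    intro p hp hpz
    have hpZ : Prime (p : ℤ) := Nat.prime_iff_prime_int.mp hp
    have hpz' : (p : ℤ) ∣ (z : ℤ) := by exact_mod_cast hpz
    have hpow : (p : ℤ) ^ (2 * z.factorization p) ∣ (z : ℤ) ^ 2 := by
      have h1 : p ^ (z.factorization p) ∣ z := Nat.ordProj_dvd z p
      have h2 : (p ^ (z.factorization p)) ^ 2 ∣ z ^ 2 := pow_dvd_pow_of_dvd h1 2
      have h3 : p ^ (2 * z.factorization p) ∣ z ^ 2 := by
        rw [mul_comm, pow_mul]; exact h2
      exact_mod_cast h3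
    have hy0 : ¬ (p : ℤ) ∣ y0 := not_dvd_y hpZ hpz' hc0 hq0
    have one : ∀ {a b : ℤ}, IsCoprime a b → a ^ 2 + e * a * b + k * b ^ 2 = (z : ℤ) ^ 2 →
        ¬ (p : ℤ) ^ (2 * z.factorization p) ∣ x0 * b - a * y0 →
        (p : ℤ) ^ (2 * z.factorization p) ∣ x0 * b + a * y0 + e * y0 * b := by
      intro a b hab hqab hnd
      have hAB := hpow.trans (dvd_AB hq0 hqab)
      by_cases hA : (p : ℤ) ∣ x0 * b - a * y0
      · have hB : ¬ (p : ℤ) ∣ x0 * b + a * y0 + e * y0 * b := fun hB =>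
          not_both hp he hF hpz' hc0 hab hq0 hqab hA hB
        exfalso
        apply hnd
        have hcop : IsCoprime ((p : ℤ) ^ (2 * z.factorization p))
            (x0 * b + a * y0 + e * y0 * b) :=
          IsCoprime.pow_left ((hpZ.irreducible.coprime_iff_not_dvd).mpr hB)
        exact hcop.dvd_of_dvd_mul_right hAB
      · have hcop : IsCoprime ((p : ℤ) ^ (2 * z.factorization p)) (x0 * b - a * y0) :=
          IsCoprime.pow_left ((hpZ.irreducible.coprime_iff_not_dvd).mpr hA)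
        exact hcop.dvd_of_dvd_mul_left hAB
    have hcopy : IsCoprime ((p : ℤ) ^ (2 * z.factorization p)) y0 :=
      IsCoprime.pow_left ((hpZ.irreducible.coprime_iff_not_dvd).mpr hy0)
    apply hcopy.dvd_of_dvd_mul_left
    have hmem : p ∈ z.primeFactors := Nat.mem_primeFactors.mpr ⟨hp, hpz, hz.ne'⟩
    by_cases h1 : (p : ℤ) ^ (2 * z.factorization p) ∣ x0 * y - x * y0
    · have h2 : (p : ℤ) ^ (2 * z.factorization p) ∣ x0 * y' - x' * y0 := by
        have : p ∈ z.primeFactors.filter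
            (fun p : ℕ => (p : ℤ) ^ (2 * z.factorization p) ∣ x0 * y - x * y0) :=
          Finset.mem_filter.mpr ⟨hmem, h1⟩
        rw [hty] at this
        exact (Finset.mem_filter.mp this).2
      have : y0 * (x * y' - y * x') = (x0 * y' - x' * y0) * y - (x0 * y - x * y0) * y' := by ring
      rw [this]
      exact dvd_sub (dvd_mul_of_dvd_left h2 _) (dvd_mul_of_dvd_left h1 _)
    · have h2 : ¬ (p : ℤ) ^ (2 * z.factorization p) ∣ x0 * y' - x' * y0 := by
        intro h2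
        apply h1
        have : p ∈ z.primeFactors.filter
            (fun p : ℕ => (p : ℤ) ^ (2 * z.factorization p) ∣ x0 * y' - x' * y0) :=
          Finset.mem_filter.mpr ⟨hmem, h2⟩
        rw [← hty] at this
        exact (Finset.mem_filter.mp this).2
      have h1' := one hc hq h1
      have h2' := one hc' hq' h2
      have : y0 * (x * y' - y * x') =
          (x0 * y + x * y0 + e * y0 * y) * y' - (x0 * y' + x' * y0 + e * y0 * y') * y := by ring
      rw [this]
      exact dvd_sub (dvd_mul_of_dvd_left h1' _) (dvd_mul_of_dvd_left h2' _)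
  -- assemble
  have hN : z ^ 2 ∣ (x * y' - y * x').natAbs := by
    rw [Nat.dvd_iff_prime_pow_dvd_dvd]
    intro p m hp hm
    by_cases hpz : p ∣ z
    · have hle : m ≤ 2 * z.factorization p := by
        have := (hp.pow_dvd_iff_le_factorization (pow_ne_zero 2 hz.ne')).mp hm
        simpa [Nat.factorization_pow] using this
      have h1 := key p hp hpz
      have h2 : (p : ℤ) ^ m ∣ x * y' - y * x' := (pow_dvd_pow _ hle).trans h1
      have h3 := Int.natAbs_dvd_natAbs.mpr h2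
      simpa [Int.natAbs_pow] using h3
    · have hm0 : m = 0 := by
        by_contra hm0
        apply hpz
        have : p ∣ z ^ 2 := (dvd_pow_self p hm0).trans hm
        exact hp.dvd_of_dvd_pow this
      rw [hm0, pow_zero]
      exact one_dvd _
  have := Int.natCast_dvd.mpr hN
  exact_mod_cast this

end Pool.Agent.K6.H56.TL.TYPE
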