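import Pool.Agent.K6.H56.TL.Stm

/-! # Piece U2 (helper44): the union of `F` and its image under a unimodular matrix -/

set_option autoImplicit false

open Finset

namespace Pool.Agent.K6.H56.TL.U2

open Pool.Agent.K6.H56.TL

theorem fit_iff (N : ℕ) (t : V × V) :
    Fit N t ↔ Rg N t.1.1 t.2.1 ∧ Rg N t.1.2 t.2.2 := by
  constructor
  · rintro ⟨p, ⟨h1, h2, h3, h4⟩, ⟨h5, h6, h7, h8⟩, ⟨h9, h10, h11, h12⟩⟩
    exact ⟨⟨p.1, ⟨h1, h2⟩, ⟨h5, h6⟩, ⟨h9, h10⟩⟩, ⟨p.2, ⟨h3, h4⟩, ⟨h7, h8⟩, ⟨h11, h12⟩⟩⟩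
  · rintro ⟨⟨x, ⟨h1, h2⟩, ⟨h5, h6⟩, ⟨h9, h10⟩⟩, ⟨y, ⟨h3, h4⟩, ⟨h7, h8⟩, ⟨h11, h12⟩⟩⟩
    exact ⟨(x, y), ⟨h1, h2, h3, h4⟩, ⟨h5, h6, h7, h8⟩, ⟨h9, h10, h11, h12⟩⟩

theorem mem_F (N : ℕ) (t : V × V) : t ∈ F N ↔ Fit N t := by
  classical
  unfold F
  rw [Finset.mem_filter]
  refine ⟨fun h => h.2, fun h => ⟨?_, h⟩⟩
  obtain ⟨p, ⟨h1, h2, h3, h4⟩, ⟨h5, h6, h7, h8⟩, ⟨h9, h10, h11, h12⟩⟩ := h
  simp only [Prod.fst_add, Prod.snd_add] at h5 h6 h7 h8 h9 h10 h11 h12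
  unfold box
  rw [Finset.mem_product, Finset.mem_Icc, Finset.mem_Icc, Prod.le_def, Prod.le_def, Prod.le_def,
    Prod.le_def]
  dsimp only
  refine ⟨⟨⟨?_, ?_⟩, ⟨?_, ?_⟩⟩, ⟨⟨?_, ?_⟩, ⟨?_, ?_⟩⟩⟩ <;> omega

theorem act_inj {p q r s : ℤ} (h : p * s - q * r = 1) : Function.Injective (act p q r s) := by
  rintro ⟨⟨x, y⟩, ⟨z, w⟩⟩ ⟨⟨x', y'⟩, ⟨z', w'⟩⟩ he
  simp only [act, Prod.mk.injEq] at he
  obtain ⟨⟨h1, h2⟩, ⟨h3, h4⟩⟩ := he
  have e1 : x = x' := by linear_combination s * h1 - q * h2 - (x - x') * h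
  have e2 : y = y' := by linear_combination p * h2 - r * h1 - (y - y') * h
  have e3 : z = z' := by linear_combination s * h3 - q * h4 - (z - z') * h
  have e4 : w = w' := by linear_combination p * h4 - r * h3 - (w - w') * h
  subst e1 e2 e3 e4
  rfl

/-- the homomorphism to `ℤ / n` -/
def hom1 (n : ℕ) (a b : ℤ) : V →+ ZMod n where
  toFun v := ((a * v.1 + b * v.2 : ℤ) : ZMod n)
  map_zero' := by simp
  map_add' v w := by
    simp only [Prod.fst_add, Prod.snd_add]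
    push_cast
    ring

theorem index_ker_hom1 {n : ℕ} {a b : ℤ} (h : Function.Surjective (hom1 n a b)) :
    (hom1 n a b).ker.index = n := by
  rw [AddSubgroup.index_ker, AddMonoidHom.range_eq_top.2 h]
  simp

theorem mem_ker_hom1 {n : ℕ} {a b : ℤ} {v : V} :
    v ∈ (hom1 n a b).ker ↔ (n : ℤ) ∣ a * v.1 + b * v.2 := by
  rw [AddMonoidHom.mem_ker]
  exact ZMod.intCast_zmod_eq_zero_iff_dvd _ _

open Classical in
theorem bound (hC : S_CF) (hF : S_FAM) (hS : S_SH) (p q r s : ℤ) (H : AddSubgroup V)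
    (h2 : 2 ≤ H.index) (m : V × V → V × V) (hinj : Function.Injective m)
    (hm : ∀ N t, t ∈ F N → act p q r s t ∈ F N → m t ∈ F N ∧ (m t).1 ∈ H ∧ (m t).2 ∈ H) :
    ∃ C : ℝ, ∀ N : ℕ, 1 ≤ N → (((F N).filter fun t => act p q r s t ∈ F N).card : ℝ) ≤
      9 / 4 * (N : ℝ) ^ 4 + C * (N : ℝ) ^ 3 := by
  obtain ⟨K, hK⟩ := hS F hF.1.mono hF.1.shift H (by omega)
  obtain ⟨C, hCg⟩ := hF.1.grow K
  refine ⟨C / 4, fun N hN => ?_⟩
  have h3 : ((F N).filter fun t => act p q r s t ∈ F N).card ≤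
      ((F N).filter (fun t => t.1 ∈ H ∧ t.2 ∈ H)).card := by
    refine Finset.card_le_card_of_injOn m (fun t ht => ?_) hinj.injOn
    have ht' := Finset.mem_filter.1 (Finset.mem_coe.1 ht)
    exact Finset.mem_coe.2 (Finset.mem_filter.2 (hm N t ht'.1 ht'.2))
  have h4 := hK N
  have h5 := hCg N hN
  have h6 : ((F N).card : ℝ) ≤ 9 * (N : ℝ) ^ 4 := by
    have h7 := hC N hN
    have h8 : ((F N).card : ℝ) = (3 * (N : ℝ) ^ 2 - 3 * N + 1) ^ 2 := by exact_mod_cast h7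
    rw [h8]
    have hN' : (1 : ℝ) ≤ N := by exact_mod_cast hN
    have h9 : 3 * (N : ℝ) ^ 2 - 3 * N + 1 ≤ 3 * (N : ℝ) ^ 2 := by linarith
    have h10 : 0 ≤ 3 * (N : ℝ) ^ 2 - 3 * N + 1 := by nlinarith
    calc (3 * (N : ℝ) ^ 2 - 3 * N + 1) ^ 2 ≤ (3 * (N : ℝ) ^ 2) ^ 2 := pow_le_pow_left₀ h10 h9 2
      _ = 9 * (N : ℝ) ^ 4 := by ring
  have h7 : 4 * ((F N).filter (fun t => t.1 ∈ H ∧ t.2 ∈ H)).card ≤ (F (N + K)).card := by
    refine le_trans ?_ h4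
    have h8 : 4 ≤ H.index ^ 2 := by nlinarith
    rw [mul_comm]
    exact Nat.mul_le_mul_left _ h8
  have h8 : (4 : ℝ) * (((F N).filter (fun t => t.1 ∈ H ∧ t.2 ∈ H)).card : ℝ) ≤
      ((F (N + K)).card : ℝ) := by exact_mod_cast h7
  have h9 : ((((F N).filter fun t => act p q r s t ∈ F N).card : ℕ) : ℝ) ≤
      (((F N).filter (fun t => t.1 ∈ H ∧ t.2 ∈ H)).card : ℝ) := by exact_mod_cast h3
  linarith

theorem low_of (hC : S_CF) (hF : S_FAM) {p q r s : ℤ} (hd : p * s - q * r = 1)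
    (h : ∃ C : ℝ, ∀ N : ℕ, 1 ≤ N → (((F N).filter fun t => act p q r s t ∈ F N).card : ℝ) ≤
      9 / 4 * (N : ℝ) ^ 4 + C * (N : ℝ) ^ 3) :
    ∃ κ : ℕ, Fam (fun N => F N ∪ (F N).image (act p q r s)) κ (63 / 4) := by
  obtain ⟨κ, hκ⟩ := hF.2.1 p q r s hd
  have h0 := hF.2.2 F _ 1 κ hF.1.toFam0 hκ
  refine ⟨max 1 κ, ⟨h0, ?_⟩⟩
  obtain ⟨C, hC'⟩ := h
  refine ⟨36 + C, fun N hN => ?_⟩
  have h1 := Finset.card_union_add_card_inter (F N) ((F N).image (act p q r s))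
  rw [Finset.card_image_of_injective _ (act_inj hd)] at h1
  have h2 : (F N ∩ (F N).image (act p q r s)).card ≤
      ((F N).filter fun t => act p q r s t ∈ F N).card := by
    refine le_trans (Finset.card_le_card ?_) (Finset.card_image_le (f := act p q r s))
    intro t ht
    rw [Finset.mem_inter, Finset.mem_image] at ht
    obtain ⟨h3, u, hu, rfl⟩ := ht
    exact Finset.mem_image.2 ⟨u, Finset.mem_filter.2 ⟨hu, h3⟩, rfl⟩
  have h3 := hC' N hN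
  have h4 : ((F N ∩ (F N).image (act p q r s)).card : ℝ) ≤
      9 / 4 * (N : ℝ) ^ 4 + C * (N : ℝ) ^ 3 := le_trans (by exact_mod_cast h2) h3
  have h5 : ((F N ∪ (F N).image (act p q r s)).card : ℝ) +
      ((F N ∩ (F N).image (act p q r s)).card : ℝ) = (F N).card + (F N).card := by
    exact_mod_cast h1
  have h8 : ((F N).card : ℝ) = (3 * (N : ℝ) ^ 2 - 3 * N + 1) ^ 2 := by exact_mod_cast hC N hN
  have hN' : (1 : ℝ) ≤ N := by exact_mod_cast hN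
  have h9 : 9 * (N : ℝ) ^ 4 - 18 * (N : ℝ) ^ 3 ≤ ((F N).card : ℝ) := by
    rw [h8]
    nlinarith [sq_nonneg ((N : ℝ) - 1), hN', mul_nonneg (by linarith : (0 : ℝ) ≤ N)
      (by linarith : (0 : ℝ) ≤ (N : ℝ) - 1)]
  linarith

end Pool.Agent.K6.H56.TL.U2

namespace Pool.Agent.K6.H56.TL.U2

open Pool.Agent.K6.H56.TL

theorem t_U2 (hC : S_CF) (hF : S_FAM) (hS : S_SH) : S_U2 := by
  intro p q r s hd hqr
  apply low_of hC hF hd
  rcases hqr with hq | hr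
  · -- `|q| ≥ 2`
    have hq0 : q ≠ 0 := by
      rintro rfl
      simp at hq
    have hsur : Function.Surjective (hom1 q.natAbs (-p) 1) := by
      intro y
      obtain ⟨k, rfl⟩ := ZMod.intCast_surjective y
      refine ⟨(0, k), ?_⟩
      simp [hom1]
    have hidx := index_ker_hom1 hsur
    have hb := bound hC hF hS p q r s (hom1 q.natAbs (-p) 1).ker (by
        rw [hidx]
        have h1 : (2 : ℤ) ≤ (q.natAbs : ℤ) := by rwa [Int.natCast_natAbs]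
        exact_mod_cast h1)
      (fun t => ((t.1.1, p * t.1.1 + q * t.1.2), (t.2.1, p * t.2.1 + q * t.2.2))) ?_ ?_
    · exact hb
    · rintro ⟨⟨x, y⟩, ⟨z, w⟩⟩ ⟨⟨x', y'⟩, ⟨z', w'⟩⟩ he
      simp only [Prod.mk.injEq] at he
      obtain ⟨⟨h1, h2⟩, ⟨h3, h4⟩⟩ := he
      subst h1 h3
      have e2 : y = y' := by
        have : q * y = q * y' := by linarith
        exact mul_left_cancel₀ hq0 this
      have e4 : w = w' := by
        have : q * w = q * w' := by linarith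
        exact mul_left_cancel₀ hq0 this
      subst e2 e4
      rfl
    · intro N t h1 h2
      rw [mem_F, fit_iff] at h1 h2
      refine ⟨?_, ?_, ?_⟩
      · rw [mem_F, fit_iff]
        exact ⟨h1.1, h2.1⟩
      · rw [mem_ker_hom1]
        refine Int.natAbs_dvd.2 ⟨t.1.2, ?_⟩
        ring
      · rw [mem_ker_hom1]
        refine Int.natAbs_dvd.2 ⟨t.2.2, ?_⟩
        ring
  · -- `|r| ≥ 2`
    have hr0 : r ≠ 0 := by
      rintro rfl
      simp at hr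
    have hsur : Function.Surjective (hom1 r.natAbs 1 (-s)) := by
      intro y
      obtain ⟨k, rfl⟩ := ZMod.intCast_surjective y
      refine ⟨(k, 0), ?_⟩
      simp [hom1]
    have hidx := index_ker_hom1 hsur
    have hb := bound hC hF hS p q r s (hom1 r.natAbs 1 (-s)).ker (by
        rw [hidx]
        have h1 : (2 : ℤ) ≤ (r.natAbs : ℤ) := by rwa [Int.natCast_natAbs]
        exact_mod_cast h1)
      (fun t => ((r * t.1.1 + s * t.1.2, t.1.2), (r * t.2.1 + s * t.2.2, t.2.2))) ?_ ?_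
    · exact hb
    · rintro ⟨⟨x, y⟩, ⟨z, w⟩⟩ ⟨⟨x', y'⟩, ⟨z', w'⟩⟩ he
      simp only [Prod.mk.injEq] at he
      obtain ⟨⟨h1, h2⟩, ⟨h3, h4⟩⟩ := he
      subst h2 h4
      have e2 : x = x' := by
        have : r * x = r * x' := by linarith
        exact mul_left_cancel₀ hr0 this
      have e4 : z = z' := by
        have : r * z = r * z' := by linarith
        exact mul_left_cancel₀ hr0 this
      subst e2 e4
      rfl
    · intro N t h1 h2
      rw [mem_F, fit_iff] at h1 h2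
      refine ⟨?_, ?_, ?_⟩
      · rw [mem_F, fit_iff]
        exact ⟨h2.2, h1.2⟩
      · rw [mem_ker_hom1]
        refine Int.natAbs_dvd.2 ⟨t.1.1, ?_⟩
        ring
      · rw [mem_ker_hom1]
        refine Int.natAbs_dvd.2 ⟨t.2.1, ?_⟩
        ring

end Pool.Agent.K6.H56.TL.U2
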