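import Pool.Agent.K6.H56.TL.Stm

/-!
MP_047cd2_co, piece U3 (statement and proof idea by helper56; written by helper78).
-/

set_option autoImplicit false

open scoped BigOperators
open Finset

namespace Pool.Agent.K6.H56.TL.U3

open Pool.Agent.K6.H56.TL

theorem mem_F {N : ℕ} {t : V × V} : t ∈ F N ↔ Rg N t.1.1 t.2.1 ∧ Rg N t.1.2 t.2.2 := by
  classical
  obtain ⟨⟨a, b⟩, ⟨c, d⟩⟩ := t
  simp only [F, Finset.mem_filter]
  constructor
  · rintro ⟨_, ⟨p1, p2⟩, h1, h2, h3⟩
    simp only [InB, Prod.fst_add, Prod.snd_add, Prod.mk_add_mk] at h1 h2 h3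
    exact ⟨⟨p1, by omega, by omega, by omega⟩, ⟨p2, by omega, by omega, by omega⟩⟩
  · rintro ⟨⟨p1, h1, h2, h3⟩, ⟨p2, h4, h5, h6⟩⟩
    refine ⟨?_, (p1, p2), ?_, ?_, ?_⟩
    · simp only [box, Finset.mem_product, Finset.mem_Icc, Prod.mk_le_mk]
      refine ⟨⟨⟨by omega, by omega⟩, by omega, by omega⟩, ⟨by omega, by omega⟩, by omega, by omega⟩
    · simp only [InB]; omega
    · simp only [InB, Prod.mk_add_mk]; omega
    · simp only [InB, Prod.mk_add_mk]; omega

theorem Rg_neg {N : ℕ} {s t : ℤ} (h : Rg N s t) : Rg N (-s) (-t) := by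
  obtain ⟨p, h1, h2, h3⟩ := h
  exact ⟨N - 1 - p, by omega, by omega, by omega⟩

theorem Rg_neg_iff {N : ℕ} {s t : ℤ} : Rg N (-s) (-t) ↔ Rg N s t :=
  ⟨fun h => by simpa using Rg_neg h, Rg_neg⟩

theorem Rg_of_eq_neg {N : ℕ} {s t s' t' : ℤ} (hs : s' = -s) (ht : t' = -t) :
    Rg N s' t' ↔ Rg N s t := by
  rw [hs, ht]; exact Rg_neg_iff

theorem act_injective {p q r s : ℤ} (h : p * s - q * r = 1) :
    Function.Injective (act p q r s) := by
  rintro ⟨⟨a, b⟩, ⟨c, d⟩⟩ ⟨⟨a', b'⟩, ⟨c', d'⟩⟩ he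
  simp only [act, Prod.mk.injEq] at he
  obtain ⟨⟨h1, h2⟩, h3, h4⟩ := he
  have e1 : a = a' := by linear_combination s * h1 - q * h2 + (a' - a) * h
  have e2 : b = b' := by linear_combination p * h2 - r * h1 + (b' - b) * h
  have e3 : c = c' := by linear_combination s * h3 - q * h4 + (c' - c) * h
  have e4 : d = d' := by linear_combination p * h4 - r * h3 + (d' - d) * h
  rw [e1, e2, e3, e4]

/-- The reflected version of `S_C3`. -/
theorem C3' (h3 : S_C3) : ∃ C : ℝ, ∀ N : ℕ, 1 ≤ N → ∀ e : ℤ, e = 1 ∨ e = -1 →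
    ∃ A : Finset (V × V), A ⊆ F N ∧ (∀ t ∈ A, ¬ Rg N (t.1.1 + e * t.1.2) (t.2.1 + e * t.2.2)) ∧
      3 * (N : ℝ) ^ 4 - C * (N : ℝ) ^ 3 ≤ (A.card : ℝ) := by
  classical
  obtain ⟨C, hC⟩ := h3
  refine ⟨C, fun N hN e he => ?_⟩
  have h := hC N hN
  refine ⟨((F N).filter (fun t => ¬ Rg N (t.1.1 + t.1.2) (t.2.1 + t.2.2))).image (act 1 0 0 e),
    ?_, ?_, ?_⟩
  · intro u hu
    obtain ⟨t, ht, rfl⟩ := Finset.mem_image.mp hu
    have ht' := mem_F.mp (Finset.mem_filter.mp ht).1
    rw [mem_F]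
    simp only [act, one_mul, zero_mul, add_zero, zero_add]
    refine ⟨ht'.1, ?_⟩
    rcases he with rfl | rfl
    · simpa using ht'.2
    · have := Rg_neg ht'.2
      simpa using this
  · intro u hu
    obtain ⟨t, ht, rfl⟩ := Finset.mem_image.mp hu
    have ht' := (Finset.mem_filter.mp ht).2
    simp only [act, one_mul, zero_mul, add_zero, zero_add]
    rcases he with rfl | rfl
    · simpa using ht'
    · simpa using ht'
  · have hinj : Function.Injective (act 1 0 0 e) := by
      rintro ⟨⟨a, b⟩, ⟨c, d⟩⟩ ⟨⟨a', b'⟩, ⟨c', d'⟩⟩ hh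
      simp only [act, Prod.mk.injEq, one_mul, zero_mul, add_zero, zero_add] at hh
      obtain ⟨⟨h1, h2⟩, h3, h4⟩ := hh
      rcases he with rfl | rfl
      · simp only [one_mul] at h2 h4
        rw [h1, h2, h3, h4]
      · have h2' : b = b' := by linarith
        have h4' : d = d' := by linarith
        rw [h1, h2', h3, h4']
    rw [Finset.card_image_of_injective _ hinj]
    convert h using 3

theorem act_act (p q r : ℤ) (h : p ^ 2 + p + 1 + q * r = 0) (t : V × V) :
    act p q r (-1 - p) (act p q r (-1 - p) t) = act (-1 - p) (-q) (-r) p t := by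
  obtain ⟨⟨a, b⟩, ⟨c, d⟩⟩ := t
  simp only [act, Prod.mk.injEq]
  refine ⟨⟨?_, ?_⟩, ?_, ?_⟩
  · linear_combination a * h
  · linear_combination b * h
  · linear_combination c * h
  · linear_combination d * h

/-- The images under `s` and `s²` of a vector of `F` with `L` out of range. -/
theorem key {N : ℕ} {p q r : ℤ} (hp : p = 0 ∨ p = -1) (hq : q = 1 ∨ q = -1) (hqr : q * r = -1)
    (t : V × V) (hx : Rg N t.1.1 t.2.1) (hy : Rg N t.1.2 t.2.2)
    (hL : ¬ Rg N (t.1.1 + (if p = 0 then q else -q) * t.1.2)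
      (t.2.1 + (if p = 0 then q else -q) * t.2.2)) :
    (p = 0 ∧ (Rg N (act p q r (-1 - p) t).1.1 (act p q r (-1 - p) t).2.1 ∧
        ¬ Rg N (act p q r (-1 - p) t).1.2 (act p q r (-1 - p) t).2.2) ∧
      (¬ Rg N (act (-1 - p) (-q) (-r) p t).1.1 (act (-1 - p) (-q) (-r) p t).2.1 ∧
        Rg N (act (-1 - p) (-q) (-r) p t).1.2 (act (-1 - p) (-q) (-r) p t).2.2)) ∨
    (p = -1 ∧ (¬ Rg N (act p q r (-1 - p) t).1.1 (act p q r (-1 - p) t).2.1 ∧
        Rg N (act p q r (-1 - p) t).1.2 (act p q r (-1 - p) t).2.2) ∧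
      (Rg N (act (-1 - p) (-q) (-r) p t).1.1 (act (-1 - p) (-q) (-r) p t).2.1 ∧
        ¬ Rg N (act (-1 - p) (-q) (-r) p t).1.2 (act (-1 - p) (-q) (-r) p t).2.2)) := by
  obtain ⟨⟨a, b⟩, ⟨c, d⟩⟩ := t
  have hr : r = -q := by
    rcases hq with rfl | rfl <;> omega
  subst hr
  simp only [act] at *
  rcases hp with rfl | rfl
  · left
    refine ⟨rfl, ?_⟩
    simp only [if_true] at hL
    rcases hq with rfl | rfl
    · refine ⟨⟨?_, ?_⟩, ?_, ?_⟩
      · convert hy using 1 <;> ring
      · intro h; apply hL; have := Rg_neg h; convert this using 1 <;> ring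
      · intro h; apply hL; have := Rg_neg h; convert this using 1 <;> ring
      · convert hx using 1 <;> ring
    · refine ⟨⟨?_, ?_⟩, ?_, ?_⟩
      · have := Rg_neg hy; convert this using 1 <;> ring
      · intro h; apply hL; convert h using 1 <;> ring
      · intro h; apply hL; have := Rg_neg h; convert this using 1 <;> ring
      · have := Rg_neg hx; convert this using 1 <;> ring
  · right
    refine ⟨rfl, ?_⟩
    have : ¬ ((-1 : ℤ) = 0) := by norm_num
    simp only [this, if_false] at hL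
    rcases hq with rfl | rfl
    · refine ⟨⟨?_, ?_⟩, ?_, ?_⟩
      · intro h; apply hL; have := Rg_neg h; convert this using 1 <;> ring
      · have := Rg_neg hx; convert this using 1 <;> ring
      · have := Rg_neg hy; convert this using 1 <;> ring
      · intro h; apply hL; convert h using 1 <;> ring
    · refine ⟨⟨?_, ?_⟩, ?_, ?_⟩
      · intro h; apply hL; have := Rg_neg h; convert this using 1 <;> ring
      · convert hx using 1 <;> ring
      · convert hy using 1 <;> ring
      · intro h; apply hL; have := Rg_neg h; convert this using 1 <;> ring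

theorem t_U3 (hF : S_FAM) (h3 : S_C3) : S_U3 := by
  classical
  intro p q r h hq hr
  obtain ⟨hF1, hF2, hF3⟩ := hF
  -- the four cases
  have hqr : q * r = 1 ∨ q * r = -1 := by
    have : |q * r| = 1 := by rw [abs_mul, hq, hr, one_mul]
    rcases abs_eq (zero_le_one) |>.mp this with h1 | h1
    · exact Or.inl h1
    · exact Or.inr h1
  have hqr' : q * r = -1 := by
    rcases hqr with h1 | h1
    · exfalso; nlinarith [sq_nonneg (2 * p + 1)]
    · exact h1
  have hp : p = 0 ∨ p = -1 := by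
    have : p * (p + 1) = 0 := by linear_combination h - hqr'
    rcases mul_eq_zero.mp this with h1 | h1
    · exact Or.inl h1
    · exact Or.inr (by omega)
  have hq' : q = 1 ∨ q = -1 := by
    rcases abs_eq (zero_le_one) |>.mp hq with h1 | h1
    · exact Or.inl h1
    · exact Or.inr h1
  have hdet : p * (-1 - p) - q * r = 1 := by linear_combination -h
  have hdet2 : (-1 - p) * p - (-q) * (-r) = 1 := by linear_combination -h
  obtain ⟨κ1, hκ1⟩ := hF2 p q r (-1 - p) hdet
  obtain ⟨κ2, hκ2⟩ := hF2 (-1 - p) (-q) (-r) p hdet2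
  have himg : ∀ N : ℕ, ((F N).image (act p q r (-1 - p))).image (act p q r (-1 - p)) =
      (F N).image (act (-1 - p) (-q) (-r) p) := by
    intro N
    rw [Finset.image_image]
    apply Finset.image_congr
    intro t _
    exact act_act p q r h t
  have hU1 := hF3 _ _ _ _ hF1.toFam0 hκ1
  have hU2 := hF3 _ _ _ _ hU1 hκ2
  refine ⟨max (max 1 κ1) κ2, ?_⟩
  simp only [himg]
  refine ⟨hU2, ?_⟩
  obtain ⟨C1, hC1⟩ := hF1.low
  obtain ⟨C2, hC2⟩ := C3' h3
  refine ⟨C1 + 2 * C2, fun N hN => ?_⟩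
  -- the functional `L`
  obtain ⟨A, hAF, hAR, hAc⟩ := hC2 N hN (if p = 0 then q else -q) (by
    split_ifs <;> omega)
  set s := act p q r (-1 - p) with hs
  set s2 := act (-1 - p) (-q) (-r) p with hs2
  have hs_inj : Function.Injective s := act_injective hdet
  have hs2_inj : Function.Injective s2 := act_injective hdet2
  have hk : ∀ t ∈ A, _ := fun t ht => key (N := N) hp hq' hqr' t (mem_F.mp (hAF ht)).1
    (mem_F.mp (hAF ht)).2 (hAR t ht)
  simp only [← hs, ← hs2] at hk
  have hD1 : Disjoint (F N) (A.image s) := by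
    rw [Finset.disjoint_left]
    intro u hu hu'
    obtain ⟨t, ht, rfl⟩ := Finset.mem_image.mp hu'
    have hm := mem_F.mp hu
    rcases hk t ht with h1 | h1
    · exact h1.2.1.2 hm.2
    · exact h1.2.1.1 hm.1
  have hD2 : Disjoint (F N ∪ A.image s) (A.image s2) := by
    rw [Finset.disjoint_left]
    intro u hu hu'
    obtain ⟨t, ht, rfl⟩ := Finset.mem_image.mp hu'
    rcases Finset.mem_union.mp hu with hu1 | hu1
    · have hm := mem_F.mp hu1
      rcases hk t ht with h1 | h1
      · exact h1.2.2.1 hm.1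
      · exact h1.2.2.2 hm.2
    · obtain ⟨t', ht', he⟩ := Finset.mem_image.mp hu1
      rcases hk t ht with h1 | h1
      · rcases hk t' ht' with h2 | h2
        · rw [he] at h2
          exact h1.2.2.1 h2.2.1.1
        · have := h1.1.symm.trans h2.1; norm_num at this
      · rcases hk t' ht' with h2 | h2
        · have := h1.1.symm.trans h2.1; norm_num at this
        · rw [he] at h2
          exact h1.2.2.2 h2.2.1.2
  have hsub : (F N ∪ A.image s) ∪ A.image s2 ⊆
      (F N ∪ (F N).image s) ∪ (F N).image s2 :=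
    Finset.union_subset_union (Finset.union_subset_union (Finset.Subset.refl _)
      (Finset.image_subset_image hAF)) (Finset.image_subset_image hAF)
  have hcard := Finset.card_le_card hsub
  rw [Finset.card_union_of_disjoint hD2, Finset.card_union_of_disjoint hD1,
    Finset.card_image_of_injective _ hs_inj, Finset.card_image_of_injective _ hs2_inj] at hcard
  have hcard' : ((F N).card : ℝ) + A.card + A.card ≤
      (((F N ∪ (F N).image s) ∪ (F N).image s2).card : ℝ) := by exact_mod_cast hcard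
  have := hC1 N hN
  linarith

end Pool.Agent.K6.H56.TL.U3
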