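import Pool.Agent.K6.H56.TL.Stm

set_option autoImplicit false

open scoped BigOperators ComplexConjugate
open Finset Filter

namespace Pool.Agent.K6.H56.TL.UP

noncomputable abbrev ph (v : V) : ℂ := phi 1 Complex.I v

lemma ph_add (v w : V) : ph (v + w) = ph v + ph w := by
  simp only [phi, Prod.fst_add, Prod.snd_add, Int.cast_add]
  ring

def cls (P : Set ℂ) (t : Set ℂ) : Set (Set ℂ) := {s | s ∈ tris P ∧ Cong t s}

lemma cong_refl (s : Set ℂ) : Cong s s := by
  refine ⟨IsometryEquiv.refl ℂ, ?_⟩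
  ext z
  constructor
  · rintro ⟨x, hx, h⟩
    have h' : x = z := h
    rw [← h']
    exact hx
  · intro h
    exact ⟨z, h, rfl⟩

lemma cong_symm {s t : Set ℂ} (h : Cong s t) : Cong t s := by
  obtain ⟨f, rfl⟩ := h
  refine ⟨f.symm, ?_⟩
  rw [Set.image_image]
  simp

lemma cong_trans {s t u : Set ℂ} (h : Cong s t) (h' : Cong t u) : Cong s u := by
  obtain ⟨f, rfl⟩ := h
  obtain ⟨g, rfl⟩ := h'
  refine ⟨f.trans g, ?_⟩
  rw [Set.image_image]
  rfl

lemma cls_eq {P s t : Set ℂ} (h : Cong s t) : cls P s = cls P t := by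
  ext x
  constructor
  · rintro ⟨h1, h2⟩
    exact ⟨h1, cong_trans (cong_symm h) h2⟩
  · rintro ⟨h1, h2⟩
    exact ⟨h1, cong_trans h h2⟩

noncomputable def cj (u c : ℂ) (hu : ‖u‖ = 1) : ℂ ≃ᵢ ℂ :=
  IsometryEquiv.mk' (fun z => u * conj z + c) (fun w => conj ((w - c) * conj u))
    (by
      intro w
      have hu2 : u * conj u = 1 := by
        rw [Complex.mul_conj, Complex.normSq_eq_norm_sq, hu]
        simp
      simp only [Complex.conj_conj]
      linear_combination (w - c) * hu2)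
    (by
      apply Isometry.of_dist_eq
      intro x y
      rw [dist_eq_norm, dist_eq_norm]
      have : u * conj x + c - (u * conj y + c) = u * conj (x - y) := by
        rw [map_sub]
        ring
      rw [this, norm_mul, hu, one_mul, RCLike.norm_conj])

lemma cj_apply (u c : ℂ) (hu : ‖u‖ = 1) (z : ℂ) : cj u c hu z = u * conj z + c := rfl

noncomputable def tri (p : V) (t : V × V) : Set ℂ := {ph p, ph (p + t.1), ph (p + t.2)}

def Rep (n : ℕ) (t : V × V) (c : Set (Set ℂ)) : Prop :=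
  ∃ p : V, InB (sq n) p ∧ InB (sq n) (p + t.1) ∧ InB (sq n) (p + t.2) ∧
    c = cls (sec 1 Complex.I n) (tri p t)

lemma rep_unique {n : ℕ} {t : V × V} {c c' : Set (Set ℂ)} (h : Rep n t c) (h' : Rep n t c') :
    c = c' := by
  obtain ⟨p, _, _, _, rfl⟩ := h
  obtain ⟨p', _, _, _, rfl⟩ := h'
  apply cls_eq
  refine ⟨IsometryEquiv.addRight (ph p' - ph p), ?_⟩
  unfold tri
  rw [Set.image_insert_eq, Set.image_insert_eq, Set.image_singleton]
  have happ : ∀ z : ℂ, (IsometryEquiv.addRight (ph p' - ph p)) z = z + (ph p' - ph p) :=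
    fun z => rfl
  simp only [happ, ph_add]
  have e1 : ph p + (ph p' - ph p) = ph p' := by ring
  have e2 : ph p + ph t.1 + (ph p' - ph p) = ph p' + ph t.1 := by ring
  have e3 : ph p + ph t.2 + (ph p' - ph p) = ph p' + ph t.2 := by ring
  rw [e1, e2, e3]

lemma rep_of_map {n : ℕ} {t t' : V × V} {c : Set (Set ℂ)} (m : V → V) (f : ℂ ≃ᵢ ℂ)
    (hf : ∀ v, ph (m v) = f (ph v)) (hm : ∀ v, InB (sq n) v → InB (sq n) (m v))
    (h1 : ∀ p, m (p + t.1) = m p + t'.1) (h2 : ∀ p, m (p + t.2) = m p + t'.2)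
    (h : Rep n t c) : Rep n t' c := by
  obtain ⟨p, a0, a1, a2, rfl⟩ := h
  refine ⟨m p, hm p a0, ?_, ?_, ?_⟩
  · rw [← h1]; exact hm _ a1
  · rw [← h2]; exact hm _ a2
  · apply cls_eq
    refine ⟨f, ?_⟩
    unfold tri
    rw [Set.image_insert_eq, Set.image_insert_eq, Set.image_singleton, ← h1, ← h2, hf, hf, hf]

lemma rep_g1 {n : ℕ} {t : V × V} {c : Set (Set ℂ)} (h : Rep n t c) :
    Rep n (act (-1) 0 0 1 t) c := by
  refine rep_of_map (fun v => ((sq n : ℤ) - 1 - v.1, v.2)) (cj (-1) ((sq n : ℂ) - 1) (by simp))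
    ?_ ?_ ?_ ?_ h
  · intro v
    rw [cj_apply]
    simp only [phi, map_add, map_mul, Complex.conj_I, mul_one, map_intCast]
    push_cast
    ring
  · intro v hv
    obtain ⟨h1, h2, h3, h4⟩ := hv
    refine ⟨?_, ?_, h3, h4⟩
    · show 0 ≤ (sq n : ℤ) - 1 - v.1
      omega
    · show (sq n : ℤ) - 1 - v.1 < (sq n : ℤ)
      omega
  · intro p
    apply Prod.ext <;> simp only [act, Prod.fst_add, Prod.snd_add] <;> ring
  · intro p
    apply Prod.ext <;> simp only [act, Prod.fst_add, Prod.snd_add] <;> ring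

lemma rep_g2 {n : ℕ} {t : V × V} {c : Set (Set ℂ)} (h : Rep n t c) :
    Rep n (act 0 1 1 0 t) c := by
  refine rep_of_map (fun v => (v.2, v.1)) (cj Complex.I 0 (by simp)) ?_ ?_ ?_ ?_ h
  · intro v
    rw [cj_apply]
    simp only [phi, map_add, map_mul, Complex.conj_I, mul_one, map_intCast]
    linear_combination (v.2 : ℂ) * Complex.I_mul_I
  · intro v hv
    obtain ⟨h1, h2, h3, h4⟩ := hv
    exact ⟨h3, h4, h1, h2⟩
  · intro p
    apply Prod.ext <;> simp only [act, Prod.fst_add, Prod.snd_add] <;> ring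
  · intro p
    apply Prod.ext <;> simp only [act, Prod.fst_add, Prod.snd_add] <;> ring

def HH : Finset (ℤ × ℤ × ℤ × ℤ) :=
  {(1, 0, 0, 1), (1, 0, 0, -1), (-1, 0, 0, 1), (-1, 0, 0, -1),
    (0, 1, 1, 0), (0, 1, -1, 0), (0, -1, 1, 0), (0, -1, -1, 0)}

lemma card_HH : HH.card = 8 := by decide

def ac (m : ℤ × ℤ × ℤ × ℤ) (t : V × V) : V × V := act m.1 m.2.1 m.2.2.1 m.2.2.2 t

lemma rep_ac {n : ℕ} {t : V × V} {c : Set (Set ℂ)} (h : Rep n t c) {m : ℤ × ℤ × ℤ × ℤ}
    (hm : m ∈ HH) : Rep n (ac m t) c := by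
  have key : ∀ t' : V × V, Rep n t' c → ∀ t'' : V × V, t' = t'' → Rep n t'' c := by
    intro t' h1 t'' h2
    rw [← h2]
    exact h1
  simp only [HH, Finset.mem_insert, Finset.mem_singleton] at hm
  rcases hm with rfl | rfl | rfl | rfl | rfl | rfl | rfl | rfl
  · exact key _ h _ (by simp [ac, act])
  · exact key _ (rep_g2 (rep_g1 (rep_g2 h))) _ (by simp [ac, act])
  · exact key _ (rep_g1 h) _ (by simp [ac, act])
  · exact key _ (rep_g1 (rep_g2 (rep_g1 (rep_g2 h)))) _ (by simp [ac, act])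
  · exact key _ (rep_g2 h) _ (by simp [ac, act])
  · exact key _ (rep_g2 (rep_g1 h)) _ (by simp [ac, act])
  · exact key _ (rep_g1 (rep_g2 h)) _ (by simp [ac, act])
  · exact key _ (rep_g1 (rep_g2 (rep_g1 h))) _ (by simp [ac, act])

def reord (k : Fin 6) (t : V × V) : V × V :=
  match k with
  | 0 => (t.1, t.2)
  | 1 => (t.2, t.1)
  | 2 => (-t.1, t.2 - t.1)
  | 3 => (t.2 - t.1, -t.1)
  | 4 => (-t.2, t.1 - t.2)
  | 5 => (t.1 - t.2, -t.2)

lemma rep_swap {n : ℕ} {v w : V} {c : Set (Set ℂ)} (h : Rep n (v, w) c) : Rep n (w, v) c := by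
  obtain ⟨p, a0, a1, a2, rfl⟩ := h
  refine ⟨p, a0, a2, a1, ?_⟩
  have : tri p (v, w) = tri p (w, v) := by
    unfold tri
    ext z
    simp only [Set.mem_insert_iff, Set.mem_singleton_iff]
    tauto
  rw [this]

lemma rep_base {n : ℕ} {v w : V} {c : Set (Set ℂ)} (h : Rep n (v, w) c) :
    Rep n (-v, w - v) c := by
  obtain ⟨p, a0, a1, a2, rfl⟩ := h
  have e1 : p + v + -v = p := by abel
  have e2 : p + v + (w - v) = p + w := by abel
  refine ⟨p + v, a1, ?_, ?_, ?_⟩
  · show InB (sq n) (p + v + -v)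
    rw [e1]
    exact a0
  · show InB (sq n) (p + v + (w - v))
    rw [e2]
    exact a2
  · have : tri p (v, w) = tri (p + v) (-v, w - v) := by
      unfold tri
      simp only
      rw [e1, e2]
      ext z
      simp only [Set.mem_insert_iff, Set.mem_singleton_iff]
      tauto
    rw [this]

lemma rep_reord {n : ℕ} {t : V × V} {c : Set (Set ℂ)} (h : Rep n t c) (k : Fin 6) :
    Rep n (reord k t) c := by
  obtain ⟨v, w⟩ := t
  fin_cases k
  · exact h
  · exact rep_swap h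
  · exact rep_base h
  · exact rep_swap (rep_base h)
  · exact rep_base (rep_swap h)
  · exact rep_swap (rep_base (rep_swap h))

def qq (v : V) : ℤ := v.1 ^ 2 + v.2 ^ 2

def Qp (α β γ : ℤ) (k : Fin 6) : ℤ × ℤ :=
  match k with
  | 0 => (α, β)
  | 1 => (β, α)
  | 2 => (α, γ)
  | 3 => (γ, α)
  | 4 => (β, γ)
  | 5 => (γ, β)

lemma reord_q (k : Fin 6) (t : V × V) :
    (qq (reord k t).1, qq (reord k t).2) = Qp (qq t.1) (qq t.2) (qq (t.1 - t.2)) k := by
  obtain ⟨⟨a, b⟩, ⟨c, d⟩⟩ := t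
  fin_cases k <;> apply Prod.ext <;>
    simp only [reord, qq, Qp, Prod.fst_sub, Prod.snd_sub, Prod.fst_neg, Prod.snd_neg] <;> ring

lemma Qp_inj {α β γ : ℤ} (h1 : α ≠ β) (h2 : α ≠ γ) (h3 : β ≠ γ) :
    Function.Injective (Qp α β γ) := by
  intro k k' h
  fin_cases k <;> fin_cases k' <;>
    first
    | rfl
    | (exfalso
       have e1 := congrArg Prod.fst h
       have e2 := congrArg Prod.snd h
       simp only [Qp] at e1 e2
       omega)

lemma det_reord (k : Fin 6) (t : V × V) : det (reord k t) = det t ∨ det (reord k t) = -det t := by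
  obtain ⟨⟨a, b⟩, ⟨c, d⟩⟩ := t
  fin_cases k
  · left; rfl
  · right; simp only [reord, det]; ring
  · right; simp only [reord, det, Prod.fst_sub, Prod.snd_sub, Prod.fst_neg, Prod.snd_neg]; ring
  · left; simp only [reord, det, Prod.fst_sub, Prod.snd_sub, Prod.fst_neg, Prod.snd_neg]; ring
  · left; simp only [reord, det, Prod.fst_sub, Prod.snd_sub, Prod.fst_neg, Prod.snd_neg]; ring
  · right; simp only [reord, det, Prod.fst_sub, Prod.snd_sub, Prod.fst_neg, Prod.snd_neg]; ring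

lemma qq_ac {m : ℤ × ℤ × ℤ × ℤ} (hm : m ∈ HH) (t : V × V) :
    qq (ac m t).1 = qq t.1 ∧ qq (ac m t).2 = qq t.2 := by
  simp only [HH, Finset.mem_insert, Finset.mem_singleton] at hm
  rcases hm with rfl | rfl | rfl | rfl | rfl | rfl | rfl | rfl <;>
    simp only [ac, act, qq] <;> constructor <;> ring

lemma ac_inj {m m' : ℤ × ℤ × ℤ × ℤ} {t : V × V} (ht : det t ≠ 0) (h : ac m t = ac m' t) :
    m = m' := by
  obtain ⟨p, q, r, s⟩ := m
  obtain ⟨p', q', r', s'⟩ := m'
  obtain ⟨⟨a, b⟩, ⟨c, d⟩⟩ := t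
  simp only [ac, act, Prod.mk.injEq] at h
  obtain ⟨⟨h1, h2⟩, ⟨h3, h4⟩⟩ := h
  simp only [det] at ht
  have e1 : p = p' := by
    apply sub_eq_zero.1
    apply (mul_eq_zero.1 (_ : (p - p') * (a * d - b * c) = 0)).resolve_right ht
    linear_combination d * h1 - b * h3
  have e2 : q = q' := by
    apply sub_eq_zero.1
    apply (mul_eq_zero.1 (_ : (q - q') * (a * d - b * c) = 0)).resolve_right ht
    linear_combination -c * h1 + a * h3
  have e3 : r = r' := by
    apply sub_eq_zero.1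
    apply (mul_eq_zero.1 (_ : (r - r') * (a * d - b * c) = 0)).resolve_right ht
    linear_combination d * h2 - b * h4
  have e4 : s = s' := by
    apply sub_eq_zero.1
    apply (mul_eq_zero.1 (_ : (s - s') * (a * d - b * c) = 0)).resolve_right ht
    linear_combination -c * h2 + a * h4
  rw [e1, e2, e3, e4]

def Scal (t : V × V) : Prop :=
  qq t.1 ≠ qq t.2 ∧ qq t.1 ≠ qq (t.1 - t.2) ∧ qq t.2 ≠ qq (t.1 - t.2)

lemma rep_mem_F {n : ℕ} {t : V × V} {c : Set (Set ℂ)} (h : Rep n t c) : t ∈ F (sq n) := by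
  classical
  obtain ⟨p, h0, h1, h2, _⟩ := h
  unfold F
  rw [Finset.mem_filter]
  refine ⟨?_, ⟨p, h0, h1, h2⟩⟩
  simp only [box, Finset.mem_product, Finset.mem_Icc, Prod.le_def]
  simp only [InB, Prod.fst_add, Prod.snd_add] at h0 h1 h2
  omega

open Classical in
lemma card48 {n : ℕ} {t : V × V} {c : Set (Set ℂ)} (h : Rep n t c) (hs : Scal t)
    (hd : det t ≠ 0) : 48 ≤ ((F (sq n)).filter (fun u => Rep n u c)).card := by
  have h1 : (HH ×ˢ (Finset.univ : Finset (Fin 6))).card = 48 := by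
    rw [Finset.card_product, card_HH]
    rfl
  rw [← h1]
  apply Finset.card_le_card_of_injOn (fun x => ac x.1 (reord x.2 t))
  · intro x hx
    have hx' := Finset.mem_product.1 (Finset.mem_coe.1 hx)
    have h2 := rep_ac (rep_reord h x.2) hx'.1
    exact Finset.mem_coe.2 (Finset.mem_filter.2 ⟨rep_mem_F h2, h2⟩)
  · intro x hx y hy hxy
    have hx' := (Finset.mem_product.1 (Finset.mem_coe.1 hx)).1
    have hy' := (Finset.mem_product.1 (Finset.mem_coe.1 hy)).1
    simp only at hxy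
    have a1 := qq_ac hx' (reord x.2 t)
    have a2 := qq_ac hy' (reord y.2 t)
    rw [hxy] at a1
    have a3 : (qq (reord x.2 t).1, qq (reord x.2 t).2) =
        (qq (reord y.2 t).1, qq (reord y.2 t).2) := by
      rw [← a1.1, ← a1.2, a2.1, a2.2]
    rw [reord_q, reord_q] at a3
    have a4 := Qp_inj hs.1 hs.2.1 hs.2.2 a3
    rw [a4] at hxy
    have a5 : det (reord y.2 t) ≠ 0 := by
      rcases det_reord y.2 t with h | h <;> rw [h]
      · exact hd
      · exact neg_ne_zero.2 hd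
    have a6 := ac_inj a5 hxy
    exact Prod.ext a6 a4

lemma cnt (N : ℕ) (S : Finset (V × V)) (f : V × V → ℤ × ℤ × ℤ × Bool)
    (hf : ∀ t ∈ S, (f t).1 ∈ Finset.Icc (-(N : ℤ)) N ∧ (f t).2.1 ∈ Finset.Icc (-(N : ℤ)) N ∧
      (f t).2.2.1 ∈ Finset.Icc (-(N : ℤ)) N) (hi : Set.InjOn f (S : Set (V × V))) :
    S.card ≤ 2 * (2 * N + 1) ^ 3 := by
  have h1 : (Finset.Icc (-(N : ℤ)) N ×ˢ (Finset.Icc (-(N : ℤ)) N ×ˢ
      (Finset.Icc (-(N : ℤ)) N ×ˢ (Finset.univ : Finset Bool)))).card = 2 * (2 * N + 1) ^ 3 := by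
    have h2 : (Finset.Icc (-(N : ℤ)) N).card = 2 * N + 1 := by
      rw [Int.card_Icc]
      omega
    simp only [Finset.card_product, h2, Finset.card_univ, Fintype.card_bool]
    ring
  rw [← h1]
  apply Finset.card_le_card_of_injOn f _ hi
  intro t ht
  obtain ⟨b1, b2, b3⟩ := hf t (Finset.mem_coe.1 ht)
  simp only [Finset.coe_product, Set.mem_prod, Finset.mem_coe]
  exact ⟨b1, b2, b3, Finset.mem_univ _⟩

lemma sq_sign {x y : ℤ} (h : x ^ 2 = y ^ 2) (hs : decide (0 ≤ x) = decide (0 ≤ y)) : x = y := by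
  rcases sq_eq_sq_iff_eq_or_eq_neg.1 h with h1 | h1
  · exact h1
  · have h2 : (0 ≤ x ↔ 0 ≤ y) := by
      rw [decide_eq_decide] at hs
      exact hs
    omega

open Classical in
lemma card_ns (N : ℕ) : ((box N).filter (fun t => ¬ Scal t)).card ≤ 6 * (2 * N + 1) ^ 3 := by
  have hsub : (box N).filter (fun t => ¬ Scal t) ⊆
      ((box N).filter (fun t => qq t.1 = qq t.2)) ∪
      (((box N).filter (fun t => qq t.1 = qq (t.1 - t.2))) ∪
        ((box N).filter (fun t => qq t.2 = qq (t.1 - t.2)))) := by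
    intro t ht
    obtain ⟨h1, h2⟩ := Finset.mem_filter.1 ht
    simp only [Finset.mem_union, Finset.mem_filter, h1, true_and]
    unfold Scal at h2
    tauto
  have hbox : ∀ t ∈ box N, (t.1.1 ∈ Finset.Icc (-(N : ℤ)) N ∧ t.1.2 ∈ Finset.Icc (-(N : ℤ)) N) ∧
      (t.2.1 ∈ Finset.Icc (-(N : ℤ)) N ∧ t.2.2 ∈ Finset.Icc (-(N : ℤ)) N) := by
    intro t ht
    simp only [box, Finset.mem_product, Finset.mem_Icc, Prod.le_def] at ht
    simp only [Finset.mem_Icc]
    tauto
  have c1 : ((box N).filter (fun t => qq t.1 = qq t.2)).card ≤ 2 * (2 * N + 1) ^ 3 := by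
    apply cnt N _ (fun t => (t.1.1, t.1.2, t.2.1, decide (0 ≤ t.2.2)))
    · intro t ht
      have := hbox t (Finset.mem_filter.1 ht).1
      exact ⟨this.1.1, this.1.2, this.2.1⟩
    · rintro ⟨⟨a, b⟩, ⟨c, d⟩⟩ ht ⟨⟨a', b'⟩, ⟨c', d'⟩⟩ ht' h
      have e1 := (Finset.mem_filter.1 (Finset.mem_coe.1 ht)).2
      have e2 := (Finset.mem_filter.1 (Finset.mem_coe.1 ht')).2
      simp only [Prod.mk.injEq] at h
      obtain ⟨rfl, rfl, rfl, h4⟩ := h
      simp only [qq] at e1 e2
      have e3 : d = d' := sq_sign (by linear_combination e2 - e1) h4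
      rw [e3]
  have c2 : ((box N).filter (fun t => qq t.1 = qq (t.1 - t.2))).card ≤ 2 * (2 * N + 1) ^ 3 := by
    apply cnt N _ (fun t => (t.1.1, t.1.2, t.2.1, decide (0 ≤ t.1.2 - t.2.2)))
    · intro t ht
      have := hbox t (Finset.mem_filter.1 ht).1
      exact ⟨this.1.1, this.1.2, this.2.1⟩
    · rintro ⟨⟨a, b⟩, ⟨c, d⟩⟩ ht ⟨⟨a', b'⟩, ⟨c', d'⟩⟩ ht' h
      have e1 := (Finset.mem_filter.1 (Finset.mem_coe.1 ht)).2
      have e2 := (Finset.mem_filter.1 (Finset.mem_coe.1 ht')).2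
      simp only [Prod.mk.injEq] at h
      obtain ⟨rfl, rfl, rfl, h4⟩ := h
      simp only [qq, Prod.fst_sub, Prod.snd_sub] at e1 e2
      have e3 : b - d = b - d' := sq_sign (by linear_combination e2 - e1) h4
      have e4 : d = d' := by linarith
      rw [e4]
  have c3 : ((box N).filter (fun t => qq t.2 = qq (t.1 - t.2))).card ≤ 2 * (2 * N + 1) ^ 3 := by
    apply cnt N _ (fun t => (t.2.1, t.2.2, t.1.1, decide (0 ≤ t.1.2 - t.2.2)))
    · intro t ht
      have := hbox t (Finset.mem_filter.1 ht).1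
      exact ⟨this.2.1, this.2.2, this.1.1⟩
    · rintro ⟨⟨a, b⟩, ⟨c, d⟩⟩ ht ⟨⟨a', b'⟩, ⟨c', d'⟩⟩ ht' h
      have e1 := (Finset.mem_filter.1 (Finset.mem_coe.1 ht)).2
      have e2 := (Finset.mem_filter.1 (Finset.mem_coe.1 ht')).2
      simp only [Prod.mk.injEq] at h
      obtain ⟨rfl, rfl, rfl, h4⟩ := h
      simp only [qq, Prod.fst_sub, Prod.snd_sub] at e1 e2
      have e3 : b - d = b' - d := sq_sign (by linear_combination e2 - e1) h4
      have e4 : b = b' := by linarith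
      rw [e4]
  have := Finset.card_le_card hsub
  have d1 := Finset.card_union_le ((box N).filter (fun t => qq t.1 = qq t.2))
    (((box N).filter (fun t => qq t.1 = qq (t.1 - t.2))) ∪
        ((box N).filter (fun t => qq t.2 = qq (t.1 - t.2))))
  have d2 := Finset.card_union_le ((box N).filter (fun t => qq t.1 = qq (t.1 - t.2)))
        ((box N).filter (fun t => qq t.2 = qq (t.1 - t.2)))
  omega

lemma exists_rep (hC : S_COL) {n : ℕ} {t : Set ℂ} (ht : t ∈ tris (sec 1 Complex.I n)) :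
    ∃ u : V × V, det u ≠ 0 ∧ Rep n u (cls (sec 1 Complex.I n) t) := by
  obtain ⟨hsub, p, q, r, rfl, hncol⟩ := ht
  have key : ∀ z ∈ sec 1 Complex.I n, ∃ v : V, InB (sq n) v ∧ ph v = z := by
    rintro z ⟨u, v, hu, hv, rfl⟩
    refine ⟨((u : ℤ), (v : ℤ)), ⟨?_, ?_, ?_, ?_⟩, ?_⟩
    · exact Int.natCast_nonneg u
    · have := Nat.lt_ceil.2 hu
      show (u : ℤ) < (sq n : ℤ)
      exact_mod_cast this
    · exact Int.natCast_nonneg v
    · have := Nat.lt_ceil.2 hv
      show (v : ℤ) < (sq n : ℤ)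
      exact_mod_cast this
    · simp [phi]
  obtain ⟨p', hp, rfl⟩ := key p (hsub (by simp))
  obtain ⟨q', hq, rfl⟩ := key q (hsub (by simp))
  obtain ⟨r', hr, rfl⟩ := key r (hsub (by simp))
  have e1 : p' + (q' - p') = q' := by abel
  have e2 : p' + (r' - p') = r' := by abel
  refine ⟨(q' - p', r' - p'), ?_, p', hp, ?_, ?_, ?_⟩
  · intro hdet
    apply hncol
    rw [hC.1]
    have e3 : ph q' - ph p' = ph (q' - p') := by
      have := ph_add p' (q' - p')
      rw [e1] at this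
      rw [this]; ring
    have e4 : ph r' - ph p' = ph (r' - p') := by
      have := ph_add p' (r' - p')
      rw [e2] at this
      rw [this]; ring
    have h3 := hC.2.2 1 Complex.I (q' - p', r' - p')
    rw [hdet] at h3
    rw [e3, e4, h3]
    simp
  · show InB (sq n) (p' + (q' - p'))
    rw [e1]; exact hq
  · show InB (sq n) (p' + (r' - p'))
    rw [e2]; exact hr
  · unfold tri
    simp only
    rw [e1, e2]

lemma sec_finite (a b : ℂ) (n : ℕ) : (sec a b n).Finite := by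
  have : sec a b n ⊆ (fun x : ℕ × ℕ => (x.1 : ℂ) * a + x.2 * b) ''
      (((Finset.range (sq n)) ×ˢ (Finset.range (sq n)) : Finset (ℕ × ℕ)) : Set (ℕ × ℕ)) := by
    rintro z ⟨u, v, hu, hv, rfl⟩
    refine ⟨(u, v), ?_, rfl⟩
    simp only [Finset.coe_product, Set.mem_prod, Finset.coe_range, Set.mem_Iio]
    exact ⟨Nat.lt_ceil.2 hu, Nat.lt_ceil.2 hv⟩
  exact (Set.Finite.image _ (Finset.finite_toSet _)).subset this

lemma tris_finite (a b : ℂ) (n : ℕ) : (tris (sec a b n)).Finite := by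
  apply (sec_finite a b n).finite_subsets.subset
  intro t ht
  exact ht.1

theorem main (hC : S_COL) (n : ℕ) :
    48 * T (sec 1 Complex.I n) ≤ (F (sq n)).card + 48 * (6 * (2 * sq n + 1) ^ 3) := by
  classical
  set P := sec 1 Complex.I n with hP
  set CC : Set (Set (Set ℂ)) := {c : Set (Set ℂ) | ∃ t ∈ tris P, c = {s | s ∈ tris P ∧ Cong t s}}
    with hCC
  have hCCf : CC.Finite := by
    have : CC ⊆ cls P '' (tris P) := by
      rintro c ⟨t, ht, rfl⟩
      exact ⟨t, ht, rfl⟩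
    exact ((tris_finite 1 Complex.I n).image (cls P)).subset this
  have hT : T P = hCCf.toFinset.card := by
    unfold T
    exact Set.ncard_eq_toFinset_card _ hCCf
  have hrep : ∀ c ∈ hCCf.toFinset, ∃ u : V × V, det u ≠ 0 ∧ Rep n u c := by
    intro c hc
    obtain ⟨t, ht, rfl⟩ := hCCf.mem_toFinset.1 hc
    exact exists_rep hC ht
  choose! rp hrp1 hrp2 using hrep
  set A := hCCf.toFinset.filter (fun c => Scal (rp c)) with hA
  set B := hCCf.toFinset.filter (fun c => ¬ Scal (rp c)) with hB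
  have hAB : A.card + B.card = hCCf.toFinset.card := Finset.card_filter_add_card_filter_not _
  have hBc : B.card ≤ 6 * (2 * sq n + 1) ^ 3 := by
    refine le_trans ?_ (card_ns (sq n))
    apply Finset.card_le_card_of_injOn rp
    · intro c hc
      obtain ⟨h1, h2⟩ := Finset.mem_filter.1 (Finset.mem_coe.1 hc)
      apply Finset.mem_coe.2
      refine Finset.mem_filter.2 ⟨?_, h2⟩
      have := rep_mem_F (hrp2 c h1)
      exact (Finset.mem_filter.1 this).1
    · intro c hc c' hc' h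
      obtain ⟨h1, h2⟩ := Finset.mem_filter.1 (Finset.mem_coe.1 hc)
      obtain ⟨h1', h2'⟩ := Finset.mem_filter.1 (Finset.mem_coe.1 hc')
      have k1 := hrp2 c h1
      have k2 := hrp2 c' h1'
      rw [← h] at k2
      exact rep_unique k1 k2
  have hAc : 48 * A.card ≤ (F (sq n)).card := by
    have k1 : ∑ c ∈ A, ((F (sq n)).filter (fun u => Rep n u c)).card =
        (A.biUnion fun c => (F (sq n)).filter (fun u => Rep n u c)).card := by
      rw [Finset.card_biUnion]
      intro c hc c' hc' hne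
      rw [Function.onFun, Finset.disjoint_left]
      intro u hu hu'
      apply hne
      exact rep_unique (Finset.mem_filter.1 hu).2 (Finset.mem_filter.1 hu').2
    have k2 : (A.biUnion fun c => (F (sq n)).filter (fun u => Rep n u c)).card ≤
        (F (sq n)).card := by
      apply Finset.card_le_card
      intro u hu
      obtain ⟨c, _, h⟩ := Finset.mem_biUnion.1 hu
      exact (Finset.mem_filter.1 h).1
    have k3 : ∑ c ∈ A, 48 ≤ ∑ c ∈ A, ((F (sq n)).filter (fun u => Rep n u c)).card := by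
      apply Finset.sum_le_sum
      intro c hc
      obtain ⟨h1, h2⟩ := Finset.mem_filter.1 hc
      exact card48 (hrp2 c h1) h2 (hrp1 c h1)
    rw [Finset.sum_const, smul_eq_mul] at k3
    omega
  rw [hT]
  omega

theorem t_UP (_hI : S_ISO) (hC : S_COL) : S_UP := by
  refine ⟨48 * 6 * 27, ?_⟩
  intro n hn
  have h1 := main hC n
  have hN : 1 ≤ sq n := by
    unfold sq
    rw [Nat.one_le_ceil_iff]
    apply Real.sqrt_pos.2
    exact_mod_cast hn
  have h2 : (48 * (T (sec 1 Complex.I n) : ℝ)) ≤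
      ((F (sq n)).card : ℝ) + 48 * (6 * (2 * (sq n : ℝ) + 1) ^ 3) := by exact_mod_cast h1
  have hx : (1 : ℝ) ≤ (sq n : ℝ) := by exact_mod_cast hN
  have h3 : (2 * (sq n : ℝ) + 1) ^ 3 ≤ (3 * (sq n : ℝ)) ^ 3 := by
    apply pow_le_pow_left₀ (by linarith)
    linarith
  have h4 : (3 * (sq n : ℝ)) ^ 3 = 27 * (sq n : ℝ) ^ 3 := by ring
  rw [h4] at h3
  linarith

end Pool.Agent.K6.H56.TL.UP
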