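import Pool.Agent.K6.H56.TL.MAIN
import Pool.Agent.K6.H56.TL.A1
import Pool.Agent.K6.H56.TL.ARI
import Pool.Agent.K6.H56.TL.BDD
import Pool.Agent.K6.H56.TL.SIM
import Pool.Agent.K6.H56.TL.NT43
import Pool.Agent.K6.H56.TL.NT7
import Pool.Agent.K6.H56.TL.CF
import Pool.Agent.K6.H56.TL.LOC
import Pool.Agent.K6.H56.TL.CNT
import Pool.Agent.K6.H56.TL.CNTF
import Pool.Agent.K6.H56.TL.CNT4
import Pool.Agent.K6.H56.TL.CNT3
import Pool.Agent.K6.H56.TL.CS
import Pool.Agent.K6.H56.TL.PAIR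
import Pool.Agent.K6.H56.TL.SH
import Pool.Agent.K6.H56.TL.DG
import Pool.Agent.K6.H56.TL.ISO
import Pool.Agent.K6.H56.TL.EXC
import Pool.Agent.K6.H56.TL.FAM
import Pool.Agent.K6.H56.TL.LOW
import Pool.Agent.K6.H56.TL.IDX
import Pool.Agent.K6.H56.TL.RED
import Pool.Agent.K6.H56.TL.SUM
import Pool.Agent.K6.H56.TL.ROT
import Pool.Agent.K6.H56.TL.TYPE
import Pool.Agent.K6.H56.TL.U2
import Pool.Agent.K6.H56.TL.U3
import Pool.Agent.K6.H56.TL.COL
import Pool.Agent.K6.H56.TL.GRP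
import Pool.Agent.K6.H56.TL.FUND
import Pool.Agent.K6.H56.TL.C3
import Pool.Agent.K6.H56.TL.UP

/-! The pieces put together. -/

set_option autoImplicit false

open scoped BigOperators ComplexConjugate
open Finset Filter

namespace Pool.Agent.K6.H56.TL.FIN

open Pool.Agent.K6.H56.TL

theorem cf : S_CF := CF.t_CF
theorem col : S_COL := COL.t_COL
theorem fam : S_FAM := FAM.t_FAM cf
theorem rot : S_ROT := ROT.t_ROT DG.t_DG IDX.t_IDX SH.t_SH CS.t_CS (PAIR.t_PAIR col)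
theorem u2 : S_U2 := U2.t_U2 cf fam SH.t_SH
theorem u3 : S_U3 := U3.t_U3 fam C3.t_C3
theorem up : S_UP := UP.t_UP ISO.t_ISO col
theorem low : S_LOW := LOW.t_LOW ISO.t_ISO col
theorem bdd : S_BDD := BDD.t_BDD ISO.t_ISO col
theorem sim : S_SIM := SIM.t_SIM col
theorem fund : S_FUND :=
  FUND.t_FUND (CNT.t_CNT TYPE.t_TYPE) LOC.t_LOC SUM.t_SUM EXC.t_EXC GRP.t_GRP
theorem nt4 : S_NT4 :=
  NT43.t_NT4 (CNT4.t_CNT4 TYPE.t_TYPE) LOC.t_LOC SUM.t_SUM EXC.t_EXC GRP.t_GRP
theorem nt3 : S_NT3 :=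
  NT43.t_NT3 (CNT3.t_CNT3 TYPE.t_TYPE) LOC.t_LOC SUM.t_SUM EXC.t_EXC GRP.t_GRP
theorem nt34 : S_34 :=
  NT43.t_34 (CNTF.t_CNTF TYPE.t_TYPE) LOC.t_LOC SUM.t_SUM EXC.t_EXC GRP.t_GRP
theorem nt7 : S_NT7 := NT7.t_NT7 fund RED.t_RED nt34 nt4 nt3
theorem ari : S_ARI := ARI.t_ARI (t_A1 col) nt7 nt4 nt3

/-- The rotation sum of the square lattice. -/
theorem rotb_sq : RotB 1 Complex.I (24 / 5) := by
  have hli : LinearIndependent ℝ ![(1 : ℂ), Complex.I] := by
    rw [col.2.1]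
    simp
  rcases ari 1 Complex.I hli with h | ⟨h, _⟩ | ⟨h, w, p, q, r, hw, hpq, h1, h2⟩
  · exact fun Φ hΦ => (h Φ hΦ).trans (by norm_num)
  · exact h
  · exfalso
    -- `w = p + r i`, `w² + w + 1 = 0`
    have e : w = (p : ℂ) + r * Complex.I := by simpa using h1
    rw [e] at hw
    have him := congrArg Complex.im hw
    have hre := congrArg Complex.re hw
    simp [pow_two] at him hre
    have hi : (2 * (p : ℤ) + 1) * r = 0 := by
      have : (2 * (p : ℝ) + 1) * r = 0 := by linarith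
      exact_mod_cast this
    have hr : (p : ℤ) * p - r * r + p + 1 = 0 := by exact_mod_cast hre
    rcases mul_eq_zero.1 hi with h0 | h0
    · omega
    · subst h0
      nlinarith [sq_nonneg (2 * p + 1)]

/-- The criterion for the lower bound. -/
theorem lowerG (y : ℝ) (hy : 1 ≤ y) (a b : ℂ) (hab : LinearIndependent ℝ ![a, b])
    (h : ∀ ε : ℝ, 0 < ε → ∀ᶠ N : ℕ in atTop, (y - ε) * (N : ℝ) ^ 4 ≤
      ((((F N).filter (fun t => det t ≠ 0)).image (gg a b)).card : ℝ)) :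
    y / 12 ≤ liminf (fun n : ℕ => (T (sec a b n) : ℝ) / (n : ℝ) ^ 2) atTop := by
  refine le_of_forall_pos_lt_add fun ε hε => ?_
  have hcob : IsCoboundedUnder (· ≥ ·) atTop (fun n : ℕ => (T (sec a b n) : ℝ) / (n : ℝ) ^ 2) :=
    IsBoundedUnder.isCoboundedUnder_ge ⟨18, by
      rw [eventually_map]
      exact MAIN.bddT cf bdd a b hab⟩
  have key : y / 12 - min ε 1 / 12 ≤
      liminf (fun n : ℕ => (T (sec a b n) : ℝ) / (n : ℝ) ^ 2) atTop := by
    refine le_liminf_of_le hcob ?_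
    have h1 := h (min ε 1) (by positivity)
    have h2 := MAIN.tendsto_sq.eventually h1
    filter_upwards [h2, eventually_ge_atTop 1] with n hn h3
    have hn0 : (0 : ℝ) < (n : ℝ) ^ 2 := by
      have : (0 : ℝ) < n := by exact_mod_cast h3
      positivity
    rw [le_div_iff₀ hn0]
    have h4 : ((((F (sq n)).filter (fun t => det t ≠ 0)).image (gg a b)).card : ℝ) ≤
        12 * (T (sec a b n) : ℝ) := by exact_mod_cast low a b hab n
    have h5 := MAIN.sq4_ge n
    have h6 : (0 : ℝ) ≤ y - min ε 1 := by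
      have := min_le_right ε 1
      linarith
    have h7 := mul_le_mul_of_nonneg_left h5 h6
    nlinarith
  have hm := min_le_left ε 1
  have hm2 : 0 < min ε 1 := by positivity
  linarith

theorem li_one_I : LinearIndependent ℝ ![(1 : ℂ), Complex.I] := by
  rw [col.2.1]
  simp

/-- The lower bound for the square lattice. -/
theorem lower_sq :
    (5 : ℝ) / 32 ≤ liminf (fun n : ℕ => (T (sec 1 Complex.I n) : ℝ) / (n : ℝ) ^ 2) atTop := by
  have h := lowerG (15 / 8) (by norm_num) 1 Complex.I li_one_I fun ε hε => by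
    have := rot 1 Complex.I li_one_I F 1 9 (24 / 5) fam.1 (by norm_num) (by norm_num) rotb_sq ε hε
    norm_num at this
    norm_num
    exact this
  have e : (15 : ℝ) / 8 / 12 = 5 / 32 := by norm_num
  rwa [e] at h

theorem ev_others (a b : ℂ) (hab : LinearIndependent ℝ ![a, b]) (hb1 : b ≠ a * Complex.I)
    (hb2 : b ≠ a * (-Complex.I)) (ε : ℝ) (hε : 0 < ε) :
    ∀ᶠ n : ℕ in atTop, (3 / 16 - ε) * (n : ℝ) ^ 2 ≤ (T (sec a b n) : ℝ) := by
  have h := MAIN.others cf rot fam u2 u3 low bdd ari a b hab hb1 hb2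
  have hb : IsBoundedUnder (· ≥ ·) atTop (fun n : ℕ => (T (sec a b n) : ℝ) / (n : ℝ) ^ 2) :=
    ⟨0, by
      rw [eventually_map]
      exact Eventually.of_forall fun n => by positivity⟩
  have h2 := eventually_lt_of_lt_liminf (lt_of_lt_of_le (sub_lt_self (3 / 16 : ℝ) hε) h) hb
  filter_upwards [h2, eventually_ge_atTop 1] with n hn h3
  have hn0 : (0 : ℝ) < (n : ℝ) ^ 2 := by
    have : (0 : ℝ) < n := by exact_mod_cast h3
    positivity
  exact ((lt_div_iff₀ hn0).1 hn).le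

theorem ev_upper (ε : ℝ) (hε : 0 < ε) :
    ∀ᶠ n : ℕ in atTop, (T (sec 1 Complex.I n) : ℝ) ≤ (3 / 16 + ε) * (n : ℝ) ^ 2 := by
  filter_upwards [MAIN.upper cf up ε hε, eventually_ge_atTop 1] with n hn h3
  have hn0 : (0 : ℝ) < (n : ℝ) ^ 2 := by
    have : (0 : ℝ) < n := by exact_mod_cast h3
    positivity
  exact (div_le_iff₀ hn0).1 hn

theorem ev_bdd (a b : ℂ) (hab : LinearIndependent ℝ ![a, b]) :
    ∀ᶠ n : ℕ in atTop, (T (sec a b n) : ℝ) ≤ 18 * (n : ℝ) ^ 2 := by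
  filter_upwards [MAIN.bddT cf bdd a b hab, eventually_ge_atTop 1] with n hn h3
  have hn0 : (0 : ℝ) < (n : ℝ) ^ 2 := by
    have : (0 : ℝ) < n := by exact_mod_cast h3
    positivity
  exact (div_le_iff₀ hn0).1 hn

/-- The comparison for every large `n`. -/
theorem ev_main (a b : ℂ) (hab : LinearIndependent ℝ ![a, b]) (ε : ℝ) (hε : 0 < ε) :
    ∀ᶠ n : ℕ in atTop,
      (T (sec 1 Complex.I n) : ℝ) ≤ (T (sec a b n) : ℝ) + ε * (n : ℝ) ^ 2 := by
  have ha0 : a ≠ 0 := by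
    intro h0
    have := hab.ne_zero 0
    exact this (by simpa using h0)
  by_cases h : b = a * Complex.I ∨ b = a * (-Complex.I)
  · refine Eventually.of_forall fun n => ?_
    rw [MAIN.same sim a b ha0 h n]
    have : 0 ≤ ε * (n : ℝ) ^ 2 := by positivity
    linarith
  · push Not at h
    filter_upwards [ev_others a b hab h.1 h.2 (ε / 2) (by positivity),
      ev_upper (ε / 2) (by positivity)] with n h1 h2
    nlinarith

theorem main : S_MAIN := MAIN.t_MAIN cf rot fam u2 u3 low up bdd sim ari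

end Pool.Agent.K6.H56.TL.FIN
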