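import Pool.Agent.K6.H56.TL.Stm

/-! Grouping by the value of the form. -/

set_option autoImplicit false

open scoped BigOperators
open Finset

namespace Pool.Agent.K6.H56.TL.GRP

open Pool.Agent.K6.H56.TL

theorem t_GRP : S_GRP := by
  classical
  intro Q c P B Φ h1 h2 h3
  -- the value of z
  let zz : V → ℕ := fun v => (Q v).natAbs.sqrt
  have hz : ∀ v ∈ Φ, 0 < zz v ∧ P (zz v) ∧ Q v = ((zz v : ℕ) : ℤ) ^ 2 := by
    intro v hv
    obtain ⟨z, hz0, hPz, hQ⟩ := h1 v hv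
    have : zz v = z := by
      show (Q v).natAbs.sqrt = z
      rw [hQ, Int.natAbs_pow, Int.natAbs_natCast, Nat.sqrt_eq']
    rw [this]
    exact ⟨hz0, hPz, hQ⟩
  have hfib : ∑ v ∈ Φ, 1 / (Q v : ℝ) = ∑ n ∈ Φ.image zz, ∑ v ∈ Φ.filter (fun v => zz v = n),
      1 / (Q v : ℝ) := by
    rw [Finset.sum_fiberwise_of_maps_to]
    intro v hv
    exact Finset.mem_image_of_mem zz hv
  rw [hfib]
  have hle : ∀ n ∈ Φ.image zz, ∑ v ∈ Φ.filter (fun v => zz v = n), 1 / (Q v : ℝ) ≤ c * fw n := by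
    intro n hn
    obtain ⟨v0, hv0, rfl⟩ := Finset.mem_image.1 hn
    obtain ⟨hpos, -, -⟩ := hz v0 hv0
    have hconst : ∀ v ∈ Φ.filter (fun v => zz v = zz v0), 1 / (Q v : ℝ) = 1 / ((zz v0 : ℕ) : ℝ) ^ 2 := by
      intro v hv
      rw [Finset.mem_filter] at hv
      obtain ⟨-, -, hQ⟩ := hz v hv.1
      rw [hQ, hv.2]
      push_cast
      rfl
    rw [Finset.sum_congr rfl hconst, Finset.sum_const, nsmul_eq_mul]
    have hsub : (Φ.filter (fun v => zz v = zz v0)) ⊆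
        (Φ.filter (fun v => Q v = ((zz v0 : ℕ) : ℤ) ^ 2)) := by
      intro v hv
      rw [Finset.mem_filter] at hv ⊢
      obtain ⟨-, -, hQ⟩ := hz v hv.1
      refine ⟨hv.1, ?_⟩
      rw [hQ, hv.2]
    have hcard := (Finset.card_le_card hsub).trans (h2 (zz v0) hpos)
    have hcard' : ((Φ.filter (fun v => zz v = zz v0)).card : ℝ) ≤
        c * 2 ^ (zz v0).primeFactors.card := by exact_mod_cast hcard
    unfold fw
    have hp : (0 : ℝ) < ((zz v0 : ℕ) : ℝ) ^ 2 := by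
      have : (0 : ℝ) < ((zz v0 : ℕ) : ℝ) := by exact_mod_cast hpos
      positivity
    rw [mul_one_div, ← mul_div_assoc]
    exact div_le_div_of_nonneg_right hcard' hp.le
  refine (Finset.sum_le_sum hle).trans ?_
  rw [← Finset.mul_sum]
  refine mul_le_mul_of_nonneg_left ?_ (Nat.cast_nonneg c)
  apply h3
  intro n hn
  obtain ⟨v, hv, rfl⟩ := Finset.mem_image.1 hn
  exact ⟨(hz v hv).1, (hz v hv).2.1⟩

end Pool.Agent.K6.H56.TL.GRP
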