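import Pool.Agent.K6.H56.TL.Stm

/-! Assembly of the theorem on distinct triangles in lattice sections. -/

set_option autoImplicit false

open scoped BigOperators ComplexConjugate
open Finset Filter

namespace Pool.Agent.K6.H56.TL.MAIN

open Pool.Agent.K6.H56.TL

theorem sq_ge (n : ℕ) : Real.sqrt n ≤ sq n := Nat.le_ceil _

theorem sq_lt (n : ℕ) : (sq n : ℝ) < Real.sqrt n + 1 := Nat.ceil_lt_add_one (Real.sqrt_nonneg _)

theorem sq4_ge (n : ℕ) : (n : ℝ) ^ 2 ≤ (sq n : ℝ) ^ 4 := by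
  have h := sq_ge n
  have h0 := Real.sqrt_nonneg (n : ℝ)
  have h1 : Real.sqrt n ^ 4 ≤ (sq n : ℝ) ^ 4 := pow_le_pow_left₀ h0 h 4
  have h2 : Real.sqrt n ^ 4 = (n : ℝ) ^ 2 := by
    have := Real.sq_sqrt (Nat.cast_nonneg n : (0 : ℝ) ≤ n)
    calc Real.sqrt n ^ 4 = (Real.sqrt n ^ 2) ^ 2 := by ring
      _ = _ := by rw [this]
  linarith

theorem tendsto_sq : Tendsto sq atTop atTop := by
  have h1 : Tendsto (fun n : ℕ => Real.sqrt n) atTop atTop :=
    Real.tendsto_sqrt_atTop.comp tendsto_natCast_atTop_atTop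
  exact tendsto_nat_ceil_atTop.comp h1

/-- `(sq n)^4 / n^2 → 1`, in the form of an upper bound. -/
theorem sq4_le (ε : ℝ) (hε : 0 < ε) : ∀ᶠ n : ℕ in atTop, (sq n : ℝ) ^ 4 ≤ (1 + ε) * (n : ℝ) ^ 2 := by
  -- choose δ with (1+δ)^4 ≤ 1+ε
  have hc : Tendsto (fun δ : ℝ => (1 + δ) ^ 4) (nhds 0) (nhds 1) := by
    have : Continuous fun δ : ℝ => (1 + δ) ^ 4 := by fun_prop
    have h := this.tendsto 0
    simpa using h
  have hev : ∀ᶠ δ : ℝ in nhds 0, (1 + δ) ^ 4 < 1 + ε := hc.eventually_lt_const (by linarith)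
  obtain ⟨δ, hδ0, hδ⟩ : ∃ δ : ℝ, 0 < δ ∧ (1 + δ) ^ 4 < 1 + ε := by
    have h2 : ∀ᶠ δ : ℝ in nhdsWithin 0 (Set.Ioi 0), (1 + δ) ^ 4 < 1 + ε ∧ δ ∈ Set.Ioi (0 : ℝ) :=
      (hev.filter_mono nhdsWithin_le_nhds).and self_mem_nhdsWithin
    obtain ⟨δ, h1, h2⟩ := h2.exists
    exact ⟨δ, h2, h1⟩
  have h1 : Tendsto (fun n : ℕ => Real.sqrt n) atTop atTop :=
    Real.tendsto_sqrt_atTop.comp tendsto_natCast_atTop_atTop
  filter_upwards [h1.eventually_ge_atTop (1 / δ)] with n hn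
  have hs := sq_lt n
  have h0 := Real.sqrt_nonneg (n : ℝ)
  have h3 : (1 : ℝ) ≤ δ * Real.sqrt n := by
    rw [div_le_iff₀ hδ0] at hn
    linarith
  have h4 : (sq n : ℝ) ≤ (1 + δ) * Real.sqrt n := by nlinarith
  have h5 : (sq n : ℝ) ^ 4 ≤ ((1 + δ) * Real.sqrt n) ^ 4 :=
    pow_le_pow_left₀ (Nat.cast_nonneg _) h4 4
  have h6 : Real.sqrt n ^ 4 = (n : ℝ) ^ 2 := by
    have := Real.sq_sqrt (Nat.cast_nonneg n : (0 : ℝ) ≤ n)
    calc Real.sqrt n ^ 4 = (Real.sqrt n ^ 2) ^ 2 := by ring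
      _ = _ := by rw [this]
  rw [mul_pow, h6] at h5
  refine h5.trans ?_
  exact mul_le_mul_of_nonneg_right hδ.le (by positivity)

theorem upper (hCF : S_CF) (hUP : S_UP) (ε : ℝ) (hε : 0 < ε) : ∀ᶠ n : ℕ in atTop,
    (T (sec 1 Complex.I n) : ℝ) / (n : ℝ) ^ 2 ≤ 3 / 16 + ε := by
  obtain ⟨C, hC⟩ := hUP
  have hC' : ∀ n : ℕ, 1 ≤ n → 48 * (T (sec 1 Complex.I n) : ℝ) ≤
      9 * (sq n : ℝ) ^ 4 + (|C| + 18) * (sq n : ℝ) ^ 3 := by
    intro n hn
    have h1 := hC n hn
    have hs1 : 1 ≤ sq n := by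
      have : (0 : ℝ) < Real.sqrt n := Real.sqrt_pos.2 (by exact_mod_cast hn)
      exact Nat.one_le_iff_ne_zero.2 (by
        intro h0
        have := sq_ge n
        rw [h0] at this
        simp at this
        linarith)
    have h2 := hCF (sq n) hs1
    have h3 : ((F (sq n)).card : ℝ) = (3 * (sq n : ℝ) ^ 2 - 3 * sq n + 1) ^ 2 := by
      exact_mod_cast h2
    have hs : (1 : ℝ) ≤ (sq n : ℝ) := by exact_mod_cast hs1
    set x := (sq n : ℝ) with hx
    rw [h3] at h1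
    have hx3 : 0 ≤ x ^ 3 := by positivity
    have h4 : C * x ^ 3 ≤ |C| * x ^ 3 := mul_le_mul_of_nonneg_right (le_abs_self C) hx3
    have h5 : (3 * x ^ 2 - 3 * x + 1) ^ 2 ≤ 9 * x ^ 4 + 18 * x ^ 3 := by
      have e : (3 * x ^ 2 - 3 * x + 1) ^ 2 = 9 * x ^ 4 - 18 * x ^ 3 + 15 * x ^ 2 - 6 * x + 1 := by ring
      rw [e]
      have a1 : x ^ 2 ≤ x ^ 3 := by nlinarith [sq_nonneg x]
      nlinarith
    linarith
  -- (sq n)^3 ≤ η (sq n)^4
  set K := |C| + 18 with hK
  have hK0 : 0 < K := by rw [hK]; positivity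
  have hev1 := sq4_le (ε / 4) (by positivity)
  have hev2 : ∀ᶠ n : ℕ in atTop, K / (ε / 4) ≤ (sq n : ℝ) :=
    (tendsto_natCast_atTop_atTop.comp tendsto_sq).eventually_ge_atTop _
  have hev3 : ∀ᶠ n : ℕ in atTop, 1 ≤ n := eventually_ge_atTop 1
  -- wlog bound for small ε
  by_cases hε1 : 1 ≤ ε
  · filter_upwards [sq4_le 1 one_pos, hev3,
      (tendsto_natCast_atTop_atTop.comp tendsto_sq).eventually_ge_atTop K] with n h1 h3 h4
    have hn : (0 : ℝ) < (n : ℝ) ^ 2 := by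
      have : (0 : ℝ) < n := by exact_mod_cast h3
      positivity
    rw [div_le_iff₀ hn]
    have h5 := hC' n h3
    have h6 : K * (sq n : ℝ) ^ 3 ≤ (sq n : ℝ) ^ 4 := by
      have : (K : ℝ) ≤ sq n := h4
      calc K * (sq n : ℝ) ^ 3 ≤ (sq n : ℝ) * (sq n : ℝ) ^ 3 :=
            mul_le_mul_of_nonneg_right this (by positivity)
        _ = _ := by ring
    nlinarith
  · push Not at hε1
    filter_upwards [hev1, hev2, hev3] with n h1 h2 h3
    have hn : (0 : ℝ) < (n : ℝ) ^ 2 := by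
      have : (0 : ℝ) < n := by exact_mod_cast h3
      positivity
    rw [div_le_iff₀ hn]
    have h5 := hC' n h3
    have h6 : K * (sq n : ℝ) ^ 3 ≤ (ε / 4) * (sq n : ℝ) ^ 4 := by
      rw [div_le_iff₀ (by positivity)] at h2
      calc K * (sq n : ℝ) ^ 3 ≤ ((sq n : ℝ) * (ε / 4)) * (sq n : ℝ) ^ 3 :=
            mul_le_mul_of_nonneg_right h2 (by positivity)
        _ = _ := by ring
    -- 48 T ≤ (9 + ε/4) (1 + ε/4) n²
    have h7 : 48 * (T (sec 1 Complex.I n) : ℝ) ≤ (9 + ε / 4) * ((1 + ε / 4) * (n : ℝ) ^ 2) := by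
      calc 48 * (T (sec 1 Complex.I n) : ℝ) ≤ (9 + ε / 4) * (sq n : ℝ) ^ 4 := by linarith
        _ ≤ _ := mul_le_mul_of_nonneg_left h1 (by positivity)
    nlinarith [mul_pos hε hn, mul_pos (mul_pos hε hε) hn, mul_nonneg hε.le hn.le]

theorem bddT (hCF : S_CF) (hB : S_BDD) (a b : ℂ) (hab : LinearIndependent ℝ ![a, b]) :
    ∀ᶠ n : ℕ in atTop, (T (sec a b n) : ℝ) / (n : ℝ) ^ 2 ≤ 18 := by
  filter_upwards [sq4_le 1 one_pos, eventually_ge_atTop 1] with n h1 h3
  have hn : (0 : ℝ) < (n : ℝ) ^ 2 := by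
    have : (0 : ℝ) < n := by exact_mod_cast h3
    positivity
  rw [div_le_iff₀ hn]
  have h4 : (T (sec a b n) : ℝ) ≤ (F (sq n)).card := by exact_mod_cast hB a b hab n
  have hs1 : 1 ≤ sq n := by
    have : (0 : ℝ) < Real.sqrt n := Real.sqrt_pos.2 (by exact_mod_cast h3)
    exact Nat.one_le_iff_ne_zero.2 (by
      intro h0
      have := sq_ge n
      rw [h0] at this
      simp at this
      linarith)
  have h2 := hCF (sq n) hs1
  have h5 : ((F (sq n)).card : ℝ) = (3 * (sq n : ℝ) ^ 2 - 3 * sq n + 1) ^ 2 := by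
    exact_mod_cast h2
  have hs : (1 : ℝ) ≤ (sq n : ℝ) := by exact_mod_cast hs1
  set x := (sq n : ℝ) with hx
  have h6 : (3 * x ^ 2 - 3 * x + 1) ^ 2 ≤ 9 * x ^ 4 := by
    have e : 9 * x ^ 4 = (3 * x ^ 2) ^ 2 := by ring
    rw [e]
    apply pow_le_pow_left₀
    · nlinarith
    · nlinarith
  nlinarith

/-- The criterion for the lower bound. -/
theorem lower (hCF : S_CF) (hB : S_BDD) (hL : S_LOW) (a b : ℂ)
    (hab : LinearIndependent ℝ ![a, b])
    (h : ∀ ε : ℝ, 0 < ε → ∀ᶠ N : ℕ in atTop, (9 / 4 - ε) * (N : ℝ) ^ 4 ≤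
      ((((F N).filter (fun t => det t ≠ 0)).image (gg a b)).card : ℝ)) :
    (3 : ℝ) / 16 ≤ liminf (fun n : ℕ => (T (sec a b n) : ℝ) / (n : ℝ) ^ 2) atTop := by
  refine le_of_forall_pos_lt_add fun ε hε => ?_
  have hcob : IsCoboundedUnder (· ≥ ·) atTop (fun n : ℕ => (T (sec a b n) : ℝ) / (n : ℝ) ^ 2) :=
    IsBoundedUnder.isCoboundedUnder_ge ⟨18, by
      rw [eventually_map]
      exact bddT hCF hB a b hab⟩
  have key : (3 : ℝ) / 16 - min ε 1 / 12 ≤
      liminf (fun n : ℕ => (T (sec a b n) : ℝ) / (n : ℝ) ^ 2) atTop := by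
    refine le_liminf_of_le hcob ?_
    have h1 := h (min ε 1) (by positivity)
    have h2 := tendsto_sq.eventually h1
    filter_upwards [h2, eventually_ge_atTop 1] with n hn h3
    have hn0 : (0 : ℝ) < (n : ℝ) ^ 2 := by
      have : (0 : ℝ) < n := by exact_mod_cast h3
      positivity
    rw [le_div_iff₀ hn0]
    have h4 : ((((F (sq n)).filter (fun t => det t ≠ 0)).image (gg a b)).card : ℝ) ≤
        12 * (T (sec a b n) : ℝ) := by exact_mod_cast hL a b hab n
    have h5 := sq4_ge n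
    have h6 : (0 : ℝ) ≤ 9 / 4 - min ε 1 := by
      have := min_le_right ε 1
      linarith
    have h7 := mul_le_mul_of_nonneg_left h5 h6
    nlinarith
  have hm := min_le_left ε 1
  have hm2 : 0 < min ε 1 := by positivity
  linarith

theorem det_act (p q r s : ℤ) (h : p * s - q * r = 1) (t : V × V) : det (act p q r s t) = det t := by
  unfold det act
  simp only
  linear_combination (t.1.1 * t.2.2 - t.1.2 * t.2.1) * h

theorem phi_act (a b w : ℂ) (p q r s : ℤ) (h1 : w * a = p * a + r * b) (h2 : w * b = q * a + s * b)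
    (v : V) : phi a b (p * v.1 + q * v.2, r * v.1 + s * v.2) = w * phi a b v := by
  unfold phi
  push_cast
  linear_combination -(v.1 : ℂ) * h1 - (v.2 : ℂ) * h2

theorem gg_act (a b w : ℂ) (hw : ‖w‖ = 1) (p q r s : ℤ) (h1 : w * a = p * a + r * b)
    (h2 : w * b = q * a + s * b) (t : V × V) : gg a b (act p q r s t) = gg a b t := by
  unfold gg act
  simp only
  rw [phi_act a b w p q r s h1 h2 t.1, phi_act a b w p q r s h1 h2 t.2]
  have hww : w * conj w = 1 := by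
    rw [Complex.mul_conj, Complex.normSq_eq_norm_sq, hw]
    norm_num
  refine Prod.ext ?_ ?_
  · simp only [norm_mul, hw, one_mul]
  · simp only [map_mul]
    linear_combination (phi a b t.1 * conj (phi a b t.2)) * hww

theorem image_two (a b w : ℂ) (hw : ‖w‖ = 1) (p q r s : ℤ) (hd : p * s - q * r = 1)
    (h1 : w * a = p * a + r * b) (h2 : w * b = q * a + s * b) (S : Finset (V × V)) :
    (((S ∪ S.image (act p q r s)).filter (fun t => det t ≠ 0)).image (gg a b)) =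
      ((S.filter (fun t => det t ≠ 0)).image (gg a b)) := by
  ext x
  simp only [Finset.mem_image, Finset.mem_filter, Finset.mem_union]
  constructor
  · rintro ⟨t, ⟨ht | ⟨u, hu, rfl⟩, hdt⟩, rfl⟩
    · exact ⟨t, ⟨ht, hdt⟩, rfl⟩
    · refine ⟨u, ⟨hu, ?_⟩, ?_⟩
      · rwa [det_act p q r s hd] at hdt
      · rw [gg_act a b w hw p q r s h1 h2]
  · rintro ⟨t, ⟨ht, hdt⟩, rfl⟩
    exact ⟨t, ⟨Or.inl ht, hdt⟩, rfl⟩

theorem image_three (a b w : ℂ) (hw : ‖w‖ = 1) (p q r s : ℤ) (hd : p * s - q * r = 1)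
    (h1 : w * a = p * a + r * b) (h2 : w * b = q * a + s * b) (S : Finset (V × V)) :
    ((((S ∪ S.image (act p q r s)) ∪ (S.image (act p q r s)).image (act p q r s)).filter
      (fun t => det t ≠ 0)).image (gg a b)) =
      ((S.filter (fun t => det t ≠ 0)).image (gg a b)) := by
  ext x
  simp only [Finset.mem_image, Finset.mem_filter, Finset.mem_union]
  constructor
  · rintro ⟨t, ⟨(ht | ⟨u, hu, rfl⟩) | ⟨u, ⟨v, hv, rfl⟩, rfl⟩, hdt⟩, rfl⟩
    · exact ⟨t, ⟨ht, hdt⟩, rfl⟩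
    · refine ⟨u, ⟨hu, ?_⟩, ?_⟩
      · rwa [det_act p q r s hd] at hdt
      · rw [gg_act a b w hw p q r s h1 h2]
    · refine ⟨v, ⟨hv, ?_⟩, ?_⟩
      · rwa [det_act p q r s hd, det_act p q r s hd] at hdt
      · rw [gg_act a b w hw p q r s h1 h2, gg_act a b w hw p q r s h1 h2]
  · rintro ⟨t, ⟨ht, hdt⟩, rfl⟩
    exact ⟨t, ⟨Or.inl (Or.inl ht), hdt⟩, rfl⟩

theorem norm_w {w : ℂ} (h : w ^ 2 + w + 1 = 0) : ‖w‖ = 1 := by
  have h3 : w ^ 3 = 1 := by linear_combination (w - 1) * h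
  have h4 : ‖w‖ ^ 3 = 1 := by rw [← norm_pow, h3, norm_one]
  exact (pow_eq_one_iff_of_nonneg (norm_nonneg w) (by norm_num)).1 h4

theorem mono_eps {x y : ℝ} (hxy : x ≤ y) {f : ℕ → ℝ}
    (h : ∀ ε : ℝ, 0 < ε → ∀ᶠ N : ℕ in atTop, (y - ε) * (N : ℝ) ^ 4 ≤ f N) :
    ∀ ε : ℝ, 0 < ε → ∀ᶠ N : ℕ in atTop, (x - ε) * (N : ℝ) ^ 4 ≤ f N := by
  intro ε hε
  filter_upwards [h ε hε] with N hN
  refine le_trans ?_ hN
  exact mul_le_mul_of_nonneg_right (by linarith) (by positivity)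

theorem two_le_of {q r : ℤ} (hq : q ≠ 0) (hr : r ≠ 0) (h : ¬ (|q| = 1 ∧ |r| = 1)) :
    2 ≤ |q| ∨ 2 ≤ |r| := by
  by_contra hcon
  push Not at hcon
  have h1 : 0 < |q| := abs_pos.2 hq
  have h2 : 0 < |r| := abs_pos.2 hr
  exact h ⟨by omega, by omega⟩

theorem hup (hCF : S_CF) (hUP : S_UP) :
    liminf (fun n : ℕ => (T (sec 1 Complex.I n) : ℝ) / (n : ℝ) ^ 2) atTop ≤ 3 / 16 := by
  refine le_of_forall_pos_le_add fun ε hε => ?_
  refine liminf_le_of_le ⟨0, ?_⟩ ?_
  · rw [eventually_map]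
    exact Eventually.of_forall fun n => by positivity
  · intro c hc
    obtain ⟨n, h1, h2⟩ := (hc.and (upper hCF hUP ε hε)).exists
    linarith

/-- Similar square sections have the same number of classes. -/
theorem same (hSIM : S_SIM) (a b : ℂ) (ha0 : a ≠ 0) (h : b = a * Complex.I ∨ b = a * (-Complex.I))
    (n : ℕ) : T (sec a b n) = T (sec 1 Complex.I n) := by
  rcases h with hb | hb
  · have := hSIM.1 a 1 Complex.I ha0 n
    rw [mul_one, ← hb] at this
    exact this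
  · have h1 := hSIM.1 a 1 (-Complex.I) ha0 n
    rw [mul_one, ← hb] at h1
    rw [h1]
    have h2 := hSIM.2 1 Complex.I n
    simp only [map_one, Complex.conj_I] at h2
    exact h2

/-- All lattice sections, except the similar images of the square one. -/
theorem others (hCF : S_CF) (hROT : S_ROT) (hFAM : S_FAM) (hU2 : S_U2) (hU3 : S_U3)
    (hLOW : S_LOW) (hBDD : S_BDD) (hARI : S_ARI) (a b : ℂ) (hab : LinearIndependent ℝ ![a, b])
    (hb1 : b ≠ a * Complex.I) (hb2 : b ≠ a * (-Complex.I)) :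
    (3 : ℝ) / 16 ≤ liminf (fun n : ℕ => (T (sec a b n) : ℝ) / (n : ℝ) ^ 2) atTop := by
  rcases hARI a b hab with h | ⟨hR, p, q, r, hpq, hIa, hIb⟩ | ⟨hR, w, p, q, r, hw, hpq, hwa, hwb⟩
  · refine lower hCF hBDD hLOW a b hab fun ε hε => ?_
    have := hROT a b hab F 1 9 4 hFAM.1 (by norm_num) (by norm_num) h ε hε
    exact this
  · by_cases h11 : |q| = 1 ∧ |r| = 1
    · -- the square lattice itself
      have hp : p = 0 := by
        have hq2 : q ^ 2 = 1 := by rw [← sq_abs, h11.1]; norm_num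
        have hr2 : r ^ 2 = 1 := by rw [← sq_abs, h11.2]; norm_num
        have h4 : (p ^ 2 + 1) ^ 2 = 1 := by
          have : p ^ 2 + 1 = -(q * r) := by linarith
          rw [this]
          calc (-(q * r)) ^ 2 = q ^ 2 * r ^ 2 := by ring
            _ = 1 := by rw [hq2, hr2]; norm_num
        have h5 : p ^ 2 = 0 := by nlinarith [sq_nonneg p]
        exact pow_eq_zero_iff (two_ne_zero) |>.1 h5
      subst hp
      have hr : r = 1 ∨ r = -1 := by
        rcases abs_eq (by norm_num : (0 : ℤ) ≤ 1) |>.1 h11.2 with h | h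
        · exact Or.inl h
        · exact Or.inr h
      exfalso
      rcases hr with h | h
      · refine hb1 ?_
        rw [h] at hIa
        push_cast at hIa
        linear_combination -hIa
      · refine hb2 ?_
        rw [h] at hIa
        push_cast at hIa
        linear_combination hIa
    · have hq : q ≠ 0 := by
        rintro rfl
        nlinarith [sq_nonneg p]
      have hr : r ≠ 0 := by
        rintro rfl
        nlinarith [sq_nonneg p]
      have hd : p * (-p) - q * r = 1 := by linarith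
      obtain ⟨κ, hκ⟩ := hU2 p q r (-p) hd (two_le_of hq hr h11)
      refine lower hCF hBDD hLOW a b hab ?_
      have h1 : ∀ ε : ℝ, 0 < ε → ∀ᶠ N : ℕ in atTop, ((63 / 4) / (24 / 5) - ε) * (N : ℝ) ^ 4 ≤
          ((((F N).filter (fun t => det t ≠ 0)).image (gg a b)).card : ℝ) := by
        intro ε hε
        have := hROT a b hab _ κ (63 / 4) (24 / 5) hκ (by norm_num) (by norm_num) hR ε hε
        filter_upwards [this] with N hN
        rwa [image_two a b Complex.I (by simp) p q r (-p) hd hIa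
          (by push_cast; linear_combination hIb)] at hN
      exact mono_eps (by norm_num) h1
  · have hnw := norm_w hw
    have hd : p * (-1 - p) - q * r = 1 := by linarith
    have hwb' : w * b = q * a + ((-1 - p : ℤ) : ℂ) * b := by
      push_cast
      linear_combination hwb
    by_cases h11 : |q| = 1 ∧ |r| = 1
    · obtain ⟨κ, hκ⟩ := hU3 p q r hpq h11.1 h11.2
      refine lower hCF hBDD hLOW a b hab ?_
      have h1 : ∀ ε : ℝ, 0 < ε → ∀ᶠ N : ℕ in atTop, (15 / (432 / 65) - ε) * (N : ℝ) ^ 4 ≤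
          ((((F N).filter (fun t => det t ≠ 0)).image (gg a b)).card : ℝ) := by
        intro ε hε
        have := hROT a b hab _ κ 15 (432 / 65) hκ (by norm_num) (by norm_num) hR ε hε
        filter_upwards [this] with N hN
        rwa [image_three a b w hnw p q r (-1 - p) hd hwa hwb'] at hN
      exact mono_eps (by norm_num) h1
    · have hq : q ≠ 0 := by
        rintro rfl
        nlinarith [sq_nonneg (2 * p + 1)]
      have hr : r ≠ 0 := by
        rintro rfl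
        nlinarith [sq_nonneg (2 * p + 1)]
      obtain ⟨κ, hκ⟩ := hU2 p q r (-1 - p) hd (two_le_of hq hr h11)
      refine lower hCF hBDD hLOW a b hab ?_
      have h1 : ∀ ε : ℝ, 0 < ε → ∀ᶠ N : ℕ in atTop, ((63 / 4) / (432 / 65) - ε) * (N : ℝ) ^ 4 ≤
          ((((F N).filter (fun t => det t ≠ 0)).image (gg a b)).card : ℝ) := by
        intro ε hε
        have := hROT a b hab _ κ (63 / 4) (432 / 65) hκ (by norm_num) (by norm_num) hR ε hε
        filter_upwards [this] with N hN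
        rwa [image_two a b w hnw p q r (-1 - p) hd hwa hwb'] at hN
      exact mono_eps (by norm_num) h1

theorem t_MAIN (hCF : S_CF) (hROT : S_ROT) (hFAM : S_FAM) (hU2 : S_U2) (hU3 : S_U3)
    (hLOW : S_LOW) (hUP : S_UP) (hBDD : S_BDD) (hSIM : S_SIM) (hARI : S_ARI) : S_MAIN := by
  intro a b hab
  have ha0 : a ≠ 0 := by
    intro h0
    have := hab.ne_zero 0
    exact this (by simpa using h0)
  by_cases h : b = a * Complex.I ∨ b = a * (-Complex.I)
  · refine le_of_eq ?_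
    congr 1
    funext n
    rw [same hSIM a b ha0 h n]
  · push Not at h
    exact (hup hCF hUP).trans (others hCF hROT hFAM hU2 hU3 hLOW hBDD hARI a b hab h.1 h.2)

end Pool.Agent.K6.H56.TL.MAIN
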