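import Pool.Agent.K6.H56.TL.Stm

/-!
`S_PAIR`: pairs with equal Gram data differ by a coincidence rotation.
-/

set_option autoImplicit false

open scoped BigOperators ComplexConjugate
open Finset

namespace Pool.Agent.K6.H56.TL.PAIR

open Pool.Agent.K6.H56.TL

theorem phi_add (a b : ℂ) (v w : V) : phi a b (v + w) = phi a b v + phi a b w := by
  simp only [phi, Prod.fst_add, Prod.snd_add, Int.cast_add]
  ring

theorem phi_smul (a b : ℂ) (n : ℤ) (v : V) : phi a b (n • v) = n * phi a b v := by
  simp only [phi, Prod.smul_fst, Prod.smul_snd, smul_eq_mul, Int.cast_mul]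
  ring

/-- `phi` is injective. -/
theorem phi_inj (hC : S_COL) {a b : ℂ} (hab : LinearIndependent ℝ ![a, b]) {v w : V}
    (h : phi a b v = phi a b w) : v = w := by
  rw [LinearIndependent.pair_iff] at hab
  have h1 := hab ((v.1 : ℝ) - w.1) ((v.2 : ℝ) - w.2) (by
    simp only [phi] at h
    simp only [Complex.real_smul]
    push_cast
    linear_combination h)
  obtain ⟨h2, h3⟩ := h1
  have h4 : v.1 = w.1 := by
    have : (v.1 : ℝ) = w.1 := by linarith
    exact_mod_cast this
  have h5 : v.2 = w.2 := by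
    have : (v.2 : ℝ) = w.2 := by linarith
    exact_mod_cast this
  exact Prod.ext h4 h5

/-- The subgroup contains a multiple of the lattice. -/
theorem index_ne {H : AddSubgroup V} {t : V × V} (h1 : t.1 ∈ H) (h2 : t.2 ∈ H)
    (hd : det t ≠ 0) : H.index ≠ 0 := by
  have key : ∀ v : V, det t • v ∈ H := by
    intro v
    have e : det t • v = (v.1 * t.2.2 - v.2 * t.2.1) • t.1 + (v.2 * t.1.1 - v.1 * t.1.2) • t.2 := by
      refine Prod.ext ?_ ?_ <;>
        simp only [det, Prod.smul_fst, Prod.smul_snd, Prod.fst_add, Prod.snd_add, smul_eq_mul] <;>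
        ring
    rw [e]
    exact H.add_mem (H.zsmul_mem h1 _) (H.zsmul_mem h2 _)
  -- the multiples of `det t` have finite index
  have hfin : Finite (V ⧸ H) := by
    let n : ℕ := (det t).natAbs
    have hn : 0 < n := Int.natAbs_pos.2 hd
    let f : Fin n × Fin n → V ⧸ H := fun c => (((c.1 : ℕ) : ℤ), ((c.2 : ℕ) : ℤ)) 
    refine Finite.of_surjective f ?_
    intro q
    obtain ⟨v, rfl⟩ := QuotientAddGroup.mk_surjective q
    have hn' : (n : ℤ) ≠ 0 := by exact_mod_cast hn.ne'
    have a1 := Int.emod_nonneg v.1 hn'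
    have a2 := Int.emod_lt_of_pos v.1 (by exact_mod_cast hn : (0 : ℤ) < n)
    have b1 := Int.emod_nonneg v.2 hn'
    have b2 := Int.emod_lt_of_pos v.2 (by exact_mod_cast hn : (0 : ℤ) < n)
    refine ⟨(⟨(v.1 % n).toNat, by omega⟩, ⟨(v.2 % n).toNat, by omega⟩), ?_⟩
    simp only [f]
    rw [QuotientAddGroup.eq]
    have e1 : (((v.1 % n).toNat : ℕ) : ℤ) = v.1 % n := Int.toNat_of_nonneg a1
    have e2 : (((v.2 % n).toNat : ℕ) : ℤ) = v.2 % n := Int.toNat_of_nonneg b1
    have key2 : ∀ w : V, (n : ℤ) • w ∈ H := by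
      intro w
      have h3 := key w
      rcases Int.natAbs_eq (det t) with h4 | h4
      · rw [h4] at h3
        exact h3
      · rw [h4, neg_smul] at h3
        exact neg_mem_iff.1 h3
    have h5 := key2 (v.1 / n, v.2 / n)
    convert h5 using 1
    refine Prod.ext ?_ ?_
    · simp only [Prod.fst_add, Prod.fst_neg, Prod.smul_fst, smul_eq_mul, e1]
      have := Int.emod_add_mul_ediv v.1 n
      linarith
    · simp only [Prod.snd_add, Prod.snd_neg, Prod.smul_snd, smul_eq_mul, e2]
      have := Int.emod_add_mul_ediv v.2 n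
      linarith
  have : H.FiniteIndex := AddSubgroup.finiteIndex_of_finite_quotient
  exact this.index_ne_zero

theorem t_PAIR (hC : S_COL) : S_PAIR := by
  classical
  intro a b hab S hS
  let P := (S ×ˢ S).filter (fun x => gg a b x.1 = gg a b x.2)
  let r : (V × V) × (V × V) → ℂ := fun x => phi a b x.2.1 / phi a b x.1.1
  have hphi0 : ∀ t ∈ S, phi a b t.1 ≠ 0 := by
    intro t ht h0
    apply hS t ht
    have h1 : t.1 = 0 := by
      apply phi_inj hC hab
      rw [h0]
      simp [phi]
    simp [det, h1]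
  -- the rotation
  have key : ∀ x ∈ P, ‖r x‖ = 1 ∧ r x * phi a b x.1.1 = phi a b x.2.1 ∧
      r x * phi a b x.1.2 = phi a b x.2.2 := by
    rintro ⟨t, u⟩ hx
    simp only [P, Finset.mem_filter, Finset.mem_product] at hx
    obtain ⟨⟨ht, hu⟩, he⟩ := hx
    simp only [gg, Prod.mk.injEq] at he
    obtain ⟨he1, he2⟩ := he
    have ht0 := hphi0 t ht
    have hu0 := hphi0 u hu
    have hn : ‖phi a b t.1‖ = ‖phi a b u.1‖ := by
      have := abs_eq_abs.2 (sq_eq_sq_iff_eq_or_eq_neg.1 he1)
      rwa [abs_of_nonneg (norm_nonneg _), abs_of_nonneg (norm_nonneg _)] at this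
    have hr : ‖r (t, u)‖ = 1 := by
      simp only [r, norm_div, hn]
      exact div_self (norm_ne_zero_iff.2 hu0)
    have h1 : r (t, u) * phi a b t.1 = phi a b u.1 := by
      simp only [r]
      exact div_mul_cancel₀ _ ht0
    refine ⟨hr, h1, ?_⟩
    -- conj ρ * ρ = 1
    have h2 : conj (r (t, u)) * r (t, u) = 1 := by
      rw [mul_comm, Complex.mul_conj, Complex.normSq_eq_norm_sq, hr]
      simp
    have h3 : conj (phi a b t.1) ≠ 0 := by simpa using ht0
    have h4 : conj (phi a b t.1) * phi a b t.2 = conj (phi a b u.1) * phi a b u.2 := by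
      have := congrArg conj he2
      simpa using this
    have h5 : conj (phi a b u.1) = conj (r (t, u)) * conj (phi a b t.1) := by
      rw [← map_mul, h1]
    rw [h5] at h4
    have h6 : phi a b t.2 = conj (r (t, u)) * phi a b u.2 := by
      apply mul_left_cancel₀ h3
      rw [h4]
      ring
    simp only
    rw [h6]
    linear_combination phi a b u.2 * h2
  refine ⟨P.image r, ?_, ?_⟩
  · intro ρ hρ
    obtain ⟨x, hx, rfl⟩ := Finset.mem_image.1 hρ
    obtain ⟨h1, h2, h3⟩ := key x hx
    refine ⟨h1, index_ne (t := x.1) ⟨x.2.1, h2⟩ ⟨x.2.2, h3⟩ ?_⟩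
    simp only [P, Finset.mem_filter, Finset.mem_product] at hx
    exact hS _ hx.1.1
  · have hc : P.card ≤ ((P.image r).sigma
        (fun ρ => S.filter (fun t => t.1 ∈ M a b ρ ∧ t.2 ∈ M a b ρ))).card := by
      refine Finset.card_le_card_of_injOn (fun x => ⟨r x, x.1⟩) ?_ ?_
      · intro x hx
        rw [Finset.mem_coe] at hx
        obtain ⟨h1, h2, h3⟩ := key x hx
        simp only [Finset.coe_sigma, Set.mem_sigma_iff, Finset.mem_coe, Finset.mem_filter]
        refine ⟨Finset.mem_image_of_mem r hx, ?_, ⟨x.2.1, h2⟩, ⟨x.2.2, h3⟩⟩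
        simp only [P, Finset.mem_filter, Finset.mem_product] at hx
        exact hx.1.1
      · intro x hx y hy h
        rw [Finset.mem_coe] at hx hy
        simp only [Sigma.mk.injEq, heq_eq_eq] at h
        obtain ⟨h1, h2⟩ := h
        obtain ⟨-, hx2, hx3⟩ := key x hx
        obtain ⟨-, hy2, hy3⟩ := key y hy
        rw [h1, h2] at hx2 hx3
        refine Prod.ext h2 (Prod.ext ?_ ?_)
        · exact phi_inj hC hab (hx2.symm.trans hy2)
        · exact phi_inj hC hab (hx3.symm.trans hy3)
    rw [Finset.card_sigma] at hc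
    exact hc

end Pool.Agent.K6.H56.TL.PAIR
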