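import Mathlib

/-!
MP_047cd2_co (distinct triangles in planar lattice sections): definitions and the exact statements of
all the pieces.  Plane = `ℂ`.  See the table `call56b` for hints.
-/

set_option autoImplicit false

open scoped BigOperators ComplexConjugate
open Finset Filter

namespace Pool.Agent.K6.H56.TL

/-! ## Geometry -/

/-- `t` is the set of vertices of a nondegenerate triangle. -/
def IsTri (t : Set ℂ) : Prop :=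
  ∃ p q r : ℂ, t = {p, q, r} ∧ ¬ Collinear ℝ ({p, q, r} : Set ℂ)

/-- Congruence by an isometry of the plane. -/
def Cong (s t : Set ℂ) : Prop := ∃ f : ℂ ≃ᵢ ℂ, f '' s = t

/-- The triangles with vertices in `P`. -/
def tris (P : Set ℂ) : Set (Set ℂ) := {t | t ⊆ P ∧ IsTri t}

/-- The number of congruence classes of triangles spanned by `P`. -/
noncomputable def T (P : Set ℂ) : ℕ :=
  Set.ncard {c : Set (Set ℂ) | ∃ t ∈ tris P, c = {s | s ∈ tris P ∧ Cong t s}}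

/-- The lattice section `L_{a,b}(n)`. -/
def sec (a b : ℂ) (n : ℕ) : Set ℂ :=
  {z | ∃ u v : ℕ, (u : ℝ) < Real.sqrt n ∧ (v : ℝ) < Real.sqrt n ∧ z = u * a + v * b}

/-- `√n` rounded up: the section has `(sq n)^2` points. -/
noncomputable def sq (n : ℕ) : ℕ := ⌈Real.sqrt n⌉₊

/-- The theorem. -/
def S_MAIN : Prop := ∀ a b : ℂ, LinearIndependent ℝ ![a, b] →
  liminf (fun n : ℕ => (T (sec 1 Complex.I n) : ℝ) / (n : ℝ) ^ 2) atTop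
    ≤ liminf (fun n : ℕ => (T (sec a b n) : ℝ) / (n : ℝ) ^ 2) atTop

/-! ## Pairs of lattice vectors -/

abbrev V : Type := ℤ × ℤ

def phi (a b : ℂ) (v : V) : ℂ := (v.1 : ℂ) * a + (v.2 : ℂ) * b

def det (t : V × V) : ℤ := t.1.1 * t.2.2 - t.1.2 * t.2.1

def InB (N : ℕ) (p : V) : Prop := 0 ≤ p.1 ∧ p.1 < N ∧ 0 ≤ p.2 ∧ p.2 < N

/-- The triangle `0, t.1, t.2` can be translated into the box `[0,N)²`. -/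
def Fit (N : ℕ) (t : V × V) : Prop := ∃ p : V, InB N p ∧ InB N (p + t.1) ∧ InB N (p + t.2)

/-- All coordinates in `[-N, N]`. -/
noncomputable def box (N : ℕ) : Finset (V × V) :=
  (Finset.Icc ((-(N : ℤ), -(N : ℤ)) : V) ((N : ℤ), (N : ℤ))) ×ˢ
    (Finset.Icc ((-(N : ℤ), -(N : ℤ)) : V) ((N : ℤ), (N : ℤ)))

open Classical in
noncomputable def F (N : ℕ) : Finset (V × V) := (box N).filter (Fit N)

/-- The vectors of the lattice which the multiplication by `ρ` maps into the lattice. -/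
def M (a b ρ : ℂ) : AddSubgroup V where
  carrier := {v | ∃ w : V, ρ * phi a b v = phi a b w}
  add_mem' := by
    rintro x y ⟨w, hw⟩ ⟨w', hw'⟩
    refine ⟨w + w', ?_⟩
    simp only [phi, Prod.fst_add, Prod.snd_add, Int.cast_add] at hw hw' ⊢
    linear_combination hw + hw'
  zero_mem' := ⟨0, by simp [phi]⟩
  neg_mem' := by
    rintro x ⟨w, hw⟩
    refine ⟨-w, ?_⟩
    simp only [phi, Prod.fst_neg, Prod.snd_neg, Int.cast_neg] at hw ⊢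
    linear_combination -hw

/-- Oriented Gram data of the pair of vectors. -/
noncomputable def gg (a b : ℂ) (t : V × V) : ℝ × ℂ :=
  (‖phi a b t.1‖ ^ 2, phi a b t.1 * conj (phi a b t.2))

/-- `ρ` is a rotation with `L ∩ ρ⁻¹ L` of finite index. -/
def Good (a b : ℂ) (Φ : Finset ℂ) : Prop := ∀ ρ ∈ Φ, ‖ρ‖ = 1 ∧ (M a b ρ).index ≠ 0

/-- The sum over the coincidence rotations of the inverse squares of the indices is at most `A`. -/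
def RotB (a b : ℂ) (A : ℝ) : Prop := ∀ Φ : Finset ℂ, Good a b Φ →
  ∑ ρ ∈ Φ, 1 / ((M a b ρ).index : ℝ) ^ 2 ≤ A

/-- Growing families of pairs of vectors. -/
structure Fam0 (W : ℕ → Finset (V × V)) (κ : ℕ) : Prop where
  mono : Monotone W
  shift : ∀ c : V × V, ∃ K : ℕ, ∀ N : ℕ, ∀ t ∈ W N, t + c ∈ W (N + K)
  sub : ∀ N : ℕ, 1 ≤ N → W N ⊆ box (κ * N)
  grow : ∀ K : ℕ, ∃ C : ℝ, ∀ N : ℕ, 1 ≤ N →
    ((W (N + K)).card : ℝ) ≤ (W N).card + C * (N : ℝ) ^ 3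

structure Fam (W : ℕ → Finset (V × V)) (κ : ℕ) (U : ℝ) : Prop extends Fam0 W κ where
  low : ∃ C : ℝ, ∀ N : ℕ, 1 ≤ N → U * (N : ℝ) ^ 4 - C * (N : ℝ) ^ 3 ≤ ((W N).card : ℝ)

/-- The integer matrix `((p, q), (r, s))` acting on pairs of vectors. -/
def act (p q r s : ℤ) (t : V × V) : V × V :=
  ((p * t.1.1 + q * t.1.2, r * t.1.1 + s * t.1.2), (p * t.2.1 + q * t.2.2, r * t.2.1 + s * t.2.2))

/-! ### Counting pieces -/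

def S_CF : Prop := ∀ N : ℕ, 1 ≤ N → ((F N).card : ℤ) = (3 * (N : ℤ) ^ 2 - 3 * N + 1) ^ 2

def S_DG : Prop := ∀ N : ℕ, 1 ≤ N →
  ((box N).filter (fun t => det t = 0)).card ≤ 2 * (2 * N + 1) ^ 3

open Classical in
def S_IDX : Prop := ∀ H : AddSubgroup V, H.index ≠ 0 → ∀ N : ℕ,
  ((box N).filter (fun t => t.1 ∈ H ∧ t.2 ∈ H ∧ det t ≠ 0)).card * H.index ^ 2 ≤ (6 * N + 1) ^ 4

open Classical in
def S_SH : Prop := ∀ W : ℕ → Finset (V × V), Monotone W →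
  (∀ c : V × V, ∃ K : ℕ, ∀ N : ℕ, ∀ t ∈ W N, t + c ∈ W (N + K)) →
  ∀ H : AddSubgroup V, H.index ≠ 0 → ∃ K : ℕ, ∀ N : ℕ,
    ((W N).filter (fun t => t.1 ∈ H ∧ t.2 ∈ H)).card * H.index ^ 2 ≤ (W (N + K)).card

/-- Cauchy-Schwarz. -/
def S_CS : Prop := ∀ (S : Finset (V × V)) (g : V × V → ℝ × ℂ),
  S.card ^ 2 ≤ (S.image g).card * ((S ×ˢ S).filter (fun x => g x.1 = g x.2)).card

open Classical in
def S_PAIR : Prop := ∀ a b : ℂ, LinearIndependent ℝ ![a, b] → ∀ S : Finset (V × V),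
  (∀ t ∈ S, det t ≠ 0) → ∃ Ψ : Finset ℂ, Good a b Ψ ∧
    ((S ×ˢ S).filter (fun x => gg a b x.1 = gg a b x.2)).card ≤
      ∑ ρ ∈ Ψ, (S.filter (fun t => t.1 ∈ M a b ρ ∧ t.2 ∈ M a b ρ)).card

def S_ROT : Prop := ∀ a b : ℂ, LinearIndependent ℝ ![a, b] →
  ∀ (W : ℕ → Finset (V × V)) (κ : ℕ) (U A : ℝ), Fam W κ U → 0 < U → 0 < A → RotB a b A →
    ∀ ε : ℝ, 0 < ε → ∀ᶠ N : ℕ in atTop,
      (U / A - ε) * (N : ℝ) ^ 4 ≤ ((((W N).filter (fun t => det t ≠ 0)).image (gg a b)).card : ℝ)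

/-- `F` is a growing family, and so are its images and unions. -/
def S_FAM : Prop := Fam F 1 9 ∧
  (∀ p q r s : ℤ, p * s - q * r = 1 → ∃ κ : ℕ, Fam0 (fun N => (F N).image (act p q r s)) κ) ∧
  (∀ (W W' : ℕ → Finset (V × V)) (κ κ' : ℕ), Fam0 W κ → Fam0 W' κ' →
    Fam0 (fun N => W N ∪ W' N) (max κ κ'))

def S_U2 : Prop := ∀ p q r s : ℤ, p * s - q * r = 1 → (2 ≤ |q| ∨ 2 ≤ |r|) →
  ∃ κ : ℕ, Fam (fun N => F N ∪ (F N).image (act p q r s)) κ (63 / 4)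

/-- One-dimensional fitting. -/
def Rg (N : ℕ) (s t : ℤ) : Prop :=
  ∃ p : ℤ, (0 ≤ p ∧ p < N) ∧ (0 ≤ p + s ∧ p + s < N) ∧ (0 ≤ p + t ∧ p + t < N)

open Classical in
def S_C3 : Prop := ∃ C : ℝ, ∀ N : ℕ, 1 ≤ N → 3 * (N : ℝ) ^ 4 - C * (N : ℝ) ^ 3 ≤
  (((F N).filter (fun t => ¬ Rg N (t.1.1 + t.1.2) (t.2.1 + t.2.2))).card : ℝ)

def S_U3 : Prop := ∀ p q r : ℤ, p ^ 2 + p + 1 + q * r = 0 → |q| = 1 → |r| = 1 →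
  ∃ κ : ℕ, Fam (fun N => (F N ∪ (F N).image (act p q r (-1 - p))) ∪
    ((F N).image (act p q r (-1 - p))).image (act p q r (-1 - p))) κ 15

/-! ### Geometric pieces -/

/-- Isometries of the plane. -/
def S_ISO : Prop := ∀ f : ℂ ≃ᵢ ℂ, ∃ c u : ℂ, ‖u‖ = 1 ∧
  ((∀ z, f z = u * z + c) ∨ (∀ z, f z = u * conj z + c))

def S_COL : Prop :=
  (∀ p q r : ℂ, Collinear ℝ ({p, q, r} : Set ℂ) ↔ (conj (q - p) * (r - p)).im = 0) ∧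
  (∀ a b : ℂ, LinearIndependent ℝ ![a, b] ↔ (conj a * b).im ≠ 0) ∧
  (∀ (a b : ℂ) (t : V × V),
    (conj (phi a b t.1) * phi a b t.2).im = (det t : ℝ) * (conj a * b).im)

def S_LOW : Prop := ∀ a b : ℂ, LinearIndependent ℝ ![a, b] → ∀ n : ℕ,
  (((F (sq n)).filter (fun t => det t ≠ 0)).image (gg a b)).card ≤ 12 * T (sec a b n)

def S_UP : Prop := ∃ C : ℝ, ∀ n : ℕ, 1 ≤ n →
  48 * (T (sec 1 Complex.I n) : ℝ) ≤ (F (sq n)).card + C * (sq n : ℝ) ^ 3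

def S_BDD : Prop := ∀ a b : ℂ, LinearIndependent ℝ ![a, b] → ∀ n : ℕ,
  T (sec a b n) ≤ (F (sq n)).card

def S_SIM : Prop :=
  (∀ c a b : ℂ, c ≠ 0 → ∀ n : ℕ, T (sec (c * a) (c * b) n) = T (sec a b n)) ∧
  (∀ a b : ℂ, ∀ n : ℕ, T (sec (conj a) (conj b) n) = T (sec a b n))

/-! ### Arithmetic pieces -/

def qf (e k : ℤ) (v : V) : ℤ := v.1 ^ 2 + e * v.1 * v.2 + k * v.2 ^ 2

/-- Primitive vectors at which the form is a positive square. -/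
def Adm (e k : ℤ) (Φ : Finset V) : Prop := ∀ v ∈ Φ, IsCoprime v.1 v.2 ∧
  ∃ z : ℕ, 0 < z ∧ qf e k v = (z : ℤ) ^ 2

def S_NT7 : Prop := ∀ e k : ℤ, (e = 0 ∨ e = 1) → 7 ≤ 4 * k - e → ∀ Φ : Finset V, Adm e k Φ →
  ∑ v ∈ Φ, 1 / (qf e k v : ℝ) ≤ 4

def S_NT4 : Prop := ∀ Φ : Finset V, Adm 0 1 Φ → ∑ v ∈ Φ, 1 / (qf 0 1 v : ℝ) ≤ 24 / 5

def S_NT3 : Prop := ∀ Φ : Finset V, Adm 1 1 Φ → ∑ v ∈ Φ, 1 / (qf 1 1 v : ℝ) ≤ 432 / 65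

noncomputable def fw (n : ℕ) : ℝ := (2 : ℝ) ^ n.primeFactors.card / (n : ℝ) ^ 2

def S_SUM : Prop := ∀ Φ : Finset ℕ, (∀ n ∈ Φ, 0 < n) → ∑ n ∈ Φ, fw n ≤ 5 / 2

def S_EXC : Prop := ∀ (P : ℕ → Prop) (B : ℝ) (p : ℕ), p.Prime → (∀ n k : ℕ, P n → P (p ^ k * n)) →
  (∀ Φ : Finset ℕ, (∀ n ∈ Φ, 0 < n ∧ P n) → ∑ n ∈ Φ, fw n ≤ B) →
  ∀ Φ : Finset ℕ, (∀ n ∈ Φ, 0 < n ∧ P n ∧ ¬ p ∣ n) →
    ∑ n ∈ Φ, fw n ≤ B * ((p : ℝ) ^ 2 - 1) / ((p : ℝ) ^ 2 + 1)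

/-- `-(4k-e)` is a fundamental discriminant. -/
def Fund (e k : ℤ) : Prop := ¬ ∃ f e' k' : ℤ, 2 ≤ f ∧ (e' = 0 ∨ e' = 1) ∧
  4 * k - e = f ^ 2 * (4 * k' - e')

/-- Vectors with the same type have `z²` dividing their determinant. -/
def S_TYPE : Prop := ∀ e k : ℤ, (e = 0 ∨ e = 1) → 3 ≤ 4 * k - e → Fund e k → ∀ z : ℕ, 0 < z →
  ∃ ty : V → Finset ℕ, (∀ v, ty v ⊆ z.primeFactors) ∧
    ∀ v v' : V, IsCoprime v.1 v.2 → IsCoprime v'.1 v'.2 → qf e k v = (z : ℤ) ^ 2 →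
      qf e k v' = (z : ℤ) ^ 2 → ty v = ty v' → (z : ℤ) ^ 2 ∣ v.1 * v'.2 - v.2 * v'.1

def S_CNT : Prop := ∀ e k : ℤ, (e = 0 ∨ e = 1) → 7 ≤ 4 * k - e → Fund e k → ∀ z : ℕ, 0 < z →
  ∀ Φ : Finset V, (∀ v ∈ Φ, IsCoprime v.1 v.2 ∧ qf e k v = (z : ℤ) ^ 2) →
    Φ.card ≤ 2 * 2 ^ z.primeFactors.card

def S_CNTF : Prop := ∀ e f : ℤ, (e = 0 ∨ e = 1) → 2 ≤ f → ∀ z : ℕ, 0 < z →
  ∀ Φ : Finset V, (∀ v ∈ Φ, IsCoprime v.1 v.2 ∧ qf e 1 v = (z : ℤ) ^ 2 ∧ f ∣ v.2) →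
    Φ.card ≤ 2 * 2 ^ z.primeFactors.card

def S_CNT4 : Prop := ∀ z : ℕ, 0 < z →
  ∀ Φ : Finset V, (∀ v ∈ Φ, IsCoprime v.1 v.2 ∧ qf 0 1 v = (z : ℤ) ^ 2) →
    Φ.card ≤ 4 * 2 ^ z.primeFactors.card

def S_CNT3 : Prop := ∀ z : ℕ, 0 < z →
  ∀ Φ : Finset V, (∀ v ∈ Φ, IsCoprime v.1 v.2 ∧ qf 1 1 v = (z : ℤ) ^ 2) →
    Φ.card ≤ 6 * 2 ^ z.primeFactors.card

/-- Local conditions on `z`. -/
def S_LOC : Prop :=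
  (∀ (v : V) (z : ℤ), IsCoprime v.1 v.2 → qf 0 1 v = z ^ 2 → ¬ (2 : ℤ) ∣ z ∧ ¬ (3 : ℤ) ∣ z) ∧
  (∀ (v : V) (z : ℤ), IsCoprime v.1 v.2 → qf 1 1 v = z ^ 2 →
    ¬ (2 : ℤ) ∣ z ∧ ¬ (3 : ℤ) ∣ z ∧ ¬ (5 : ℤ) ∣ z) ∧
  (∀ (e k : ℤ), (e = 0 ∨ e = 1) → 7 ≤ 4 * k - e → Fund e k →
    (∀ (v : V) (z : ℕ), 0 < z → IsCoprime v.1 v.2 → qf e k v = (z : ℤ) ^ 2 → z ≠ 2) ∨
    (∀ (v : V) (z : ℕ), 0 < z → IsCoprime v.1 v.2 → qf e k v = (z : ℤ) ^ 2 → ¬ 3 ∣ z))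

/-- Grouping by the value of `z`. -/
def S_GRP : Prop := ∀ (Q : V → ℤ) (c : ℕ) (P : ℕ → Prop) (B : ℝ) (Φ : Finset V),
  (∀ v ∈ Φ, ∃ z : ℕ, 0 < z ∧ P z ∧ Q v = (z : ℤ) ^ 2) →
  (∀ z : ℕ, 0 < z → (Φ.filter (fun v => Q v = (z : ℤ) ^ 2)).card ≤ c * 2 ^ z.primeFactors.card) →
  (∀ Ψ : Finset ℕ, (∀ n ∈ Ψ, 0 < n ∧ P n) → ∑ n ∈ Ψ, fw n ≤ B) →
  ∑ v ∈ Φ, 1 / (Q v : ℝ) ≤ c * B

/-- Reduction to a fundamental discriminant. -/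
def S_RED : Prop := ∀ e k e0 k0 f : ℤ, (e = 0 ∨ e = 1) → (e0 = 0 ∨ e0 = 1) → 0 < 4 * k0 - e0 →
  1 ≤ f → 4 * k - e = f ^ 2 * (4 * k0 - e0) → ∀ Φ : Finset V, Adm e k Φ →
  ∃ (h : V → V) (g : V → ℕ), Set.InjOn h (Φ : Set V) ∧ ∀ v ∈ Φ, 0 < g v ∧
    IsCoprime (h v).1 (h v).2 ∧ (∃ z : ℕ, 0 < z ∧ qf e0 k0 (h v) = (z : ℤ) ^ 2) ∧
    qf e k v = (g v : ℤ) ^ 2 * qf e0 k0 (h v) ∧ (g v = 1 → f ∣ (h v).2)

/-- Discriminants `-4 f²` and `-3 f²` with `f ≥ 2`. -/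
def S_34 : Prop := ∀ f : ℤ, 2 ≤ f →
  (∀ Φ : Finset V, Adm 0 1 Φ → (∀ v ∈ Φ, f ∣ v.2) → ∑ v ∈ Φ, 1 / (qf 0 1 v : ℝ) ≤ 12 / 5) ∧
  (∀ Φ : Finset V, Adm 1 1 Φ → (∀ v ∈ Φ, f ∣ v.2) → ∑ v ∈ Φ, 1 / (qf 1 1 v : ℝ) ≤ 144 / 65)

/-- `D ≥ 7` fundamental. -/
def S_FUND : Prop := ∀ e k : ℤ, (e = 0 ∨ e = 1) → 7 ≤ 4 * k - e → Fund e k →
  ∀ Φ : Finset V, Adm e k Φ → ∑ v ∈ Φ, 1 / (qf e k v : ℝ) ≤ 4

/-- First half of the passage from lattices to forms. -/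
def S_A1 : Prop := ∀ a b : ℂ, LinearIndependent ℝ ![a, b] →
  (∀ Φ : Finset ℂ, Good a b Φ → ∀ ρ ∈ Φ, ρ = 1 ∨ ρ = -1) ∨
  ∃ A B C : ℤ, 0 < A ∧ 0 < 4 * A * C - B ^ 2 ∧
    (A : ℂ) * b ^ 2 + B * a * b + C * a ^ 2 = 0 ∧
    ∀ Φ : Finset ℂ, Good a b Φ → ∃ Ψ : Finset V,
      (∀ v ∈ Ψ, IsCoprime v.1 v.2 ∧ ∃ z : ℕ, 0 < z ∧
        v.1 ^ 2 - B * v.1 * v.2 + A * C * v.2 ^ 2 = (z : ℤ) ^ 2) ∧
      ∑ ρ ∈ Φ, 1 / ((M a b ρ).index : ℝ) ^ 2 ≤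
        ∑ v ∈ Ψ, 1 / ((v.1 ^ 2 - B * v.1 * v.2 + A * C * v.2 ^ 2 : ℤ) : ℝ)

/-- The rotation sums of all lattices. -/
def S_ARI : Prop := ∀ a b : ℂ, LinearIndependent ℝ ![a, b] →
  RotB a b 4 ∨
  (RotB a b (24 / 5) ∧ ∃ p q r : ℤ, p ^ 2 + q * r = -1 ∧
    Complex.I * a = p * a + r * b ∧ Complex.I * b = q * a - p * b) ∨
  (RotB a b (432 / 65) ∧ ∃ (w : ℂ) (p q r : ℤ), w ^ 2 + w + 1 = 0 ∧ p ^ 2 + p + 1 + q * r = 0 ∧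
    w * a = p * a + r * b ∧ w * b = q * a - (1 + p) * b)

end Pool.Agent.K6.H56.TL
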